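import Pool.Agent.Work.MP_a2bf38_gt.Fu.W.GeoDefs
import Pool.Agent.Work.MP_a2bf38_gt.Fu.X.LocComp
import Pool.Agent.Work.MP_a2bf38_gt.Fu.I.GapB

section

/-!
# Holomorphic maps whose fibres are embedded in a projective space
-/

open scoped ContDiff ENNReal ComplexOrder LinearAlgebra.Projectivization
open Set Filter Pool.Agent.ToricKRF Pool.Agent.ToricKRF.G Pool.Agent.KRFS Pool.Agent.KRFF

namespace Pool.Agent.KRFZ

section

variable {M Z : Type} [MetricSpace M] [MetricSpace Z] {n N : ℕ} {κ P : Type}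
  (e : κ → OpenPartialHomeomorph M (Cn n)) (U : P → Set Z) (q : P → Z → Cn N) (f : M → Z)

/-- Over the set `S` of `Z`, the map `ι` embeds the fibres of `f` in the projective space: `ι` is
holomorphic and `(f, ι)` is an injective immersion. -/
structure IsEmbOver (S : Set Z) {L : ℕ} (ι : M → ℙ ℂ (Fin (L + 1) → ℂ)) : Prop where
  lift : ∀ c, ∀ x ∈ (e c).target, f ((e c).symm x) ∈ S →
    ∃ (F : Cn n → Cn (L + 1)) (W : Set (Cn n)), x ∈ W ∧ IsLift e ι c F W ∧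
      ∀ j, f ((e c).symm x) ∈ U j → ∀ v, fderiv ℝ (fmap e q f c j) x v = 0 →
        (∃ a b : ℝ, fderiv ℝ F x v = a • F x + b • J (F x)) → v = 0
  inj : ∀ p p', f p ∈ S → f p = f p' → ι p = ι p' → p = p'

theorem IsEmbOver.isProjOver {e : κ → OpenPartialHomeomorph M (Cn n)} {U : P → Set Z}
    {q : P → Z → Cn N} {f : M → Z} {S S' : Set Z} {L : ℕ} {ι : M → ℙ ℂ (Fin (L + 1) → ℂ)}
    (h : IsEmbOver e U q f S ι) (hS : S' ⊆ S) {d : ℕ}
    (halg : ∀ z ∈ S', ∃ T : Set (MvPolynomial (Fin (L + 1)) ℂ), (∀ Q ∈ T, Q.IsHomogeneous d) ∧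
      ∀ (x : Fin (L + 1) → ℂ) (h : x ≠ 0), (∀ Q ∈ T, MvPolynomial.eval x Q = 0) ↔
        ∃ p, f p = z ∧ ι p = Projectivization.mk ℂ x h) : IsProjOver e U q f S' ι d where
  lift c x hx hS' := h.lift c x hx (hS hS')
  inj p p' hp := h.inj p p' (hS hp)
  alg := halg

end

end Pool.Agent.KRFZ

end

section

/-!
# Equations of bounded degree for the fibres of a map
-/

open scoped ContDiff ENNReal ComplexOrder LinearAlgebra.Projectivization Topology
open Set Filter Pool.Agent.ToricKRF Pool.Agent.ToricKRF.G Pool.Agent.KRFS Pool.Agent.KRFF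
  Pool.Agent.KRFZ

namespace Pool.Agent.KRFCh

section

variable {M Z : Type} [MetricSpace M] [MetricSpace Z]

/-- the cone over the image of the fibre over `w` -/
def fcone (f : M → Z) {L : ℕ} (ι : M → ℙ ℂ (Fin (L + 1) → ℂ)) (w : Z) : Set (Cn (L + 1)) :=
  {x | ∃ (p : M) (h : cc x ≠ 0), f p = w ∧ ι p = Projectivization.mk ℂ (cc x) h}

/-- In the cone `O`, for the points `w` of `S`, the functions `E w` are holomorphic and comparable to
the distance of `(x, w)` to the points `(ι p, f p)`. -/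
structure IsEq (f : M → Z) {L : ℕ} (ι : M → ℙ ℂ (Fin (L + 1) → ℂ)) {r : ℕ}
    (O : Set (Cn (L + 1))) (S : Set Z) (E : Z → Cn (L + 1) → Cn r) (C : ℝ) : Prop where
  isOpen : IsOpen O
  ne : ∀ x ∈ O, x ≠ 0
  cone : ∀ x ∈ O, ∀ a b : ℝ, a ^ 2 + b ^ 2 ≠ 0 → a • x + b • J x ∈ O
  hol : ∀ w ∈ S, HolOn (E w) O
  upper : ∀ w ∈ S, ∀ x ∈ O, ∀ (p : M) (x' : Cn (L + 1)) (h : cc x' ≠ 0),
    ι p = Projectivization.mk ℂ (cc x') h →
      nsq (E w x) ≤ C * (nsq (x - x') / nsq x + dist (f p) w ^ 2)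
  lower : ∀ w ∈ S, ∀ x ∈ O, ∃ (p : M) (x' : Cn (L + 1)) (h : cc x' ≠ 0),
    ι p = Projectivization.mk ℂ (cc x') h ∧
      nsq (x - x') / nsq x + dist (f p) w ^ 2 ≤ C * nsq (E w x)

end

/-- `|<x, b>|^2 / (|x|^2 |b|^2)` -/
noncomputable def hcap {l : ℕ} (b x : Cn l) : ℝ :=
  ‖∑ k, cc x k * (starRingEnd ℂ) (cc b k)‖ ^ 2 / (nsq x * nsq b)

/-- `W ε` is of the size of `|x - Γ|^2 + ε^2`, and `i ∂ ∂bar log (W ε)` is at least `- C` times the
Fubini-Study form. -/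
structure IsWeight {l : ℕ} (Γ : Set (Cn l)) (W : ℝ → Cn l → ℝ) (C : ℝ) : Prop where
  smooth : ∀ ε ∈ Ioc (0 : ℝ) 1, ContDiffOn ℝ ∞ (W ε) {x | x ≠ 0}
  pos : ∀ ε ∈ Ioc (0 : ℝ) 1, ∀ x, x ≠ 0 → 0 < W ε x ∧ W ε x ≤ C
  lev : ∀ ε ∈ Ioc (0 : ℝ) 1, ∀ x, x ≠ 0 → ∀ v,
    -C * levz (fun x => Real.log (nsq x)) v x ≤ levz (fun x => Real.log (W ε x)) v x
  near : ∀ x₁ ∈ Γ, ∃ C', ∀ ε ∈ Ioc (0 : ℝ) 1, ∀ x, x ≠ 0 → nsq (x - x₁) ≤ ε ^ 2 →
    W ε x ≤ C' * ε ^ 2
  away : ∀ x, x ≠ 0 → x ∉ Γ → ∃ c > 0, ∀ᶠ x' in 𝓝 x, ∀ ε ∈ Ioc (0 : ℝ) 1, c ≤ W ε x'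

/-- the affine slice `x_a = 1` -/
def slice {L : ℕ} (a : Fin (L + 1)) (t : Cn L) : Cn (L + 1) :=
  (a.insertNth (1 : ℝ) t.1, a.insertNth (0 : ℝ) t.2)

end Pool.Agent.KRFCh

end

section

/-!
# The Laplacian of `log |F|^2`
-/

open scoped ContDiff ComplexOrder Topology
open Set Filter Pool.Agent.ToricKRF Pool.Agent.ToricKRF.G Pool.Agent.KRFS
  Pool.Agent.KRFF Pool.Agent.KRFG

namespace Pool.Agent.KRFW

namespace RhoLap

/-- the derivative of `Re (conj g * h)` -/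
theorem D_conj_mul {g h : ℂ → ℂ} {x : ℂ} (hg : DifferentiableAt ℂ g x)
    (hh : DifferentiableAt ℂ h x) (w : ℂ) :
    D w (fun s => ((starRingEnd ℂ) (g s) * h s).re) x =
      ((starRingEnd ℂ) (deriv g x * w) * h x + (starRingEnd ℂ) (g x) * (deriv h x * w)).re := by
  have h1 : HasFDerivAt g _ x := hg.hasDerivAt.hasFDerivAt.restrictScalars ℝ
  have h2 : HasFDerivAt h _ x := hh.hasDerivAt.hasFDerivAt.restrictScalars ℝ
  have h3 : HasFDerivAt (fun s => (starRingEnd ℂ) (g s)) _ x :=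
    (Complex.conjCLE.toContinuousLinearMap.hasFDerivAt).comp x h1
  have h4 : HasFDerivAt (fun s => (starRingEnd ℂ) (g s) * h s) _ x := h3.mul h2
  have h5 : HasFDerivAt (fun s => ((starRingEnd ℂ) (g s) * h s).re) _ x :=
    Complex.reCLM.hasFDerivAt.comp x h4
  unfold D
  rw [h5.fderiv]
  simp
  ring

theorem norm_sq_eq (z : ℂ) : ‖z‖ ^ 2 = ((starRingEnd ℂ) z * z).re := by
  rw [← Complex.normSq_eq_norm_sq, Complex.normSq_apply]
  simp

theorem D_nf {f : ℂ → ℂ} {x : ℂ} (hf : DifferentiableAt ℂ f x) (w : ℂ) :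
    D w (fun s => ‖f s‖ ^ 2) x = 2 * ((starRingEnd ℂ) (f x) * (deriv f x * w)).re := by
  have h0 : (fun s => ‖f s‖ ^ 2) = fun s => ((starRingEnd ℂ) (f s) * f s).re :=
    funext fun s => norm_sq_eq _
  rw [h0, D_conj_mul hf hf]
  simp
  ring

theorem D_D_nf {f : ℂ → ℂ} {s : ℂ} {r : ℝ} (hf : DifferentiableOn ℂ f (Metric.ball s r)) {x : ℂ}
    (hx : x ∈ Metric.ball s r) (w : ℂ) :
    D w (D w (fun s => ‖f s‖ ^ 2)) x = 2 * ((starRingEnd ℂ) (deriv f x * w) * (deriv f x * w) +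
      (starRingEnd ℂ) (f x) * (deriv (deriv f) x * w * w)).re := by
  have hB : IsOpen (Metric.ball s r) := Metric.isOpen_ball
  have hd : ∀ y ∈ Metric.ball s r, DifferentiableAt ℂ f y := fun y hy =>
    (hf y hy).differentiableAt (hB.mem_nhds hy)
  have hd' : DifferentiableAt ℂ (deriv f) x :=
    ((hf.deriv hB) x hx).differentiableAt (hB.mem_nhds hx)
  have h1 : (D w (fun s => ‖f s‖ ^ 2)) =ᶠ[𝓝 x]
      fun y => 2 * ((starRingEnd ℂ) (f y) * (deriv f y * w)).re := by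
    filter_upwards [hB.mem_nhds hx] with y hy
    exact D_nf (hd y hy) w
  have h2 : DifferentiableAt ℂ (fun y => deriv f y * w) x := hd'.mul_const w
  have h3 : deriv (fun y => deriv f y * w) x = deriv (deriv f) x * w := deriv_mul_const hd' w
  have h4 : DifferentiableAt ℝ (fun y => ((starRingEnd ℂ) (f y) * (deriv f y * w)).re) x := by
    have h5 : DifferentiableAt ℝ f x := (hd x hx).restrictScalars ℝ
    have h6 : DifferentiableAt ℝ (fun y => deriv f y * w) x := h2.restrictScalars ℝ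
    have h7 : DifferentiableAt ℝ (fun y => (starRingEnd ℂ) (f y)) x :=
      (Complex.conjCLE.toContinuousLinearMap.differentiableAt).comp x h5
    exact Complex.reCLM.differentiableAt.comp x (h7.mul h6)
  rw [LC.D_congr w h1, LC.D_const_mul w 2 h4, D_conj_mul (hd x hx) h2, h3]

section

variable {L : ℕ} {F : ℂ → Fin L → ℂ} {s : ℂ} {r : ℝ}

theorem contDiffOn_comp (hF : DifferentiableOn ℂ F (Metric.ball s r)) (j : Fin L) :
    ContDiffOn ℝ ∞ (fun s => ‖F s j‖ ^ 2) (Metric.ball s r) := by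
  have h1 : DifferentiableOn ℂ (fun s => F s j) (Metric.ball s r) := fun x hx =>
    (differentiableWithinAt_pi.1 (hF x hx)) j
  have h2 : ContDiffOn ℝ ∞ (fun s => F s j) (Metric.ball s r) :=
    (h1.contDiffOn Metric.isOpen_ball).restrict_scalars ℝ
  exact h2.norm_sq ℝ

theorem contDiffOn_nn (hF : DifferentiableOn ℂ F (Metric.ball s r)) :
    ContDiffOn ℝ ∞ (fun s => nn (F s)) (Metric.ball s r) := by
  unfold nn
  exact ContDiffOn.sum fun j _ => contDiffOn_comp hF j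

theorem nn_pos {x : Fin L → ℂ} (h : x ≠ 0) : 0 < nn x := by
  obtain ⟨j, hj⟩ := Function.ne_iff.1 h
  refine Finset.sum_pos' (fun i _ => by positivity) ⟨j, Finset.mem_univ j, ?_⟩
  have : 0 < ‖x j‖ := norm_pos_iff.2 hj
  positivity

theorem contDiffOn_log_nn (hF : DifferentiableOn ℂ F (Metric.ball s r))
    (h0 : ∀ s' ∈ Metric.ball s r, F s' ≠ 0) :
    ContDiffOn ℝ ∞ (fun s => Real.log (nn (F s))) (Metric.ball s r) :=
  (contDiffOn_nn hF).log fun s' hs' => (nn_pos (h0 s' hs')).ne'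

theorem D_nn (hF : DifferentiableOn ℂ F (Metric.ball s r)) {x : ℂ} (hx : x ∈ Metric.ball s r)
    (w : ℂ) : D w (fun s => nn (F s)) x =
      2 * (∑ j, (starRingEnd ℂ) (F x j) * (deriv (fun s => F s j) x * w)).re := by
  have hB : IsOpen (Metric.ball s r) := Metric.isOpen_ball
  have hd : ∀ j, DifferentiableAt ℂ (fun s => F s j) x := fun j =>
    differentiableAt_pi.1 ((hF x hx).differentiableAt (hB.mem_nhds hx)) j
  have h1 : ∀ j, DifferentiableAt ℝ (fun s => ‖F s j‖ ^ 2) x := fun j =>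
    ((contDiffOn_comp hF j).contDiffAt (hB.mem_nhds hx)).differentiableAt (by simp)
  have h2 : D w (fun s => nn (F s)) x = ∑ j, D w (fun s => ‖F s j‖ ^ 2) x := by
    unfold D nn
    rw [fderiv_fun_sum fun j _ => h1 j]
    simp
  rw [h2, Complex.re_sum, Finset.mul_sum]
  exact Finset.sum_congr rfl fun j _ => D_nf (hd j) w

theorem lapC_nn (hF : DifferentiableOn ℂ F (Metric.ball s r)) {x : ℂ}
    (hx : x ∈ Metric.ball s r) :
    lapC (fun s => nn (F s)) x = 4 * ∑ j, ‖deriv (fun s => F s j) x‖ ^ 2 := by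
  have hB : IsOpen (Metric.ball s r) := Metric.isOpen_ball
  have hd : ∀ j, DifferentiableOn ℂ (fun s => F s j) (Metric.ball s r) := fun j y hy =>
    (differentiableWithinAt_pi.1 (hF y hy)) j
  have h1 : ∀ j, ContDiffAt ℝ 2 (fun s => ‖F s j‖ ^ 2) x := fun j =>
    ((contDiffOn_comp hF j).contDiffAt (hB.mem_nhds hx)).of_le two_le_infty
  unfold nn
  rw [HB.lapC_sum Finset.univ fun j _ => h1 j, Finset.mul_sum]
  refine Finset.sum_congr rfl fun j _ => ?_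
  unfold lapC
  rw [D_D_nf (hd j) hx, D_D_nf (hd j) hx, norm_sq_eq]
  simp
  ring

/-- `log |F|^2` is subharmonic -/
theorem lapC_log_nn_nonneg (hF : DifferentiableOn ℂ F (Metric.ball s r)) {x : ℂ}
    (hx : x ∈ Metric.ball s r) (h0 : F x ≠ 0) :
    0 ≤ lapC (fun s => Real.log (nn (F s))) x := by
  have hB : IsOpen (Metric.ball s r) := Metric.isOpen_ball
  have hc : ContDiffAt ℝ 2 (fun s => nn (F s)) x :=
    ((contDiffOn_nn hF).contDiffAt (hB.mem_nhds hx)).of_le two_le_infty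
  have hp : 0 < nn (F x) := nn_pos h0
  have hl := lapC_nn hF hx
  unfold lapC at hl ⊢
  rw [LC.D_D_log _ _ hc hp.ne', LC.D_D_log _ _ hc hp.ne', D_nn hF hx, D_nn hF hx]
  set a : Fin L → ℂ := fun j => deriv (fun s => F s j) x with ha
  set S : ℂ := ∑ j, (starRingEnd ℂ) (F x j) * a j with hS
  have e1 : (∑ j, (starRingEnd ℂ) (F x j) * (deriv (fun s => F s j) x * 1)) = S := by
    simp [hS, ha]
  have e2 : (∑ j, (starRingEnd ℂ) (F x j) * (deriv (fun s => F s j) x * Complex.I)) =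
      S * Complex.I := by
    rw [hS, Finset.sum_mul]
    exact Finset.sum_congr rfl fun j _ => by ring
  rw [e1, e2]
  have hcs : ‖S‖ ^ 2 ≤ nn (F x) * ∑ j, ‖a j‖ ^ 2 := by
    have h1 : ‖S‖ ≤ ∑ j, ‖F x j‖ * ‖a j‖ := by
      refine (norm_sum_le _ _).trans (le_of_eq (Finset.sum_congr rfl fun j _ => ?_))
      rw [norm_mul, Complex.norm_conj]
    have h2 := Finset.sum_mul_sq_le_sq_mul_sq Finset.univ (fun j => ‖F x j‖) (fun j => ‖a j‖)
    calc ‖S‖ ^ 2 ≤ (∑ j, ‖F x j‖ * ‖a j‖) ^ 2 :=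
          pow_le_pow_left₀ (norm_nonneg _) h1 2
      _ ≤ _ := h2
  have e3 : ‖S‖ ^ 2 = S.re * S.re + S.im * S.im := by
    rw [← Complex.normSq_eq_norm_sq, Complex.normSq_apply]
  have e4 : (S * Complex.I).re = -S.im := by simp
  rw [e4]
  set A : ℝ := nn (F x) with hA
  have e5 : D (1 : ℂ) (D 1 fun s => nn (F s)) x / A - 2 * S.re * (2 * S.re) / A ^ 2 +
      (D Complex.I (D Complex.I fun s => nn (F s)) x / A - 2 * -S.im * (2 * -S.im) / A ^ 2) =
      (4 * (A * ∑ j, ‖a j‖ ^ 2) - 4 * ‖S‖ ^ 2) / A ^ 2 := by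
    rw [e3]
    have h6 : D Complex.I (D Complex.I fun s => nn (F s)) x =
        4 * ∑ j, ‖a j‖ ^ 2 - D (1 : ℂ) (D 1 fun s => nn (F s)) x := by linarith
    rw [h6]
    field_simp
    ring
  rw [e5]
  refine div_nonneg ?_ (by positivity)
  linarith

end

/-- `1 + |s|^2` -/
theorem nn_one (s : ℂ) : nn (![1, s] : Fin 2 → ℂ) = 1 + ‖s‖ ^ 2 := by
  simp [nn, Fin.sum_univ_two]

theorem contDiff_log_one : ContDiff ℝ ∞ fun s : ℂ => Real.log (1 + ‖s‖ ^ 2) := by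
  refine ContDiff.log (contDiff_const.add (contDiff_id.norm_sq ℝ)) fun s => ?_
  have := sq_nonneg ‖s‖
  positivity

theorem lapC_log_one_nonneg (x : ℂ) : 0 ≤ lapC (fun s : ℂ => Real.log (1 + ‖s‖ ^ 2)) x := by
  have h1 : (fun s : ℂ => Real.log (1 + ‖s‖ ^ 2)) =
      fun s : ℂ => Real.log (nn (![1, s] : Fin 2 → ℂ)) := by
    funext s
    rw [nn_one]
  rw [h1]
  refine lapC_log_nn_nonneg (s := x) (r := 1) ?_ (Metric.mem_ball_self one_pos) ?_
  · refine (differentiable_pi.2 fun j => ?_).differentiableOn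
    fin_cases j
    · exact differentiable_const _
    · exact differentiable_id
  · intro h
    have := congrFun h 0
    simp at this

/-- the main computation for `rho_curve` -/
theorem curve_core {L : ℕ} {C₁ C₂ μ : ℝ} (hC₂ : C₁ ≤ C₂) (hμ : 0 < μ)
    {F : ℂ → Fin (L + 1) → ℂ} {R : ℂ → ℝ} {s : ℂ} {r : ℝ}
    (hF : DifferentiableOn ℂ F (Metric.ball s r)) (h0 : ∀ s' ∈ Metric.ball s r, F s' ≠ 0)
    (hR : ∀ s' ∈ Metric.ball s r, R s' = C₁ * Real.log (nn (F s') / (μ * (1 + ‖s'‖ ^ 2)))) :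
    ContDiffOn ℝ ∞ R (Metric.ball s r) ∧
      ∀ s' ∈ Metric.ball s r, 0 ≤ lapC (fun s' => Real.log (nn (F s'))) s' ∧
        C₁ * lapC (fun s' => Real.log (nn (F s'))) s' ≤
          lapC (fun s' => C₂ * Real.log (1 + ‖s'‖ ^ 2) + R s') s' := by
  have hB : IsOpen (Metric.ball s r) := Metric.isOpen_ball
  have hlog : ContDiffOn ℝ ∞ (fun s => Real.log (nn (F s))) (Metric.ball s r) :=
    contDiffOn_log_nn hF h0
  have hone : ContDiff ℝ ∞ fun s : ℂ => Real.log (1 + ‖s‖ ^ 2) := contDiff_log_one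
  have hR' : ∀ s' ∈ Metric.ball s r, R s' = C₁ * (Real.log (nn (F s')) -
      (Real.log μ + Real.log (1 + ‖s'‖ ^ 2))) := fun s' hs' => by
    have h1 := nn_pos (h0 s' hs')
    have h2 : 0 < 1 + ‖s'‖ ^ 2 := by positivity
    rw [hR s' hs', Real.log_div h1.ne' (mul_pos hμ h2).ne', Real.log_mul hμ.ne' h2.ne']
  refine ⟨?_, fun x hx => ⟨lapC_log_nn_nonneg hF hx (h0 x hx), ?_⟩⟩
  · refine ContDiffOn.congr (f := fun s' => C₁ * (Real.log (nn (F s')) -
      (Real.log μ + Real.log (1 + ‖s'‖ ^ 2)))) ?_ hR'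
    exact contDiffOn_const.mul (hlog.sub (contDiffOn_const.add hone.contDiffOn))
  · have h1 : ContDiffAt ℝ 2 (fun s => Real.log (nn (F s))) x :=
      (hlog.contDiffAt (hB.mem_nhds hx)).of_le two_le_infty
    have h2 : ContDiffAt ℝ 2 (fun s : ℂ => Real.log (1 + ‖s‖ ^ 2)) x :=
      hone.contDiffAt.of_le two_le_infty
    have h3 : (fun s' => C₂ * Real.log (1 + ‖s'‖ ^ 2) + R s') =ᶠ[𝓝 x]
        fun s' => (C₂ - C₁) * Real.log (1 + ‖s'‖ ^ 2) +
          (C₁ * Real.log (nn (F s')) + (-(C₁ * Real.log μ))) := by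
      filter_upwards [hB.mem_nhds hx] with y hy
      rw [hR' y hy]
      ring
    have h4 : lapC (fun s' => C₂ * Real.log (1 + ‖s'‖ ^ 2) + R s') x =
        (C₂ - C₁) * lapC (fun s : ℂ => Real.log (1 + ‖s‖ ^ 2)) x +
          C₁ * lapC (fun s => Real.log (nn (F s))) x := by
      have h5 : lapC (fun s' => C₂ * Real.log (1 + ‖s'‖ ^ 2) + R s') x =
          lapC (fun s' => (C₂ - C₁) * Real.log (1 + ‖s'‖ ^ 2) +
            (C₁ * Real.log (nn (F s')) + (-(C₁ * Real.log μ)))) x := by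
        unfold lapC
        rw [LC.D_D_congr _ _ h3, LC.D_D_congr _ _ h3]
      have h6 : ContDiffAt ℝ 2 (fun s' => C₁ * Real.log (nn (F s')) + (-(C₁ * Real.log μ))) x :=
        (contDiffAt_const.mul h1).add contDiffAt_const
      have h7 : lapC (fun _ : ℂ => -(C₁ * Real.log μ)) x = 0 := by
        have h8 : (fun _ : ℂ => -(C₁ * Real.log μ)) = fun _ : ℂ => (-(C₁ * Real.log μ)) * (1 : ℝ) := by
          simp
        have h9 : lapC (fun _ : ℂ => (1 : ℝ)) x = 0 := by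
          unfold lapC D
          simp
        rw [h8, HB.lapC_const_mul _ contDiffAt_const, h9, mul_zero]
      rw [h5, HB.lapC_add (contDiffAt_const.mul h2) h6, HB.lapC_const_mul _ h2,
        HB.lapC_add (contDiffAt_const.mul h1) contDiffAt_const, HB.lapC_const_mul _ h1, h7,
        add_zero]
    rw [h4]
    have h5 : 0 ≤ (C₂ - C₁) * lapC (fun s : ℂ => Real.log (1 + ‖s‖ ^ 2)) x :=
      mul_nonneg (sub_nonneg.2 hC₂) (lapC_log_one_nonneg x)
    linarith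

end RhoLap

end Pool.Agent.KRFW

end

section

/-!
# The potential of the curves (KRF VII, H7)
-/

open scoped ContDiff ENNReal ComplexOrder LinearAlgebra.Projectivization Topology
open Set Filter Pool.Agent.ToricKRF Pool.Agent.ToricKRF.G Pool.Agent.KRFS Pool.Agent.KRFF
  Pool.Agent.KRFZ

namespace Pool.Agent.KRFW

theorem nn_smul {L : ℕ} (a : ℂ) (x : Fin L → ℂ) : nn (a • x) = ‖a‖ ^ 2 * nn x := by
  unfold nn
  rw [Finset.mul_sum]
  refine Finset.sum_congr rfl fun j _ => ?_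
  simp only [Pi.smul_apply, smul_eq_mul, norm_mul]
  ring

theorem nl_smul {L k : ℕ} (ℓ : Fin k → Fin L → ℂ) (a : ℂ) (x : Fin L → ℂ) :
    nl ℓ (a • x) = ‖a‖ ^ 2 * nl ℓ x := by
  unfold nl
  rw [Finset.mul_sum]
  refine Finset.sum_congr rfl fun i _ => ?_
  have h : ∑ j, ℓ i j * (a • x) j = a * ∑ j, ℓ i j * x j := by
    rw [Finset.mul_sum]
    refine Finset.sum_congr rfl fun j _ => ?_
    simp only [Pi.smul_apply, smul_eq_mul]
    ring
  rw [h, norm_mul]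
  ring

theorem continuous_nn {L : ℕ} : Continuous (nn : (Fin L → ℂ) → ℝ) := by
  unfold nn
  fun_prop

theorem continuous_nl {L k : ℕ} (ℓ : Fin k → Fin L → ℂ) : Continuous (nl ℓ) := by
  unfold nl
  fun_prop

section

variable {M Z : Type} [MetricSpace M] [CompactSpace M] [MetricSpace Z] {n N : ℕ} {κ P : Type}
  {e : κ → OpenPartialHomeomorph M (Cn n)} {U : P → Set Z} {q : P → Z → Cn N} {f : M → Z}
  {ψ : κ → ℝ × Cn n → ℝ}

/-- the potential `C₁ log (|x|^2 / max (|ℓ(x)|^2, |x|^2 / C))` -/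
noncomputable def rho {L k : ℕ} (ι : M → ℙ ℂ (Fin (L + 1) → ℂ)) (ℓ : Fin k → Fin (L + 1) → ℂ)
    (C C₁ : ℝ) (p : M) : ℝ :=
  C₁ * Real.log (nn (ι p).rep / max (nl ℓ (ι p).rep) (nn (ι p).rep / C))

omit [CompactSpace M] in
theorem rho_eq {L k : ℕ} {ι : M → ℙ ℂ (Fin (L + 1) → ℂ)} (ℓ : Fin k → Fin (L + 1) → ℂ)
    (C C₁ : ℝ) {p : M} {x : Fin (L + 1) → ℂ} (h : x ≠ 0) (hp : ι p = Projectivization.mk ℂ x h) :
    rho ι ℓ C C₁ p = C₁ * Real.log (nn x / max (nl ℓ x) (nn x / C)) := by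
  have h1 : Projectivization.mk ℂ (ι p).rep (ι p).rep_nonzero = Projectivization.mk ℂ x h := by
    rw [Projectivization.mk_rep, hp]
  obtain ⟨a, ha⟩ := (Projectivization.mk_eq_mk_iff' ℂ _ _ _ _).1 h1
  have ha0 : a ≠ 0 := by
    rintro rfl
    exact (ι p).rep_nonzero (by rw [← ha, zero_smul])
  have h2 : 0 < ‖a‖ ^ 2 := by
    have := norm_pos_iff.2 ha0
    positivity
  unfold rho
  rw [← ha, nn_smul, nl_smul, mul_div_assoc (‖a‖ ^ 2) (nn x) C, ← mul_max_of_nonneg _ _ h2.le,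
    mul_div_mul_left _ _ h2.ne']

omit [CompactSpace M] in
theorem rho_cont (G : GeoData e U q f ψ) {S : Set Z} {L d k : ℕ}
    {ι : M → ℙ ℂ (Fin (L + 1) → ℂ)} (hι : IsProjOver e U q f S ι d) (hS : IsOpen S)
    (ℓ : Fin k → Fin (L + 1) → ℂ) {C : ℝ} (hC : 0 < C) (C₁ : ℝ) :
    ContinuousOn (rho ι ℓ C C₁) (f ⁻¹' S) := by
  intro p hp
  obtain ⟨c, hc⟩ := G.atlas.cover p
  have hx : e c p ∈ (e c).target := (e c).map_source hc
  have hpx : (e c).symm (e c p) = p := (e c).left_inv hc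
  obtain ⟨F, W, hxW, hF, -⟩ := hι.lift c (e c p) hx (by rw [hpx]; exact hp)
  obtain ⟨hW, hWt, hFh, hF0⟩ := hF
  have hFc : ContinuousAt F (e c p) := (hFh.1.continuousOn).continuousAt (hW.mem_nhds hxW)
  have hgc : ContinuousAt (fun p' => cc (F (e c p'))) p := by
    have h1 : ContinuousAt (fun p' => F (e c p')) p := hFc.comp ((e c).continuousAt hc)
    refine continuousAt_pi.2 fun j => ?_
    have h2 : Continuous fun u : Cn (L + 1) => cc u j := by
      have h3 : (fun u : Cn (L + 1) => cc u j) = fun u => (u.1 j : ℂ) + (u.2 j : ℂ) * Complex.I := by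
        funext u
        exact Complex.ext (by simp [cc]) (by simp [cc])
      rw [h3]
      fun_prop
    exact h2.continuousAt.comp h1
  obtain ⟨h0, -⟩ := hF0 _ hxW
  have hev : (fun p' => rho ι ℓ C C₁ p') =ᶠ[𝓝 p] fun p' => C₁ * Real.log
      (nn (cc (F (e c p'))) / max (nl ℓ (cc (F (e c p')))) (nn (cc (F (e c p'))) / C)) := by
    have h1 : ∀ᶠ p' in 𝓝 p, p' ∈ (e c).source := (e c).open_source.mem_nhds hc
    have h2 : ∀ᶠ p' in 𝓝 p, e c p' ∈ W := ((e c).continuousAt hc) (hW.mem_nhds hxW)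
    filter_upwards [h1, h2] with p' h1 h2
    obtain ⟨h3, h4⟩ := hF0 _ h2
    rw [(e c).left_inv h1] at h4
    exact rho_eq ℓ C C₁ h3 h4
  refine ContinuousAt.continuousWithinAt (ContinuousAt.congr ?_ hev.symm)
  have hnn : 0 < nn (cc (F (e c p))) := RhoLap.nn_pos h0
  have hmx : 0 < max (nl ℓ (cc (F (e c p)))) (nn (cc (F (e c p))) / C) :=
    lt_max_of_lt_right (div_pos hnn hC)
  have h5 : ContinuousAt (fun p' => nn (cc (F (e c p')))) p := continuous_nn.continuousAt.comp hgc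
  have h6 : ContinuousAt (fun p' => nl ℓ (cc (F (e c p')))) p :=
    (continuous_nl ℓ).continuousAt.comp hgc
  exact continuousAt_const.mul ((h5.div (h6.max (h5.div_const C)) hmx.ne').log
    (div_pos hnn hmx).ne')

omit [CompactSpace M] in
theorem rho_bound {L k : ℕ} {ι : M → ℙ ℂ (Fin (L + 1) → ℂ)} {ℓ : Fin k → Fin (L + 1) → ℂ}
    {C C₁ : ℝ} (hC : 1 ≤ C) (hC₁ : 0 ≤ C₁) (hℓ : ∀ v, nl ℓ v ≤ C * nn v) (p : M) :
    |rho ι ℓ C C₁ p| ≤ C₁ * Real.log C := by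
  have hC0 : 0 < C := by linarith
  unfold rho
  rw [abs_mul, abs_of_nonneg hC₁]
  refine mul_le_mul_of_nonneg_left ?_ hC₁
  set x := (ι p).rep with hx
  have hnn : 0 < nn x := RhoLap.nn_pos (ι p).rep_nonzero
  have hmx : 0 < max (nl ℓ x) (nn x / C) := lt_max_of_lt_right (div_pos hnn hC0)
  have h1 : nn x / max (nl ℓ x) (nn x / C) ≤ C := by
    rw [div_le_iff₀ hmx]
    calc nn x = C * (nn x / C) := by field_simp
      _ ≤ C * max (nl ℓ x) (nn x / C) := mul_le_mul_of_nonneg_left (le_max_right _ _) hC0.le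
  have h2 : C⁻¹ ≤ nn x / max (nl ℓ x) (nn x / C) := by
    rw [le_div_iff₀ hmx, inv_mul_le_iff₀ hC0]
    refine max_le (hℓ x) ?_
    calc nn x / C ≤ nn x := div_le_self hnn.le hC
      _ ≤ C * nn x := le_mul_of_one_le_left hnn.le hC
  rw [abs_le]
  constructor
  · rw [← Real.log_inv]
    exact Real.log_le_log (inv_pos.2 hC0) h2
  · exact Real.log_le_log (div_pos hnn hmx) h1

omit [CompactSpace M] in
/-- along a curve with `∑ |ℓ_i(F s)|^2 = μ (1 + |s|^2)` -/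
theorem rho_curve {L k : ℕ} {ι : M → ℙ ℂ (Fin (L + 1) → ℂ)} {ℓ : Fin k → Fin (L + 1) → ℂ}
    {C C₁ C₂ μ : ℝ} (hC : 0 < C) (hC₁ : 0 ≤ C₁) (hC₂ : C₁ ≤ C₂) (hμ : 0 < μ) {h : ℂ → M}
    {F : ℂ → Fin (L + 1) → ℂ} {s : ℂ} {r : ℝ} (hF : DifferentiableOn ℂ F (Metric.ball s r))
    (hh : ∀ s' ∈ Metric.ball s r, ∃ h0 : F s' ≠ 0, ι (h s') = Projectivization.mk ℂ (F s') h0)
    (h1 : ∀ s' ∈ Metric.ball s r, nl ℓ (F s') = μ * (1 + ‖s'‖ ^ 2))
    (h2 : ∀ s' ∈ Metric.ball s r, nn (F s') < C * nl ℓ (F s')) :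
    ContDiffOn ℝ ∞ (fun s' => rho ι ℓ C C₁ (h s')) (Metric.ball s r) ∧
      ∀ s' ∈ Metric.ball s r, 0 ≤ lapC (fun s' => Real.log (nn (F s'))) s' ∧
        C₁ * lapC (fun s' => Real.log (nn (F s'))) s' ≤
          lapC (fun s' => C₂ * Real.log (1 + ‖s'‖ ^ 2) + rho ι ℓ C C₁ (h s')) s' := by
  refine RhoLap.curve_core (C₁ := C₁) (C₂ := C₂) (μ := μ) (R := fun s' => rho ι ℓ C C₁ (h s'))
    hC₂ hμ hF (fun s' hs' => (hh s' hs').1) fun s' hs' => ?_
  obtain ⟨h0, hp⟩ := hh s' hs'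
  show rho ι ℓ C C₁ (h s') = _
  rw [rho_eq ℓ C C₁ h0 hp]
  have h3 : nn (F s') / C ≤ nl ℓ (F s') := by
    rw [div_le_iff₀ hC]
    have := h2 s' hs'
    linarith
  rw [max_eq_left h3, h1 s' hs']

end

end Pool.Agent.KRFW

end
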