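import Pool.Agent.Work.MP_a2bf38_gt.Fu.W.GeoDefs
import Pool.Agent.Work.MP_a2bf38_gt.Fu.X.RegHad
import Pool.Agent.Work.MP_a2bf38_gt.Fu.Z.NatC
import Pool.Agent.Work.MP_a2bf38_gt.Fu.I.Sect
import Pool.Agent.Work.MP_a2bf38_gt.Fu.K.PshCOf
import Pool.Agent.Work.MP_a2bf38_gt.Fu.I.GapB
import Pool.Agent.Work.MP_a2bf38_gt.Fu.Lj.Defs
import Pool.Agent.Work.MP_a2bf38_gt.Fu.Al.MetricA
import Pool.Agent.Work.MP_a2bf38_gt.Fu.X.NatMono
import Pool.Agent.Work.MP_a2bf38_gt.Fu.W.EmbDefs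

section

/-!
# The Fubini-Study form along a lifted curve (helper53)
-/

open scoped ContDiff ENNReal ComplexOrder Topology
open Set Filter Pool.Agent.ToricKRF Pool.Agent.ToricKRF.G Pool.Agent.KRFS Pool.Agent.KRFF
  Pool.Agent.KRFG Pool.Agent.KRFZ

namespace Pool.Agent.KRFW

namespace DiscB

theorem nn_eq {L : ℕ} (x : Fin L → ℂ) : nn x = ∑ j, Complex.normSq (x j) := by
  unfold nn
  exact Finset.sum_congr rfl fun j _ => (Complex.normSq_eq_norm_sq _).symm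

theorem nn_pos {L : ℕ} {x : Fin L → ℂ} (hx : x ≠ 0) : 0 < nn x := by
  obtain ⟨j, hj⟩ := Function.ne_iff.1 hx
  unfold nn
  refine Finset.sum_pos' (fun i _ => by positivity) ⟨j, Finset.mem_univ _, ?_⟩
  have : x j ≠ 0 := hj
  positivity

theorem nsq_eq_nn {L : ℕ} (x : Cn L) : nsq x = nn (cc x) := by
  rw [nn_eq, Touch.nsq_eq]

/-- the Laplacian along a holomorphic disc, at every point -/
theorem lapC_curve {n : ℕ} {g : ℂ → Cn n} {s : ℂ} {r : ℝ} (hg : HolD g (Metric.ball s r))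
    {G : Cn n → ℝ} {S : Set (Cn n)} (hS : IsOpen S) (hG : ContDiffOn ℝ ∞ G S)
    (hm : ∀ ζ ∈ Metric.ball s r, g ζ ∈ S) {s' : ℂ} (hs' : s' ∈ Metric.ball s r) :
    lapC (fun ζ => G (g ζ)) s' = 4 * levz G (fderiv ℝ g s' 1) (g s') := by
  obtain ⟨r', hr', hb⟩ := Metric.isOpen_iff.1 Metric.isOpen_ball s' hs'
  have h1 := Reg.lapC_disc hr' (hg.mono hb) hS hG fun ζ hζ => hm ζ (hb hζ)
  rw [← h1, ← lapC_shift (fun ζ => G (g (s' + ζ))) s']
  simp only [add_sub_cancel]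

theorem contDiffOn_of_hol {E : Type*} [NormedAddCommGroup E] [NormedSpace ℂ E] [CompleteSpace E]
    {F : ℂ → E} {U : Set ℂ} (hU : IsOpen U) (hF : DifferentiableOn ℂ F U) :
    ContDiffOn ℝ ∞ F U :=
  (hF.contDiffOn hU).restrict_scalars ℝ

/-- a holomorphic function as a curve in `ℂ^1` -/
theorem holD_ofC {b : ℂ → ℂ} {U : Set ℂ} (hU : IsOpen U) (hb : DifferentiableOn ℂ b U) :
    HolD (fun s => (ofC fun _ : Fin 1 => b s)) U := by
  have h1 : ∀ s ∈ U, HasFDerivAt (fun s => (ofC fun _ : Fin 1 => b s))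
      ((Touch.ofCL 1).comp (ContinuousLinearMap.pi fun _ => fderiv ℝ b s)) s := by
    intro s hs
    have h2 : HasFDerivAt (fun s (_ : Fin 1) => b s)
        (ContinuousLinearMap.pi fun _ => fderiv ℝ b s) s :=
      hasFDerivAt_pi.2 fun _ => (NF.diffAt hU (contDiffOn_of_hol hU hb) hs).hasFDerivAt
    exact (Touch.ofCL 1).hasFDerivAt.comp s h2
  refine ⟨?_, fun s hs => ?_⟩
  · have h2 : ContDiffOn ℝ ∞ (fun s (_ : Fin 1) => b s) U :=
      contDiffOn_pi.2 fun _ => contDiffOn_of_hol hU hb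
    exact (Touch.ofCL 1).contDiff.comp_contDiffOn h2
  · rw [(h1 s hs).fderiv]
    have h3 := ((hb.differentiableAt (hU.mem_nhds hs)).hasDerivAt.hasFDerivAt.restrictScalars
      ℝ).fderiv
    have h4 : fderiv ℝ b s Complex.I = Complex.I * fderiv ℝ b s 1 := by
      rw [h3]
      simp
    change ofC (fun _ : Fin 1 => fderiv ℝ b s Complex.I) =
      J (ofC fun _ : Fin 1 => fderiv ℝ b s 1)
    rw [h4]
    refine Prod.ext ?_ ?_ <;> funext l <;> simp [ofC, J]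

/-- `log |b|^2` is harmonic -/
theorem lapC_log_normSq {b : ℂ → ℂ} {s : ℂ} {r : ℝ} (hb : DifferentiableOn ℂ b (Metric.ball s r))
    (hb0 : ∀ s' ∈ Metric.ball s r, b s' ≠ 0) {s' : ℂ} (hs' : s' ∈ Metric.ball s r) :
    lapC (fun s' => Real.log (Complex.normSq (b s'))) s' = 0 := by
  have hcc : ∀ S : Set (Cn 1), NF.HolC (fun x : Cn 1 => cc x 0) S := fun S =>
    (Touch.holC_cc S 0).1
  set S : Set (Cn 1) := {x | cc x 0 ≠ 0} with hSdef
  have hS : IsOpen S := by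
    have h1 : Continuous fun x : Cn 1 => cc x 0 := by
      rw [← continuousOn_univ]
      exact (hcc univ).1.continuousOn
    exact isOpen_ne_fun h1 continuous_const
  have hG : ContDiffOn ℝ ∞ (fun x : Cn 1 => Real.log (Complex.normSq (cc x 0))) S := by
    refine ContDiffOn.log ?_ fun x hx => (Complex.normSq_pos.2 hx).ne'
    have h1 : ContDiff ℝ ∞ (fun w : ℂ => Complex.normSq w) := by
      have : (fun w : ℂ => Complex.normSq w) = fun w : ℂ => ‖w‖ ^ 2 := by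
        funext w
        exact Complex.normSq_eq_norm_sq w
      rw [this]
      exact contDiff_norm_sq ℝ
    exact h1.comp_contDiffOn (hcc S).1
  have h1 := lapC_curve (holD_ofC Metric.isOpen_ball hb) hS hG (fun ζ hζ => by
    change cc (ofC fun _ : Fin 1 => b ζ) 0 ≠ 0
    rw [Touch.cc_ofC]
    exact hb0 ζ hζ) hs'
  have h2 : levz (fun x : Cn 1 => Real.log (Complex.normSq (cc x 0)))
      (fderiv ℝ (fun s => (ofC fun _ : Fin 1 => b s)) s' 1) (ofC fun _ : Fin 1 => b s') = 0 :=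
    NF.levz_log_normSq hS (hcc S) (by
      change cc (ofC fun _ : Fin 1 => b s') 0 ≠ 0
      rw [Touch.cc_ofC]
      exact hb0 s' hs') (by
      rw [Touch.cc_ofC]
      exact hb0 s' hs') _
  rw [h2, mul_zero] at h1
  rw [← h1]
  refine lapC_congr (Eventually.of_forall fun ζ => ?_)
  simp only [Touch.cc_ofC]

theorem contDiffOn_log_nn {L : ℕ} {F : ℂ → Fin L → ℂ} {U : Set ℂ} (hU : IsOpen U)
    (hF : DifferentiableOn ℂ F U) (hF0 : ∀ s ∈ U, F s ≠ 0) :
    ContDiffOn ℝ ∞ (fun s => Real.log (nn (F s))) U := by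
  refine ContDiffOn.log ?_ fun s hs => (nn_pos (hF0 s hs)).ne'
  unfold nn
  refine ContDiffOn.sum fun j _ => ?_
  exact (contDiff_norm_sq ℝ).comp_contDiffOn
    (contDiffOn_pi.1 (contDiffOn_of_hol hU hF) j)

end DiscB

open DiscB

/-- the Levi form of `log |F₁|^2` along a curve `g` is the Laplacian of `log |F|^2` for the
homogeneous coordinates `F` of the image curve -/
theorem levz_lift {n L : ℕ} {F₁ : Cn n → Cn (L + 1)} {W : Set (Cn n)} (hW : IsOpen W)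
    (hF₁ : HolOn F₁ W) {g : ℂ → Cn n} {F : ℂ → Fin (L + 1) → ℂ} {b : ℂ → ℂ} {s : ℂ} {r : ℝ}
    (hg : HolD g (Metric.ball s r)) (hgW : ∀ s' ∈ Metric.ball s r, g s' ∈ W)
    (hF : DifferentiableOn ℂ F (Metric.ball s r)) (hF0 : ∀ s' ∈ Metric.ball s r, F s' ≠ 0)
    (hb : DifferentiableOn ℂ b (Metric.ball s r)) (hb0 : ∀ s' ∈ Metric.ball s r, b s' ≠ 0)
    (h : ∀ s' ∈ Metric.ball s r, ∀ i, cc (F₁ (g s')) i = b s' * F s' i) :
    ∀ s' ∈ Metric.ball s r, 4 * levz (fun x => Real.log (nsq (F₁ x))) (fderiv ℝ g s' 1) (g s') =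
      lapC (fun s' => Real.log (nn (F s'))) s' := by
  intro s' hs'
  have hB : IsOpen (Metric.ball s r) := Metric.isOpen_ball
  have hval : ∀ t ∈ Metric.ball s r, nsq (F₁ (g t)) = Complex.normSq (b t) * nn (F t) := by
    intro t ht
    rw [nsq_eq_nn, nn_eq, nn_eq, Finset.mul_sum]
    refine Finset.sum_congr rfl fun i _ => ?_
    rw [h t ht i, map_mul]
  have hpos : ∀ t ∈ Metric.ball s r, 0 < nsq (F₁ (g t)) := fun t ht => by
    rw [hval t ht]
    exact mul_pos (Complex.normSq_pos.2 (hb0 t ht)) (nn_pos (hF0 t ht))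
  set S : Set (Cn n) := W ∩ {x | nsq (F₁ x) ≠ 0} with hSdef
  have hc : ContinuousOn (fun x => nsq (F₁ x)) W :=
    Fb.contDiff_nsq.continuous.comp_continuousOn hF₁.1.continuousOn
  have hS : IsOpen S := hc.isOpen_inter_preimage hW isOpen_ne
  have hG : ContDiffOn ℝ ∞ (fun x => Real.log (nsq (F₁ x))) S :=
    ContDiffOn.log (Fb.contDiff_nsq.comp_contDiffOn (hF₁.1.mono inter_subset_left))
      fun x hx => hx.2
  have h1 := lapC_curve hg hS hG (fun t ht => ⟨hgW t ht, (hpos t ht).ne'⟩) hs'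
  rw [← h1]
  have hev : (fun t => Real.log (nsq (F₁ (g t)))) =ᶠ[𝓝 s'] fun t =>
      Real.log (Complex.normSq (b t)) + Real.log (nn (F t)) := by
    filter_upwards [hB.mem_nhds hs'] with t ht
    rw [hval t ht, Real.log_mul (Complex.normSq_pos.2 (hb0 t ht)).ne' (nn_pos (hF0 t ht)).ne']
  have hb2 : ContDiffOn ℝ ∞ (fun t => Real.log (Complex.normSq (b t))) (Metric.ball s r) := by
    refine ContDiffOn.log ?_ fun t ht => (Complex.normSq_pos.2 (hb0 t ht)).ne'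
    have h2 : (fun t => Complex.normSq (b t)) = fun t => ‖b t‖ ^ 2 := by
      funext t
      exact Complex.normSq_eq_norm_sq _
    rw [h2]
    exact (contDiff_norm_sq ℝ).comp_contDiffOn (contDiffOn_of_hol hB hb)
  rw [lapC_congr hev, HB.lapC_add
    ((hb2.contDiffAt (hB.mem_nhds hs')).of_le (by norm_cast))
    (((contDiffOn_log_nn hB hF hF0).contDiffAt (hB.mem_nhds hs')).of_le (by norm_cast)),
    lapC_log_normSq hb hb0 hs', zero_add]

end Pool.Agent.KRFW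

end

section

/-!
# Holomorphic curves in the image of a fibre come from holomorphic curves in the fibre
-/

open scoped ContDiff ENNReal ComplexOrder LinearAlgebra.Projectivization Topology
open Set Filter Pool.Agent.ToricKRF Pool.Agent.ToricKRF.G Pool.Agent.KRFS Pool.Agent.KRFF
  Pool.Agent.KRFZ

namespace Pool.Agent.KRFW

namespace LB

variable {n : ℕ}

theorem holC_inv {h : Cn n → ℂ} {S : Set (Cn n)} (hS : IsOpen S) (hh : NF.HolC h S)
    (h0 : ∀ z ∈ S, h z ≠ 0) : NF.HolC (fun z => (h z)⁻¹) S :=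
  (KRFG.Touch.holC_comp (h := fun w => w⁻¹) (V := {0}ᶜ) isOpen_compl_singleton
    (fun _ hw => (differentiableAt_inv hw).differentiableWithinAt) hS hh
    (fun z hz => h0 z hz)).1

theorem holC_mono {h : Cn n → ℂ} {S S' : Set (Cn n)} (hh : NF.HolC h S) (hs : S' ⊆ S) :
    NF.HolC h S' := ⟨hh.1.mono hs, fun z hz => hh.2 z (hs hz)⟩

/-- A holomorphic function along a holomorphic curve. -/
theorem holC_holD {h : Cn n → ℂ} {S : Set (Cn n)} (hS : IsOpen S) (hh : NF.HolC h S)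
    {g : ℂ → Cn n} {U : Set ℂ} (hU : IsOpen U) (hg : HolD g U) (hm : MapsTo g U S) :
    DifferentiableOn ℂ (fun s => h (g s)) U := by
  intro s hs
  refine DifferentiableAt.differentiableWithinAt ?_
  have h1 : HasFDerivAt h (fderiv ℝ h (g s)) (g s) := (NF.diffAt hS hh.1 (hm hs)).hasFDerivAt
  have h2 : HasFDerivAt g (fderiv ℝ g s) s := (NF.diffAt hU hg.smooth hs).hasFDerivAt
  have h3 : HasFDerivAt (fun s => h (g s)) ((fderiv ℝ h (g s)).comp (fderiv ℝ g s)) s :=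
    h1.comp s h2
  rw [differentiableAt_complex_iff_differentiableAt_real]
  refine ⟨h3.differentiableAt, ?_⟩
  rw [h3.fderiv, ContinuousLinearMap.comp_apply, ContinuousLinearMap.comp_apply, hg.holo s hs,
    hh.2 _ (hm hs), smul_eq_mul]

/-- the derivative of the complex coordinates -/
theorem cc_fderiv {m : ℕ} {H : Cn n → Cn m} {S : Set (Cn n)} (hS : IsOpen S) (hH : HolOn H S)
    {z : Cn n} (hz : z ∈ S) (v : Cn n) (k : Fin m) :
    fderiv ℝ (fun z => cc (H z) k) z v = cc (fderiv ℝ H z v) k := by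
  have h1 : HasFDerivAt H (fderiv ℝ H z) z := (NF.diffAt hS hH.1 hz).hasFDerivAt
  have h4 : (fun z => cc (H z) k) = fun z => NF.ccL k (H z) := by
    funext z
    rw [NF.ccL_apply]
  have h5 : HasFDerivAt (fun z => NF.ccL k (H z)) ((NF.ccL k).comp (fderiv ℝ H z)) z :=
    (NF.ccL k).hasFDerivAt.comp z h1
  rw [h4, h5.fderiv, ContinuousLinearMap.comp_apply, NF.ccL_apply]

theorem ext_cc {m : ℕ} {x y : Cn m} (h : ∀ k, cc x k = cc y k) : x = y := by
  ext k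
  · exact congrArg Complex.re (h k)
  · exact congrArg Complex.im (h k)

/-- The quotients of homogeneous coordinates and the map `H` are an immersion. -/
theorem imm {L m : ℕ} {F : Cn n → Cn (L + 1)} {H : Cn n → Cn m} {S W : Set (Cn n)}
    (hS : IsOpen S) (hW : IsOpen W) (hSW : S ⊆ W) (hF : HolOn F W) {W' : Set (Cn n)}
    (hW' : IsOpen W') (hSW' : S ⊆ W') (hH : HolOn H W') {i0 : Fin (L + 1)}
    (h0 : ∀ z ∈ S, cc (F z) i0 ≠ 0) {Φ : Cn n → Fin (L + 1) ⊕ Fin m → ℂ}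
    (hΦ : Φ = fun z => Sum.elim (fun i => cc (F z) i * (cc (F z) i0)⁻¹) (fun k => cc (H z) k)) :
    (∀ i, NF.HolC (fun z => Φ z i) S) ∧ ∀ z ∈ S,
      (∀ v, fderiv ℝ H z v = 0 → (∃ a b : ℝ, fderiv ℝ F z v = a • F z + b • J (F z)) → v = 0) →
      ∀ v, (∀ i, fderiv ℝ (fun z => Φ z i) z v = 0) → v = 0 := by
  have hFi : ∀ i, NF.HolC (fun z => cc (F z) i) S := fun i =>
    holC_mono (NF.holOn_cc hW hF i) hSW
  have hΦh : ∀ i, NF.HolC (fun z => Φ z i) S := by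
    subst hΦ
    rintro (i | k)
    · exact NF.HolC.mul hS (hFi i) (holC_inv hS (hFi i0) h0)
    · exact holC_mono (NF.holOn_cc hW' hH k) hSW'
  refine ⟨hΦh, fun z hz himm v hv => himm v ?_ ?_⟩
  · refine ext_cc fun k => ?_
    rw [← cc_fderiv hW' hH (hSW' hz)]
    have h3 := hv (Sum.inr k)
    subst hΦ
    rw [show cc (0 : Cn m) k = 0 from by apply Complex.ext <;> simp [cc]]
    exact h3
  · set α : ℂ := fderiv ℝ (fun z => cc (F z) i0) z v * (cc (F z) i0)⁻¹ with hα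
    have hd : ∀ i, DifferentiableAt ℝ (fun z => cc (F z) i) z := fun i =>
      NF.diffAt hS (hFi i).1 hz
    have key : ∀ i, cc (fderiv ℝ F z v) i = α * cc (F z) i := by
      intro i
      rw [← cc_fderiv hW hF (hSW hz)]
      have h2 : (fun z => cc (F z) i) =ᶠ[𝓝 z] fun z => Φ z (Sum.inl i) * cc (F z) i0 := by
        filter_upwards [hS.mem_nhds hz] with z' hz'
        subst hΦ
        simp only [Sum.elim_inl]
        rw [inv_mul_cancel_right₀ (h0 z' hz')]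
      have h3 : HasFDerivAt (fun z => Φ z (Sum.inl i) * cc (F z) i0) _ z :=
        (NF.diffAt hS (hΦh (Sum.inl i)).1 hz).hasFDerivAt.fun_mul (hd i0).hasFDerivAt
      rw [h2.fderiv_eq, h3.fderiv]
      simp only [_root_.add_apply, _root_.smul_apply, hv (Sum.inl i),
        smul_eq_mul, mul_zero, add_zero]
      subst hΦ
      simp only [Sum.elim_inl, hα]
      ring
    refine ⟨α.re, α.im, ext_cc fun k => ?_⟩
    rw [key]
    apply Complex.ext
    · simp [cc, J]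
      ring
    · simp [cc, J]

end LB

section

variable {M Z : Type} [MetricSpace M] [CompactSpace M] [MetricSpace Z] {n N : ℕ} {κ P : Type}
  {e : κ → OpenPartialHomeomorph M (Cn n)} {U : P → Set Z} {q : P → Z → Cn N} {f : M → Z}
  {ψ : κ → ℝ × Cn n → ℝ}

/-- The data of a chart with the Fubini-Study comparison. -/
structure IsPack (e : κ → OpenPartialHomeomorph M (Cn n)) (U : P → Set Z) (q : P → Z → Cn N)
    (f : M → Z) (ψ : κ → ℝ × Cn n → ℝ) {L : ℕ} (ι : M → ℙ ℂ (Fin (L + 1) → ℂ)) (C : ℝ) (c : κ)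
    (F : Cn n → Cn (L + 1)) (W : Set (Cn n)) (j : P) : Prop where
  pos : 0 < C
  lift : IsLift e ι c F W
  mem : ∀ x ∈ W, f ((e c).symm x) ∈ U j
  imm : ∀ x ∈ W, ∀ v, fderiv ℝ (fmap e q f c j) x v = 0 →
        (∃ a b : ℝ, fderiv ℝ F x v = a • F x + b • J (F x)) → v = 0
  le : ∀ x ∈ W, ∀ v, fderiv ℝ (fmap e q f c j) x v = 0 →
        lev (ψ c) v (0, x) ≤ C * levz (fun x => Real.log (nsq (F x))) v x

omit [CompactSpace M] in
/-- The curve in one pack. -/
theorem disc_of_pack (G : GeoData e U q f ψ) {L : ℕ} {ι : M → ℙ ℂ (Fin (L + 1) → ℂ)} {C : ℝ}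
    {c : κ} {F₁ : Cn n → Cn (L + 1)} {W : Set (Cn n)} {j : P}
    (hP : IsPack e U q f ψ ι C c F₁ W j) {z : Z} {h : ℂ → M} {F : ℂ → Fin (L + 1) → ℂ} {s : ℂ}
    {r : ℝ} (hr : 0 < r) (hF : DifferentiableOn ℂ F (Metric.ball s r))
    (hh : ∀ s' ∈ Metric.ball s r, f (h s') = z ∧
      ∃ h0 : F s' ≠ 0, ι (h s') = Projectivization.mk ℂ (F s') h0)
    (hc : ContinuousAt h s) (hs1 : h s ∈ (e c).source) (hs2 : e c (h s) ∈ W) :
    ∃ (r' : ℝ) (g : ℂ → Cn n), 0 < r' ∧ r' ≤ r ∧ HolD g (Metric.ball s r') ∧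
      (∀ s' ∈ Metric.ball s r', g s' ∈ (e c).target ∧ h s' = (e c).symm (g s')) ∧
      ∀ s' ∈ Metric.ball s r', 4 * lev (ψ c) (fderiv ℝ g s' 1) (0, g s') ≤
        C * lapC (fun s' => Real.log (nn (F s'))) s' := by
  obtain ⟨hWo, hWt, hF₁, hlift⟩ := hP.lift
  have hs : s ∈ Metric.ball s r := Metric.mem_ball_self hr
  have hball : Metric.ball s r ∈ 𝓝 s := Metric.isOpen_ball.mem_nhds hs
  set g : ℂ → Cn n := fun s' => e c (h s') with hg
  have hgc : ContinuousAt g s := ContinuousAt.comp ((e c).continuousAt hs1) hc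
  -- proportionality
  have hprop : ∀ s' ∈ Metric.ball s r, h s' ∈ (e c).source → g s' ∈ W →
      ∃ a : ℂ, ∀ i, cc (F₁ (g s')) i = a * F s' i := by
    intro s' hs' h1 h2
    obtain ⟨h3, h4⟩ := hlift (g s') h2
    obtain ⟨h5, h6⟩ := (hh s' hs').2
    rw [(e c).left_inv h1, h6, Projectivization.mk_eq_mk_iff'] at h4
    obtain ⟨a, ha⟩ := h4
    have ha0 : a ≠ 0 := by
      rintro rfl
      rw [zero_smul] at ha
      exact h5 ha.symm
    refine ⟨a⁻¹, fun i => ?_⟩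
    rw [← ha, Pi.smul_apply, smul_eq_mul, inv_mul_cancel_left₀ ha0]
  obtain ⟨i0, hi0⟩ : ∃ i, cc (F₁ (g s)) i ≠ 0 := by
    by_contra hc'
    push Not at hc'
    exact (hlift (g s) hs2).1 (funext hc')
  -- the open sets
  set S : Set (Cn n) := {z | z ∈ W ∧ cc (F₁ z) i0 ≠ 0} with hS
  have hSo : IsOpen S :=
    (NF.holOn_cc hWo hF₁ i0).1.continuousOn.isOpen_inter_preimage hWo isOpen_compl_singleton
  have hgsS : g s ∈ S := ⟨hs2, hi0⟩
  have hUo : IsOpen (fdom e U f c j) :=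
    (e c).isOpen_inter_preimage_symm ((G.isOpen j).preimage G.cont)
  have hSU : S ⊆ fdom e U f c j := fun z hz => ⟨hWt hz.1, hP.mem z hz.1⟩
  obtain ⟨hΦh, himm⟩ := LB.imm (H := fmap e q f c j) hSo hWo (fun z hz => hz.1) hF₁ hUo hSU
    (G.holo c j) (i0 := i0) (fun z hz => hz.2) rfl
  set Φ : Cn n → Fin (L + 1) ⊕ Fin N → ℂ := fun z =>
    Sum.elim (fun i => cc (F₁ z) i * (cc (F₁ z) i0)⁻¹) (fun k => cc (fmap e q f c j z) k) with hΦ
  -- a ball on which everything is defined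
  have hev : ∀ᶠ s' in 𝓝 s, s' ∈ Metric.ball s r ∧ h s' ∈ (e c).source ∧ g s' ∈ S ∧
      F s' i0 ≠ 0 := by
    have h1 : ∀ᶠ s' in 𝓝 s, h s' ∈ (e c).source :=
      hc.eventually ((e c).open_source.mem_nhds hs1)
    have h2 : ∀ᶠ s' in 𝓝 s, g s' ∈ S := hgc.eventually (hSo.mem_nhds hgsS)
    have h3 : ∀ᶠ s' in 𝓝 s, F s' i0 ≠ 0 := by
      have h4 : ContinuousAt (fun s' => F s' i0) s :=
        (differentiableOn_pi.1 hF i0).continuousOn.continuousAt hball
      refine h4.eventually_ne ?_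
      intro h5
      obtain ⟨a, ha⟩ := hprop s hs hs1 hs2
      apply hi0
      rw [ha, h5, mul_zero]
    filter_upwards [hball, h1, h2, h3] with s' a b c d using ⟨a, b, c, d⟩
  obtain ⟨r1, hr1, hb1⟩ := Metric.eventually_nhds_iff_ball.1 hev
  set r2 := min r1 r with hr2
  have hr2p : 0 < r2 := lt_min hr1 hr
  have hb2 : ∀ s' ∈ Metric.ball s r2, s' ∈ Metric.ball s r ∧ h s' ∈ (e c).source ∧ g s' ∈ S ∧
      F s' i0 ≠ 0 := fun s' hs' => hb1 s' (Metric.ball_subset_ball (min_le_left _ _) hs')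
  have hsym : ∀ s' ∈ Metric.ball s r2, (e c).symm (g s') = h s' := fun s' hs' =>
    (e c).left_inv (hb2 s' hs').2.1
  set b : ℂ → ℂ := fun s' => cc (F₁ (g s')) i0 / F s' i0 with hb
  have hb0 : ∀ s' ∈ Metric.ball s r2, b s' ≠ 0 := fun s' hs' =>
    div_ne_zero (hb2 s' hs').2.2.1.2 (hb2 s' hs').2.2.2
  have hprop' : ∀ s' ∈ Metric.ball s r2, ∀ i, cc (F₁ (g s')) i = b s' * F s' i := by
    intro s' hs' i
    obtain ⟨a, ha⟩ := hprop s' (hb2 s' hs').1 (hb2 s' hs').2.1 (hb2 s' hs').2.2.1.1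
    have h1 : b s' = a := by
      simp only [hb]
      rw [ha i0, mul_div_cancel_right₀ _ (hb2 s' hs').2.2.2]
    rw [h1, ha i]
  have hFd : ∀ i, DifferentiableOn ℂ (fun s' => F s' i) (Metric.ball s r2) := fun i =>
    (differentiableOn_pi.1 hF i).mono (Metric.ball_subset_ball (min_le_right _ _))
  have hfg : ∀ s' ∈ Metric.ball s r2, fmap e q f c j (g s') = q j z := by
    intro s' hs'
    simp only [fmap]
    rw [hsym s' hs', (hh s' (hb2 s' hs').1).1]
  have hΦg : ∀ i, DifferentiableOn ℂ (fun s' => Φ (g s') i) (Metric.ball s r2) := by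
    rintro (i | k)
    · refine ((hFd i).div (hFd i0) fun s' hs' => (hb2 s' hs').2.2.2).congr ?_
      intro s' hs'
      have h0 : F s' i0 ≠ 0 := (hb2 s' hs').2.2.2
      have h1 : b s' ≠ 0 := hb0 s' hs'
      simp only [hΦ, Sum.elim_inl, Pi.div_apply]
      rw [hprop' s' hs' i, hprop' s' hs' i0]
      field_simp
    · refine (differentiableOn_const (cc (q j z) k)).congr ?_
      intro s' hs'
      simp only [hΦ, Sum.elim_inr]
      rw [hfg s' hs']
  obtain ⟨r', hr', hr'2, hgD⟩ := LA.holD_of hSo hgsS hΦh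
    (himm (g s) hgsS (hP.imm (g s) hs2)) hgc rfl hr2p hΦg
  have hsub : Metric.ball s r' ⊆ Metric.ball s r2 := Metric.ball_subset_ball hr'2
  have hbd : DifferentiableOn ℂ b (Metric.ball s r') := by
    refine (LB.holC_holD hSo (LB.holC_mono (NF.holOn_cc hWo hF₁ i0) fun z hz => hz.1)
      Metric.isOpen_ball hgD fun s' hs' => (hb2 s' (hsub hs')).2.2.1).div ((hFd i0).mono hsub)
      fun s' hs' => (hb2 s' (hsub hs')).2.2.2
  have hlev := levz_lift hWo hF₁ hgD (fun s' hs' => (hb2 s' (hsub hs')).2.2.1.1)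
    (hF.mono (hsub.trans (Metric.ball_subset_ball (min_le_right _ _))))
    (fun s' hs' => (hh s' (hb2 s' (hsub hs')).1).2.1) hbd (fun s' hs' => hb0 s' (hsub hs'))
    (fun s' hs' i => hprop' s' (hsub hs') i)
  refine ⟨r', g, hr', hr'2.trans (min_le_right _ _), hgD, fun s' hs' =>
    ⟨hWt (hb2 s' (hsub hs')).2.2.1.1, (hsym s' (hsub hs')).symm⟩, fun s' hs' => ?_⟩
  -- the curve is vertical
  have hv : fderiv ℝ (fmap e q f c j) (g s') (fderiv ℝ g s' 1) = 0 := by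
    have hgS : g s' ∈ fdom e U f c j := hSU (hb2 s' (hsub hs')).2.2.1
    have h1 : HasFDerivAt (fmap e q f c j) (fderiv ℝ (fmap e q f c j) (g s')) (g s') :=
      (NF.diffAt hUo (G.holo c j).1 hgS).hasFDerivAt
    have h2 : HasFDerivAt g (fderiv ℝ g s') s' :=
      (NF.diffAt Metric.isOpen_ball hgD.smooth hs').hasFDerivAt
    have h3 : HasFDerivAt (fun t => fmap e q f c j (g t)) _ s' := h1.comp s' h2
    have h4 : (fun t => fmap e q f c j (g t)) =ᶠ[𝓝 s'] fun _ => q j z := by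
      filter_upwards [Metric.isOpen_ball.mem_nhds hs'] with t ht
      exact hfg t (hsub ht)
    have h5 : HasFDerivAt (fun t => fmap e q f c j (g t)) (0 : ℂ →L[ℝ] Cn N) s' :=
      (hasFDerivAt_const (q j z) s').congr_of_eventuallyEq h4
    have h6 := congrArg (fun A : ℂ →L[ℝ] Cn N => A 1) (h3.unique h5)
    simpa using h6
  have h7 := hP.le (g s') (hb2 s' (hsub hs')).2.2.1.1 _ hv
  rw [← hlev s' hs']
  linarith

/-- a holomorphic curve in the projective space, with values in the image of the fibre over `z`,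
comes from a holomorphic curve in the fibre -/
theorem exists_disc (G : GeoData e U q f ψ) {S : Set Z} {L d : ℕ} {ι : M → ℙ ℂ (Fin (L + 1) → ℂ)}
    (hι : IsProjOver e U q f S ι d) (hS : IsOpen S) {z₀ : Z} (hz₀ : z₀ ∈ S) :
    ∃ (S' : Set Z) (C : ℝ), IsOpen S' ∧ z₀ ∈ S' ∧ S' ⊆ S ∧ 0 < C ∧
      ∀ z ∈ S', ∀ (h : ℂ → M) (F : ℂ → Fin (L + 1) → ℂ) (s : ℂ) (r : ℝ), 0 < r →
        DifferentiableOn ℂ F (Metric.ball s r) →
        (∀ s' ∈ Metric.ball s r, f (h s') = z ∧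
          ∃ h0 : F s' ≠ 0, ι (h s') = Projectivization.mk ℂ (F s') h0) →
        ∃ (r' : ℝ) (c : κ) (g : ℂ → Cn n), 0 < r' ∧ r' ≤ r ∧ HolD g (Metric.ball s r') ∧
          (∀ s' ∈ Metric.ball s r', g s' ∈ (e c).target ∧ h s' = (e c).symm (g s')) ∧
          ∀ s' ∈ Metric.ball s r', 4 * lev (ψ c) (fderiv ℝ g s' 1) (0, g s') ≤
            C * lapC (fun s' => Real.log (nn (F s'))) s' := by
  classical
  obtain ⟨S₁, C₁, hS₁o, hz₁, hS₁, hC₁, hdist⟩ := dist_le G hι hS hz₀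
  -- the packs along the fibre
  have hpack : ∀ p : {p : M // f p = z₀}, ∃ (C : ℝ) (c : κ) (F : Cn n → Cn (L + 1))
      (W : Set (Cn n)) (j : P), p.1 ∈ (e c).source ∧ e c p.1 ∈ W ∧ IsPack e U q f ψ ι C c F W j := by
    rintro ⟨p, hp⟩
    obtain ⟨C, c, F, W, j, h1, h2, h3, h4, h5, h6, h7⟩ := exists_pack G hι hS (p₀ := p)
      (by rw [hp]; exact hz₀)
    exact ⟨C, c, F, W, j, h2, h3, ⟨h1, h4, fun x hx => (h5 x hx).2, h6, h7⟩⟩
  choose Cp cp Fp Wp jp hp1 hp2 hp3 using hpack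
  set O : {p : M // f p = z₀} → Set M := fun p => (e (cp p)).source ∩ (e (cp p)) ⁻¹' (Wp p)
    with hO
  have hOo : ∀ p, IsOpen (O p) := fun p => (e (cp p)).isOpen_inter_preimage (hp3 p).lift.1
  have hcl : IsClosed (f ⁻¹' {z₀}) := isClosed_singleton.preimage G.cont
  obtain ⟨t, ht⟩ := hcl.isCompact.elim_finite_subcover O hOo
    (fun p hp => mem_iUnion.2 ⟨⟨p, hp⟩, hp1 ⟨p, hp⟩, hp2 ⟨p, hp⟩⟩)
  set A : Set M := ⋃ p ∈ t, O p with hA
  have hAo : IsOpen A := isOpen_biUnion fun p _ => hOo p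
  have hK : IsClosed (f '' Aᶜ) := (hAo.isClosed_compl.isCompact.image G.cont).isClosed
  have hzK : z₀ ∉ f '' Aᶜ := by
    rintro ⟨p, hp, hp'⟩
    exact hp (ht hp')
  set C : ℝ := 1 + ∑ p ∈ t, Cp p with hC
  have hCp : ∀ p, 0 < Cp p := fun p => (hp3 p).pos
  have hle : ∀ p ∈ t, Cp p ≤ C := by
    intro p hp
    have h1 := Finset.single_le_sum (f := Cp) (s := t) (fun p _ => (hCp p).le) hp
    rw [hC]
    linarith
  have hC0 : 0 < C := by
    have : 0 ≤ ∑ p ∈ t, Cp p := Finset.sum_nonneg fun p _ => (hCp p).le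
    rw [hC]
    linarith
  refine ⟨S₁ ∩ (f '' Aᶜ)ᶜ, C, hS₁o.inter hK.isOpen_compl, ⟨hz₁, hzK⟩,
    inter_subset_left.trans hS₁, hC0, ?_⟩
  rintro z ⟨hz1, hz2⟩ h F s r hr hF hh
  have hs : s ∈ Metric.ball s r := Metric.mem_ball_self hr
  have hball : Metric.ball s r ∈ 𝓝 s := Metric.isOpen_ball.mem_nhds hs
  have hF0 : ∀ s' ∈ Metric.ball s r, F s' ≠ 0 := fun s' hs' => (hh s' hs').2.1
  -- continuity
  have hc : ContinuousAt h s := by
    rw [ContinuousAt, tendsto_iff_dist_tendsto_zero]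
    set x : ℂ → Fin (L + 1) → ℂ := fun s' => ((‖F s'‖ : ℂ))⁻¹ • F s' with hx
    have hx0 : ∀ s' ∈ Metric.ball s r, ((‖F s'‖ : ℂ))⁻¹ ≠ 0 := fun s' hs' =>
      inv_ne_zero (Complex.ofReal_ne_zero.2 (norm_ne_zero_iff.2 (hF0 s' hs')))
    have hx1 : ∀ s' ∈ Metric.ball s r, x s' ≠ 0 := fun s' hs' =>
      smul_ne_zero (hx0 s' hs') (hF0 s' hs')
    have hxn : ∀ s' ∈ Metric.ball s r, ‖x s'‖ = 1 := by
      intro s' hs'
      have h1 : ‖F s'‖ ≠ 0 := norm_ne_zero_iff.2 (hF0 s' hs')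
      simp only [hx, norm_smul, norm_inv, Complex.norm_real, norm_norm]
      exact inv_mul_cancel₀ h1
    have hxι : ∀ s' (hs' : s' ∈ Metric.ball s r),
        ι (h s') = Projectivization.mk ℂ (x s') (hx1 s' hs') := by
      intro s' hs'
      obtain ⟨h0, h1⟩ := (hh s' hs').2
      rw [h1, Projectivization.mk_eq_mk_iff']
      refine ⟨(‖F s'‖ : ℂ), ?_⟩
      simp only [hx, smul_smul]
      rw [mul_inv_cancel₀ (Complex.ofReal_ne_zero.2 (norm_ne_zero_iff.2 h0)), one_smul]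
    have hFc : ContinuousAt F s := hF.continuousOn.continuousAt hball
    have hxc : ContinuousAt x s := by
      refine ContinuousAt.smul (f := fun s' => ((‖F s'‖ : ℂ))⁻¹) (ContinuousAt.inv₀ ?_ ?_) hFc
      · exact Complex.continuous_ofReal.continuousAt.comp hFc.norm
      · exact Complex.ofReal_ne_zero.2 (norm_ne_zero_iff.2 (hF0 s hs))
    have h1 : Tendsto (fun s' => C₁ * ‖x s' - x s‖) (𝓝 s) (𝓝 0) := by
      have h2 : ContinuousAt (fun s' => C₁ * ‖x s' - x s‖) s :=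
        continuousAt_const.mul (hxc.sub continuousAt_const).norm
      have h3 := h2.tendsto
      simpa using h3
    refine squeeze_zero' (Eventually.of_forall fun _ => dist_nonneg) ?_ h1
    filter_upwards [hball] with s' hs'
    refine hdist (h s') (h s) ?_ ?_ (x s') (x s) (hx1 s' hs') (hx1 s hs) (hxι s' hs') (hxι s hs)
      (hxn s' hs') (hxn s hs)
    · rw [(hh s' hs').1]
      exact hz1
    · rw [(hh s' hs').1, (hh s hs).1]
  -- the pack at `h s`
  have hsA : h s ∈ A := by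
    by_contra hcon
    exact hz2 ⟨h s, hcon, (hh s hs).1⟩
  obtain ⟨p, hp, hpO⟩ := mem_iUnion₂.1 hsA
  obtain ⟨r', g, h1, h2, h3, h4, h5⟩ := disc_of_pack G (hp3 p) hr hF hh hc hpO.1 hpO.2
  refine ⟨r', cp p, g, h1, h2, h3, h4, fun s' hs' => (h5 s' hs').trans ?_⟩
  exact mul_le_mul_of_nonneg_right (hle p hp) (RhoLap.lapC_log_nn_nonneg hF
    (Metric.ball_subset_ball h2 hs') (hF0 s' (Metric.ball_subset_ball h2 hs')))

end

end Pool.Agent.KRFW

end

section

/-!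
# Local equations of the image of an immersion
-/

open scoped ContDiff ENNReal ComplexOrder LinearAlgebra.Projectivization Topology
open Set Filter Pool.Agent.ToricKRF Pool.Agent.ToricKRF.G Pool.Agent.KRFS Pool.Agent.KRFF
  Pool.Agent.KRFZ Pool.Agent.KRFW Pool.Agent.KRFLj

namespace Pool.Agent.KRFCh

namespace EA

section Imm

variable {n : ℕ} {I : Type} [Fintype I]

/-- The image of a holomorphic immersion `Φ` is near `Φ z₀` given by `w = Φ (ρ w)`. -/
theorem exists_retr {S : Set (Cn n)} (hS : IsOpen S) {z₀ : Cn n} (hz₀ : z₀ ∈ S)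
    {Φ : Cn n → I → ℂ} (hΦ : ∀ i, NF.HolC (fun z => Φ z i) S)
    (himm : ∀ v, (∀ i, fderiv ℝ (fun z => Φ z i) z₀ v = 0) → v = 0) :
    ∃ (S' : Set (Cn n)) (O : Set (I → ℂ)) (ρ : (I → ℂ) → Cn n), IsOpen S' ∧ z₀ ∈ S' ∧ S' ⊆ S ∧
      IsOpen O ∧ Φ z₀ ∈ O ∧ (∀ w ∈ O, ρ w ∈ S') ∧ (∀ z ∈ S', ρ (Φ z) = z) ∧
      DifferentiableOn ℂ (fun w => w - Φ (ρ w)) O := by
  obtain ⟨O, Γ, hO, hΦO, hΓ, hl⟩ := LA.exists_left_inv hS hz₀ hΦ himm
  obtain ⟨S₁, hS₁, hS₁o, hz₁⟩ := _root_.eventually_nhds_iff.1 hl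
  set ρ : (I → ℂ) → Cn n := fun w => iot n (Γ w) with hρ
  have hρc : ContinuousOn ρ O := (iot n).continuous.comp_continuousOn hΓ.continuousOn
  set S' : Set (Cn n) := S ∩ S₁ with hS'
  have hS'o : IsOpen S' := hS.inter hS₁o
  have hz₀' : z₀ ∈ S' := ⟨hz₀, hz₁⟩
  have hρz : ρ (Φ z₀) = z₀ := hS₁ z₀ hz₁
  refine ⟨S', O ∩ ρ ⁻¹' S', ρ, hS'o, hz₀', inter_subset_left,
    hρc.isOpen_inter_preimage hO hS'o, ⟨hΦO, ?_⟩, fun w hw => hw.2,
    fun z hz => hS₁ z hz.2, ?_⟩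
  · rw [mem_preimage, hρz]
    exact hz₀'
  · refine differentiableOn_id.sub ?_
    rw [differentiableOn_pi]
    intro i w hw
    have h1 : DifferentiableAt ℂ (fun w => Φ (0 + iot n (ContinuousLinearMap.id ℂ (Fin n → ℂ) w)) i)
        (Γ w) := differentiableAt_of_holC hS (hΦ i) 0 (ContinuousLinearMap.id ℂ (Fin n → ℂ))
      (w := Γ w) (by rw [zero_add]; exact hw.2.1)
    have h2 : DifferentiableAt ℂ Γ w := (hΓ w hw.1).differentiableAt (hO.mem_nhds hw.1)
    have h3 := h1.comp w h2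
    refine DifferentiableAt.differentiableWithinAt ?_
    convert h3 using 1
    funext w'
    simp only [hρ, Function.comp_apply, ContinuousLinearMap.id_apply, zero_add]

end Imm

section Rat

variable {L N : ℕ}

/-- the coordinates `(x / x_a, y)` -/
noncomputable def rat (a : Fin (L + 1)) (P : (Fin (L + 1) → ℂ) × (Fin N → ℂ)) :
    Fin (L + 1) ⊕ Fin N → ℂ :=
  Sum.elim (fun i => P.1 i * (P.1 a)⁻¹) P.2

/-- the inverse of `rat` -/
noncomputable def unr (t : ℂ) (w : Fin (L + 1) ⊕ Fin N → ℂ) :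
    (Fin (L + 1) → ℂ) × (Fin N → ℂ) :=
  (fun i => t * w (Sum.inl i), fun k => w (Sum.inr k))

theorem rat_smul (a : Fin (L + 1)) (x : Fin (L + 1) → ℂ) (y : Fin N → ℂ) {c : ℂ} (hc : c ≠ 0) :
    rat a (c • x, y) = rat a (x, y) := by
  funext i
  rcases i with i | k
  · simp only [rat, Sum.elim_inl, Pi.smul_apply, smul_eq_mul, mul_inv]
    field_simp
  · rfl

theorem unr_rat (a : Fin (L + 1)) {P : (Fin (L + 1) → ℂ) × (Fin N → ℂ)} (h : P.1 a ≠ 0) :
    unr (P.1 a) (rat a P) = P := by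
  refine Prod.ext ?_ rfl
  funext i
  simp only [unr, rat, Sum.elim_inl]
  field_simp

theorem differentiableOn_rat (a : Fin (L + 1)) {A : Set ((Fin (L + 1) → ℂ) × (Fin N → ℂ))}
    (hA : ∀ P ∈ A, P.1 a ≠ 0) : DifferentiableOn ℂ (rat a) A := by
  rw [differentiableOn_pi]
  rintro (i | k)
  · simp only [rat, Sum.elim_inl]
    refine DifferentiableOn.mul (by fun_prop) (DifferentiableOn.inv (by fun_prop) hA)
  · simp only [rat, Sum.elim_inr]
    fun_prop

theorem continuousAt_rat (a : Fin (L + 1)) {P : (Fin (L + 1) → ℂ) × (Fin N → ℂ)} (h : P.1 a ≠ 0) :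
    ContinuousAt (rat a) P := by
  refine continuousAt_pi.2 ?_
  rintro (i | k)
  · simp only [rat, Sum.elim_inl]
    refine ContinuousAt.mul (by fun_prop) (ContinuousAt.inv₀ (by fun_prop) h)
  · simp only [rat, Sum.elim_inr]
    fun_prop

theorem dist_unr (t : ℂ) (w w' : Fin (L + 1) ⊕ Fin N → ℂ) :
    dist (unr t w) (unr t w') ≤ (‖t‖ + 1) * ‖w - w'‖ := by
  rw [Prod.dist_eq]
  refine max_le ?_ ?_
  · rw [dist_pi_le_iff (by positivity)]
    intro i
    have h1 : dist (t * w (Sum.inl i)) (t * w' (Sum.inl i)) = ‖t‖ * ‖w (Sum.inl i) - w' (Sum.inl i)‖ := by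
      rw [dist_eq_norm, ← mul_sub, norm_mul]
    have h2 : ‖w (Sum.inl i) - w' (Sum.inl i)‖ ≤ ‖w - w'‖ := norm_le_pi_norm (w - w') (Sum.inl i)
    change dist (t * w (Sum.inl i)) (t * w' (Sum.inl i)) ≤ _
    rw [h1]
    nlinarith [norm_nonneg t, norm_nonneg (w - w'), mul_le_mul_of_nonneg_left h2 (norm_nonneg t)]
  · rw [dist_pi_le_iff (by positivity)]
    intro k
    have h2 : ‖w (Sum.inr k) - w' (Sum.inr k)‖ ≤ ‖w - w'‖ := norm_le_pi_norm (w - w') (Sum.inr k)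
    change dist (w (Sum.inr k)) (w' (Sum.inr k)) ≤ _
    rw [dist_eq_norm]
    nlinarith [norm_nonneg t, norm_nonneg (w - w'), mul_nonneg (norm_nonneg t) (norm_nonneg (w - w'))]

end Rat

end EA

end Pool.Agent.KRFCh

end

section

/-!
# Local equations of the cones over the fibres: from the sphere to the cone
-/

open scoped ContDiff ENNReal ComplexOrder LinearAlgebra.Projectivization Topology
open Set Filter Pool.Agent.ToricKRF Pool.Agent.ToricKRF.G Pool.Agent.KRFS Pool.Agent.KRFF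
  Pool.Agent.KRFZ Pool.Agent.KRFW Pool.Agent.KRFLj

namespace Pool.Agent.KRFCh

namespace EB

section Lin

variable {l r : ℕ}

theorem nsq_eq (x : Cn l) : nsq x = ∑ k, ‖cc x k‖ ^ 2 := by
  unfold nsq dotProduct
  rw [← Finset.sum_add_distrib]
  refine Finset.sum_congr rfl fun j _ => ?_
  rw [← Complex.normSq_eq_norm_sq, Complex.normSq_apply]
  rfl

theorem nsq_nonneg (x : Cn l) : 0 ≤ nsq x := by
  rw [nsq_eq]
  exact Finset.sum_nonneg fun _ _ => by positivity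

theorem nsq_le_cc (x : Cn l) {s : ℝ} (hs : ‖cc x‖ ≤ s) : nsq x ≤ l * s ^ 2 := by
  rw [nsq_eq]
  calc ∑ k, ‖cc x k‖ ^ 2 ≤ ∑ _k : Fin l, s ^ 2 := by
        refine Finset.sum_le_sum fun k _ => ?_
        have h1 := (norm_le_pi_norm (cc x) k).trans hs
        gcongr
    _ = l * s ^ 2 := by simp

theorem cc_le_nsq (x : Cn l) : ‖cc x‖ ^ 2 ≤ nsq x := by
  have h1 : ‖cc x‖ ≤ Real.sqrt (nsq x) := by
    refine (pi_norm_le_iff_of_nonneg (Real.sqrt_nonneg _)).2 fun k => ?_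
    refine Real.le_sqrt_of_sq_le ?_
    rw [nsq_eq]
    exact Finset.single_le_sum (f := fun k => ‖cc x k‖ ^ 2) (fun _ _ => by positivity)
      (Finset.mem_univ k)
  calc ‖cc x‖ ^ 2 ≤ Real.sqrt (nsq x) ^ 2 := by gcongr
    _ = nsq x := Real.sq_sqrt (nsq_nonneg x)

theorem norm_le_cc (x : Cn l) : ‖x‖ ≤ ‖cc x‖ := by
  have h1 := norm_iot_le (cc x)
  have h2 : iot l (cc x) = x := iot_ccv x
  rwa [h2] at h1

theorem norm_le (x : Cn l) : ‖x‖ ^ 2 ≤ nsq x := by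
  have h1 := norm_le_cc x
  have h2 := cc_le_nsq x
  calc ‖x‖ ^ 2 ≤ ‖cc x‖ ^ 2 := by gcongr
    _ ≤ nsq x := h2

theorem nsq_le_norm (x : Cn l) : nsq x ≤ 4 * l * ‖x‖ ^ 2 := by
  have h1 := nsq_le_cc x (norm_ccv_le x)
  calc nsq x ≤ l * (2 * ‖x‖) ^ 2 := h1
    _ = 4 * l * ‖x‖ ^ 2 := by ring

theorem nsq_pos {x : Cn l} (hx : x ≠ 0) : 0 < nsq x :=
  lt_of_lt_of_le (by positivity) (norm_le x)

theorem continuous_nsq : Continuous (nsq : Cn l → ℝ) := by
  unfold nsq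
  fun_prop

/-- the multiplication by a complex number -/
noncomputable def csm (c : ℂ) (x : Cn l) : Cn l := c.re • x + c.im • J x

theorem cc_csm (c : ℂ) (x : Cn l) : cc (csm c x) = c • cc x := (MT.smul_cc c x).symm

theorem csm_csm (c d : ℂ) (x : Cn l) : csm c (csm d x) = csm (c * d) x := by
  apply MT.cc_injective
  rw [cc_csm, cc_csm, cc_csm, smul_smul]

theorem csm_one (x : Cn l) : csm 1 x = x := by
  apply MT.cc_injective
  rw [cc_csm, one_smul]

theorem cc_sub (x y : Cn l) : cc (x - y) = cc x - cc y := ccv_sub x y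

theorem csm_sub (c : ℂ) (x y : Cn l) : csm c (x - y) = csm c x - csm c y := by
  apply MT.cc_injective
  rw [cc_csm, cc_sub, cc_sub, cc_csm, cc_csm, smul_sub]

theorem csm_inv {c : ℂ} (hc : c ≠ 0) (x : Cn l) : csm c (csm c⁻¹ x) = x := by
  rw [csm_csm, mul_inv_cancel₀ hc, csm_one]

theorem nsq_csm (c : ℂ) (x : Cn l) : nsq (csm c x) = ‖c‖ ^ 2 * nsq x := by
  rw [nsq_eq, nsq_eq, cc_csm, Finset.mul_sum]
  refine Finset.sum_congr rfl fun k _ => ?_
  rw [Pi.smul_apply, smul_eq_mul, norm_mul, mul_pow]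

theorem continuous_csm (c : ℂ) : Continuous (csm c : Cn l → Cn l) := by
  unfold csm J
  fun_prop

theorem csm_ne_zero {c : ℂ} (hc : c ≠ 0) {x : Cn l} (hx : x ≠ 0) : csm c x ≠ 0 := by
  intro h
  have h1 := nsq_csm c x
  rw [h] at h1
  have h2 : nsq (0 : Cn l) = 0 := by simp [nsq]
  rw [h2] at h1
  have h3 := nsq_pos hx
  have h4 : 0 < ‖c‖ ^ 2 * nsq x := by positivity
  linarith

/-- the ratio in the definition of `IsEq` is invariant -/
theorem ratio_csm {c : ℂ} (hc : c ≠ 0) (x x' : Cn l) :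
    nsq (csm c x - csm c x') / nsq (csm c x) = nsq (x - x') / nsq x := by
  rw [← csm_sub, nsq_csm, nsq_csm]
  have h1 : ‖c‖ ^ 2 ≠ 0 := by positivity
  rw [mul_div_mul_left _ _ h1]

/-- A map which is holomorphic in the complex coordinates. -/
theorem holOn_of {O : Set (Cn l)} (hO : IsOpen O) {H : (Fin l → ℂ) → (Fin r → ℂ)}
    (hH : ∀ x ∈ O, ∀ᶠ v in 𝓝 (cc x), DifferentiableAt ℂ H v) :
    HolOn (fun x => iot r (H (cc x))) O := by
  have hccd : ContDiff ℝ ∞ (fun x : Cn l => cc x) := by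
    have h1 : (fun x : Cn l => cc x) = fun x => MT.ccP l x := by
      funext x
      rw [MT.ccP_apply]
    rw [h1]
    exact (MT.ccP l).contDiff
  have hHc : ∀ x ∈ O, ContDiffAt ℂ ∞ H (cc x) := by
    intro x hx
    obtain ⟨A, hA, hAo, hxA⟩ := _root_.eventually_nhds_iff.1 (hH x hx)
    exact SCV.contDiffAt_of_differentiableOn hAo
      (fun v hv => (hA v hv).differentiableWithinAt) hxA (n := ⊤)
  refine ⟨fun x hx => ?_, fun x hx u => ?_⟩
  · have h1 : ContDiffAt ℝ ∞ H (cc x) := (hHc x hx).restrict_scalars ℝ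
    exact ((iot r).contDiff.contDiffAt.comp x (h1.comp x hccd.contDiffAt)).contDiffWithinAt
  · have h1 : HasFDerivAt H (fderiv ℂ H (cc x)) (cc x) :=
      ((hHc x hx).differentiableAt (by simp)).hasFDerivAt
    have h2 : HasFDerivAt (fun x : Cn l => cc x) (MT.ccP l) x := by
      have h3 : (fun x : Cn l => cc x) = fun x => MT.ccP l x := by
        funext x
        rw [MT.ccP_apply]
      rw [h3]
      exact (MT.ccP l).hasFDerivAt
    have h4 : HasFDerivAt (fun x => iot r (H (cc x)))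
        ((iot r).comp (((fderiv ℂ H (cc x)).restrictScalars ℝ).comp (MT.ccP l))) x :=
      (iot r).hasFDerivAt.comp x ((h1.restrictScalars ℝ).comp x h2)
    rw [h4.fderiv]
    simp only [ContinuousLinearMap.comp_apply, ContinuousLinearMap.coe_restrictScalars',
      MT.ccP_apply]
    have h5 : cc (J u) = Complex.I • cc u := by
      funext k
      rw [cc_J]
      rfl
    rw [h5, map_smul, iot_I]

end Lin

section Cone

variable {M Z : Type} [MetricSpace M] [MetricSpace Z] {L r : ℕ} {f : M → Z}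
  {ι : M → ℙ ℂ (Fin (L + 1) → ℂ)} {S : Set Z}

theorem mk_csm {c : ℂ} (hc : c ≠ 0) {x : Cn (L + 1)} {p : M} {h : cc x ≠ 0}
    (hp : ι p = Projectivization.mk ℂ (cc x) h) :
    ∃ h' : cc (csm c x) ≠ 0, ι p = Projectivization.mk ℂ (cc (csm c x)) h' := by
  have h' : cc (csm c x) ≠ 0 := by
    rw [cc_csm]
    exact smul_ne_zero hc h
  refine ⟨h', hp.trans ?_⟩
  symm
  exact (Projectivization.mk_eq_mk_iff' ℂ _ _ _ _).2 ⟨c, (cc_csm c x).symm⟩

/-- From local estimates to `IsEq`. -/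
theorem exists_isEq {x₁ : Cn (L + 1)} (hx₁ : x₁ ≠ 0) {z₀ : Z} (hS : IsOpen S) (hz₀ : z₀ ∈ S)
    {E : Z → Cn (L + 1) → Cn r} (D : Z → Set (Cn (L + 1)))
    (hinv : ∀ w x, ∀ c : ℂ, c ≠ 0 → E w (csm c x) = E w x)
    (hD : ∀ w x, ∀ c : ℂ, c ≠ 0 → csm c x ∈ D w → x ∈ D w)
    (hhol : ∀ w, IsOpen (D w) ∧ HolOn (E w) (D w))
    (hDe : ∀ᶠ R : Cn (L + 1) × Z in 𝓝 (x₁, z₀), R.1 ∈ D R.2)
    {K₁ : ℝ} (hup : ∀ᶠ R : (Cn (L + 1) × Z) × (Cn (L + 1) × Z) in 𝓝 ((x₁, z₀), (x₁, z₀)),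
      ∀ (p : M) (h : cc R.2.1 ≠ 0), f p = R.2.2 → ι p = Projectivization.mk ℂ (cc R.2.1) h →
        nsq (E R.1.2 R.1.1) ≤ K₁ * (nsq (R.1.1 - R.2.1) + dist R.2.2 R.1.2 ^ 2))
    {K₂ : ℝ} (hbd : ∀ᶠ R : Cn (L + 1) × Z in 𝓝 (x₁, z₀), nsq (E R.2 R.1) ≤ K₂)
    {K₃ : ℝ} (hlow : ∀ᶠ R : Cn (L + 1) × Z in 𝓝 (x₁, z₀), ∃ (p : M) (x' : Cn (L + 1))
      (h : cc x' ≠ 0), ι p = Projectivization.mk ℂ (cc x') h ∧
        nsq (R.1 - x') + dist (f p) R.2 ^ 2 ≤ K₃ * nsq (E R.2 R.1)) :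
    ∃ (O : Set (Cn (L + 1))) (S' : Set Z) (C : ℝ), x₁ ∈ O ∧ IsOpen S' ∧ z₀ ∈ S' ∧ S' ⊆ S ∧
      0 < C ∧ IsEq f ι O S' E C := by
  classical
  -- the size of `x`
  obtain ⟨m₀, hm₀, hm₀e⟩ : ∃ m₀ : ℝ, 0 < m₀ ∧ ∀ᶠ R : Cn (L + 1) × Z in 𝓝 (x₁, z₀),
      m₀ ≤ nsq R.1 ∧ nsq R.1 ≤ nsq x₁ + 1 := by
    have h1 := nsq_pos hx₁
    have h2 : ContinuousAt (fun R : Cn (L + 1) × Z => nsq R.1) (x₁, z₀) :=
      (continuous_nsq.comp continuous_fst).continuousAt
    refine ⟨nsq x₁ / 2, by positivity, ?_⟩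
    filter_upwards [continuousAt_const.eventually_lt h2 (show nsq x₁ / 2 < nsq x₁ by linarith),
      h2.eventually_lt continuousAt_const (show nsq x₁ < nsq x₁ + 1 by linarith)] with R h3 h4
    exact ⟨h3.le, h4.le⟩
  set m₁ : ℝ := nsq x₁ + 1 with hm₁
  have hm₁p : 0 < m₁ := by
    have := nsq_nonneg x₁
    linarith
  have hSe : ∀ᶠ R : Cn (L + 1) × Z in 𝓝 (x₁, z₀), R.2 ∈ S :=
    continuous_snd.continuousAt.eventually (hS.mem_nhds hz₀)
  obtain ⟨ε₁, hε₁, hb₁⟩ := Metric.eventually_nhds_iff_ball.1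
    (hDe.and (hbd.and (hlow.and (hm₀e.and hSe))))
  obtain ⟨ε₂, hε₂, hb₂⟩ := Metric.eventually_nhds_iff_ball.1 hup
  set ε : ℝ := min ε₁ (ε₂ / 2) with hε
  have hεp : 0 < ε := lt_min hε₁ (by positivity)
  have hεε₁ : ε ≤ ε₁ := min_le_left _ _
  have hεε₂ : ε + ε ≤ ε₂ := by
    have := min_le_right ε₁ (ε₂ / 2)
    linarith
  -- the estimates on the ball
  set K : ℝ := max (max |K₁| (|K₂| / ε ^ 2) * (m₁ + 1)) (|K₃| * (m₀⁻¹ + 1)) + 1 with hK
  have hK1 : max |K₁| (|K₂| / ε ^ 2) * (m₁ + 1) ≤ K := (le_max_left _ _).trans (by linarith)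
  have hK2 : |K₃| * (m₀⁻¹ + 1) ≤ K := (le_max_right _ _).trans (by linarith)
  have hKp : 0 < K := by
    have h1 : 0 ≤ |K₃| * (m₀⁻¹ + 1) := by positivity
    have h2 : |K₃| * (m₀⁻¹ + 1) ≤ K - 1 := by
      have := le_max_right (max |K₁| (|K₂| / ε ^ 2) * (m₁ + 1)) (|K₃| * (m₀⁻¹ + 1))
      linarith
    linarith
  have hmem : ∀ x ∈ Metric.ball x₁ ε, ∀ w ∈ Metric.ball z₀ ε, (x, w) ∈ Metric.ball (x₁, z₀) ε₁ := by
    intro x hx w hw
    rw [Metric.mem_ball, Prod.dist_eq]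
    exact max_lt (lt_of_lt_of_le hx hεε₁) (lt_of_lt_of_le hw hεε₁)
  have hupper : ∀ x ∈ Metric.ball x₁ ε, ∀ w ∈ Metric.ball z₀ ε, ∀ (p : M) (x' : Cn (L + 1))
      (h : cc x' ≠ 0), ι p = Projectivization.mk ℂ (cc x') h →
        nsq (E w x) ≤ K * (nsq (x - x') / nsq x + dist (f p) w ^ 2) := by
    intro x hx w hw p x' h hp
    obtain ⟨-, h2, -, ⟨h4, h5⟩, -⟩ := hb₁ _ (hmem x hx w hw)
    simp only at h2 h4 h5
    have hxp : 0 < nsq x := lt_of_lt_of_le hm₀ h4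
    have hd0 : 0 ≤ dist (f p) w := dist_nonneg
    have h6 : nsq (x - x') + dist (f p) w ^ 2 ≤
        (m₁ + 1) * (nsq (x - x') / nsq x + dist (f p) w ^ 2) := by
      have h7 : nsq (x - x') ≤ m₁ * (nsq (x - x') / nsq x) := by
        rw [mul_div_assoc', le_div_iff₀ hxp, mul_comm]
        exact mul_le_mul_of_nonneg_right h5 (nsq_nonneg _)
      have h8 : 0 ≤ nsq (x - x') / nsq x := div_nonneg (nsq_nonneg _) hxp.le
      nlinarith [mul_nonneg hm₁p.le (sq_nonneg (dist (f p) w))]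
    have h9 : nsq (E w x) ≤ max |K₁| (|K₂| / ε ^ 2) * (nsq (x - x') + dist (f p) w ^ 2) := by
      by_cases hnear : ‖x - x'‖ < ε ∧ dist (f p) w < ε
      · have h10 : ((x, w), (x', f p)) ∈ Metric.ball ((x₁, z₀), (x₁, z₀)) ε₂ := by
          rw [Metric.mem_ball, Prod.dist_eq]
          refine max_lt ?_ ?_
          · rw [Prod.dist_eq]
            refine max_lt ?_ ?_
            · have : dist x x₁ < ε := hx
              linarith
            · have : dist w z₀ < ε := hw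
              linarith
          · rw [Prod.dist_eq]
            refine max_lt ?_ ?_
            · have h11 : dist x x₁ < ε := hx
              have h12 := dist_triangle x' x x₁
              have h13 : dist x' x < ε := by
                rw [dist_comm, dist_eq_norm]
                exact hnear.1
              simp only
              linarith
            · have h11 : dist w z₀ < ε := hw
              have h12 := dist_triangle (f p) w z₀
              simp only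
              linarith [hnear.2]
        have h14 := hb₂ _ h10 p h rfl hp
        simp only at h14
        refine h14.trans ?_
        have h15 : 0 ≤ nsq (x - x') + dist (f p) w ^ 2 := add_nonneg (nsq_nonneg _) (sq_nonneg _)
        exact mul_le_mul_of_nonneg_right ((le_abs_self _).trans (le_max_left _ _)) h15
      · have h10 : ε ^ 2 ≤ nsq (x - x') + dist (f p) w ^ 2 := by
          by_cases h11 : ‖x - x'‖ < ε
          · have h12 : ε ≤ dist (f p) w := by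
              by_contra hcon
              exact hnear ⟨h11, not_le.1 hcon⟩
            have h13 : ε ^ 2 ≤ dist (f p) w ^ 2 := by gcongr
            linarith [nsq_nonneg (x - x')]
          · have h12 : ε ^ 2 ≤ ‖x - x'‖ ^ 2 := by
              have := not_lt.1 h11
              gcongr
            have h13 := norm_le (x - x')
            linarith [sq_nonneg (dist (f p) w)]
        have h11 : |K₂| ≤ |K₂| / ε ^ 2 * (nsq (x - x') + dist (f p) w ^ 2) := by
          rw [div_mul_eq_mul_div, le_div_iff₀ (by positivity)]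
          exact mul_le_mul_of_nonneg_left h10 (abs_nonneg _)
        have h15 : 0 ≤ nsq (x - x') + dist (f p) w ^ 2 := add_nonneg (nsq_nonneg _) (sq_nonneg _)
        calc nsq (E w x) ≤ |K₂| := h2.trans (le_abs_self _)
          _ ≤ |K₂| / ε ^ 2 * (nsq (x - x') + dist (f p) w ^ 2) := h11
          _ ≤ _ := mul_le_mul_of_nonneg_right (le_max_right _ _) h15
    have h16 : 0 ≤ nsq (x - x') / nsq x + dist (f p) w ^ 2 :=
      add_nonneg (div_nonneg (nsq_nonneg _) hxp.le) (sq_nonneg _)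
    calc nsq (E w x) ≤ max |K₁| (|K₂| / ε ^ 2) * (nsq (x - x') + dist (f p) w ^ 2) := h9
      _ ≤ max |K₁| (|K₂| / ε ^ 2) * ((m₁ + 1) * (nsq (x - x') / nsq x + dist (f p) w ^ 2)) :=
          mul_le_mul_of_nonneg_left h6 (le_max_of_le_left (abs_nonneg _))
      _ = max |K₁| (|K₂| / ε ^ 2) * (m₁ + 1) * (nsq (x - x') / nsq x + dist (f p) w ^ 2) := by
          ring
      _ ≤ K * (nsq (x - x') / nsq x + dist (f p) w ^ 2) := mul_le_mul_of_nonneg_right hK1 h16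
  have hlower : ∀ x ∈ Metric.ball x₁ ε, ∀ w ∈ Metric.ball z₀ ε, ∃ (p : M) (x' : Cn (L + 1))
      (h : cc x' ≠ 0), ι p = Projectivization.mk ℂ (cc x') h ∧
        nsq (x - x') / nsq x + dist (f p) w ^ 2 ≤ K * nsq (E w x) := by
    intro x hx w hw
    obtain ⟨-, -, h3, ⟨h4, h5⟩, -⟩ := hb₁ _ (hmem x hx w hw)
    simp only at h3 h4 h5
    obtain ⟨p, x', h, hp, hle⟩ := h3
    refine ⟨p, x', h, hp, ?_⟩
    have hxp : 0 < nsq x := lt_of_lt_of_le hm₀ h4
    have h6 : nsq (x - x') / nsq x ≤ m₀⁻¹ * nsq (x - x') := by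
      rw [div_eq_mul_inv, mul_comm]
      refine mul_le_mul_of_nonneg_right ?_ (nsq_nonneg _)
      exact inv_anti₀ hm₀ h4
    have h7 : 0 ≤ m₀⁻¹ := by positivity
    have h8 := nsq_nonneg (x - x')
    have h9 := nsq_nonneg (E w x)
    calc nsq (x - x') / nsq x + dist (f p) w ^ 2
        ≤ (m₀⁻¹ + 1) * (nsq (x - x') + dist (f p) w ^ 2) := by
          nlinarith [mul_nonneg h7 (sq_nonneg (dist (f p) w))]
      _ ≤ (m₀⁻¹ + 1) * (K₃ * nsq (E w x)) := by gcongr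
      _ ≤ (m₀⁻¹ + 1) * (|K₃| * nsq (E w x)) := by
          gcongr
          exact le_abs_self _
      _ = |K₃| * (m₀⁻¹ + 1) * nsq (E w x) := by ring
      _ ≤ K * nsq (E w x) := by gcongr
  -- the cone
  have hx₁b : x₁ ∈ Metric.ball x₁ ε := Metric.mem_ball_self hεp
  have hz₀b : z₀ ∈ Metric.ball z₀ ε := Metric.mem_ball_self hεp
  refine ⟨{x | ∃ c : ℂ, c ≠ 0 ∧ csm c x ∈ Metric.ball x₁ ε}, Metric.ball z₀ ε, K,
    ⟨1, one_ne_zero, by rwa [csm_one]⟩, Metric.isOpen_ball, hz₀b, ?_, hKp, ?_, ?_, ?_, ?_, ?_, ?_⟩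
  · intro w hw
    exact (hb₁ _ (hmem x₁ hx₁b w hw)).2.2.2.2
  · have h1 : {x : Cn (L + 1) | ∃ c : ℂ, c ≠ 0 ∧ csm c x ∈ Metric.ball x₁ ε} =
        ⋃ c : {c : ℂ // c ≠ 0}, (fun x => csm c.1 x) ⁻¹' Metric.ball x₁ ε := by
      ext x
      simp
    rw [h1]
    exact isOpen_iUnion fun c => Metric.isOpen_ball.preimage (continuous_csm c.1)
  · rintro x ⟨c, hc, hx⟩ rfl
    have h1 := (hb₁ _ (hmem _ hx z₀ hz₀b)).2.2.2.1.1
    have h2 : csm c (0 : Cn (L + 1)) = 0 := by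
      apply MT.cc_injective
      rw [cc_csm]
      funext k
      apply Complex.ext <;> simp [cc]
    rw [h2] at h1
    have h3 : nsq (0 : Cn (L + 1)) = 0 := by simp [nsq]
    simp only [h3] at h1
    linarith
  · rintro x ⟨c, hc, hx⟩ a b hab
    have h0 : (⟨a, b⟩ : ℂ) ≠ 0 := by
      intro h1
      have h2 : a = 0 := congrArg Complex.re h1
      have h3 : b = 0 := congrArg Complex.im h1
      exact hab (by rw [h2, h3]; ring)
    refine ⟨c * (⟨a, b⟩ : ℂ)⁻¹, mul_ne_zero hc (inv_ne_zero h0), ?_⟩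
    have h1 : a • x + b • J x = csm ⟨a, b⟩ x := rfl
    rw [h1, csm_csm, inv_mul_cancel_right₀ h0]
    exact hx
  · intro w hw
    have hsub : {x | ∃ c : ℂ, c ≠ 0 ∧ csm c x ∈ Metric.ball x₁ ε} ⊆ D w := by
      rintro x ⟨c, hc, hx⟩
      exact hD w x c hc (hb₁ _ (hmem _ hx w hw)).1
    exact ⟨(hhol w).2.1.mono hsub, fun x hx => (hhol w).2.2 x (hsub hx)⟩
  · rintro w hw x ⟨c, hc, hx⟩ p x' h hp
    obtain ⟨h', hp'⟩ := mk_csm hc hp
    have h1 := hupper _ hx w hw p _ h' hp'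
    rwa [hinv w x c hc, ratio_csm hc] at h1
  · rintro w hw x ⟨c, hc, hx⟩
    obtain ⟨p, x', h, hp, hle⟩ := hlower _ hx w hw
    obtain ⟨h', hp'⟩ := mk_csm (inv_ne_zero hc) hp
    refine ⟨p, csm c⁻¹ x', h', hp', ?_⟩
    rw [hinv w x c hc] at hle
    have h1 := ratio_csm hc x (csm c⁻¹ x')
    rw [csm_inv hc] at h1
    rwa [h1] at hle

end Cone

end EB

end Pool.Agent.KRFCh

end
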