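import Pool.Agent.Work.MP_a2bf38_gt.Fu.Ext.MP_0e9e72_an.SCVA

section

/-!
# Coverings of cones
-/

open MvPolynomial

namespace Pool.Agent.KRFW

namespace Cone

section

variable {K : Type*} [Field K] {σ : Type}

theorem eval_smul_homog {P : MvPolynomial σ K} {n : ℕ} (hP : P.IsHomogeneous n) (c : K)
    (x : σ → K) : eval (c • x) P = c ^ n * eval x P := by
  rw [eval_eq, eval_eq, Finset.mul_sum]
  refine Finset.sum_congr rfl fun d hd => ?_
  have h1 : ∑ i ∈ d.support, d i = n := by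
    have := hP.degree_eq_sum_deg_support hd
    rw [this]
  have h2 : ∏ i ∈ d.support, (c • x) i ^ d i = c ^ n * ∏ i ∈ d.support, x i ^ d i := by
    rw [← h1, ← Finset.prod_pow_eq_pow_sum, ← Finset.prod_mul_distrib]
    refine Finset.prod_congr rfl fun i _ => ?_
    rw [Pi.smul_apply, smul_eq_mul, mul_pow]
  rw [h2]
  ring

/-- the zeros of a homogeneous ideal are a cone -/
theorem smul_mem {I : Ideal (MvPolynomial σ K)} (hI : IsHom I) {x : σ → K}
    (hx : x ∈ zeros (I : Set (MvPolynomial σ K))) (c : K) :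
    c • x ∈ zeros (I : Set (MvPolynomial σ K)) := by
  intro P hP
  rw [← sum_homogeneousComponent P, map_sum]
  refine Finset.sum_eq_zero fun n _ => ?_
  rw [eval_smul_homog (homogeneousComponent_isHomogeneous n P), hx _ (hI P hP n), mul_zero]

attribute [local instance] MvPolynomial.gradedAlgebra

/-- the minimal primes of a homogeneous ideal are homogeneous -/
theorem isHom_minimal {S : Set (MvPolynomial σ K)} (hS : ∀ P ∈ S, ∃ d, P.IsHomogeneous d)
    {p : Ideal (MvPolynomial σ K)} (hp : p ∈ (Ideal.span S).minimalPrimes) : IsHom p := by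
  have h1 : (Ideal.span S).IsHomogeneous (homogeneousSubmodule σ K) :=
    Ideal.homogeneous_span _ _ fun P hP => by
      obtain ⟨d, hd⟩ := hS P hP
      exact ⟨d, hd⟩
  have h2 := hp.1.1.homogeneousCore (𝒜 := homogeneousSubmodule σ K)
  have h3 : Ideal.span S ≤ (p.homogeneousCore (homogeneousSubmodule σ K)).toIdeal := by
    have := h1.toIdeal_homogeneousCore_eq_self
    rw [← this]
    exact Ideal.homogeneousCore_mono (homogeneousSubmodule σ K) hp.1.2
  have h4 : p ≤ (p.homogeneousCore (homogeneousSubmodule σ K)).toIdeal :=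
    hp.2 ⟨h2, h3⟩ (Ideal.toIdeal_homogeneousCore_le _ _)
  have h5 : (p.homogeneousCore (homogeneousSubmodule σ K)).toIdeal = p :=
    le_antisymm (Ideal.toIdeal_homogeneousCore_le _ _) h4
  have h6 : p.IsHomogeneous (homogeneousSubmodule σ K) := (Ideal.IsHomogeneous.iff_eq _ _).2 h5
  intro P hP n
  exact homogeneousComponent_mem_of_mem h6 hP n

end

end Cone

theorem cone_sheets_of {K : Type*} [Field K] (O : ValuationSubring K)
    {σ : Type} [Fintype σ] (S : Set (MvPolynomial σ K)) (hS : ∀ P ∈ S, ∃ d, P.IsHomogeneous d)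
    (prime_sheets : ∀ 𝔭 : Ideal (MvPolynomial σ K), IsHom 𝔭 → 𝔭.IsPrime →
      ∃ (k D : ℕ) (ℓ : Fin k → σ → K) (Φ : MvPolynomial (Ix k σ) K),
        (∀ i j, ℓ i j ∈ O) ∧
        (∀ w, ∃ X : Fin D → σ → K, IsTup (zeros (𝔭 : Set (MvPolynomial σ K))) ℓ Φ w X) ∧
        (∀ x ∈ zeros (𝔭 : Set (MvPolynomial σ K)), ∃ X : Fin D → σ → K,
          IsTup (zeros (𝔭 : Set (MvPolynomial σ K))) ℓ Φ (fun i => ∑ j, ℓ i j * x j) X ∧
            ∃ m, X m = x) ∧
        ∀ x ∈ zeros (𝔭 : Set (MvPolynomial σ K)), (∀ i, ∑ j, ℓ i j * x j ∈ O) → ∀ j, x j ∈ O) :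
    ∃ (r : ℕ) (k D : Fin r → ℕ) (ℓ : ∀ i, Fin (k i) → σ → K)
      (Φ : ∀ i, MvPolynomial (Ix (k i) σ) K), (∀ i a j, ℓ i a j ∈ O) ∧
      (∀ i w, ∃ X : Fin (D i) → σ → K, IsTup (zeros S) (ℓ i) (Φ i) w X ∧
        ∀ c : K, c ≠ 0 → (∀ a, w a / c ∈ O) → ∀ m j, X m j / c ∈ O) ∧
      ∀ x ∈ zeros S, ∃ i, ∀ c : K, ∃ X : Fin (D i) → σ → K,
        IsTup (zeros S) (ℓ i) (Φ i) (fun a => ∑ j, ℓ i a j * (c * x j)) X ∧ ∃ m, X m = c • x := by
  set I : Ideal (MvPolynomial σ K) := Ideal.span S with hI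
  have hfin : I.minimalPrimes.Finite := Ideal.finite_minimalPrimes_of_isNoetherianRing _ I
  have := hfin.to_subtype
  obtain ⟨r, ⟨φ⟩⟩ := Finite.exists_equiv_fin I.minimalPrimes
  have hhom : ∀ i, IsHom (φ.symm i : Ideal (MvPolynomial σ K)) := fun i =>
    Cone.isHom_minimal hS (φ.symm i).2
  have hsub : ∀ i, zeros ((φ.symm i : Ideal (MvPolynomial σ K)) : Set (MvPolynomial σ K)) ⊆
      zeros S := fun i x hx P hP => hx P ((φ.symm i).2.1.2 (Ideal.subset_span hP))
  choose k D ℓ Φ h1 h2 h3 h4 using fun i => prime_sheets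
    (φ.symm i : Ideal (MvPolynomial σ K)) (hhom i) (φ.symm i).2.1.1
  have htup : ∀ i w (X : Fin (D i) → σ → K), IsTup
      (zeros ((φ.symm i : Ideal (MvPolynomial σ K)) : Set (MvPolynomial σ K))) (ℓ i) (Φ i) w X →
      IsTup (zeros S) (ℓ i) (Φ i) w X := fun i w X h => ⟨fun m => hsub i (h.mem m), h.proj, h.prod⟩
  refine ⟨r, k, D, ℓ, Φ, h1, fun i w => ?_, fun x hx => ?_⟩
  · obtain ⟨X, hX⟩ := h2 i w
    refine ⟨X, htup i w X hX, fun c hc hw m j => ?_⟩
    have h5 := h4 i (c⁻¹ • X m) (Cone.smul_mem (hhom i) (hX.mem m) _) (fun a => by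
      have h6 : ∑ j, ℓ i a j * (c⁻¹ • X m) j = w a / c := by
        rw [← hX.proj m a, div_eq_inv_mul, Finset.mul_sum]
        refine Finset.sum_congr rfl fun j _ => ?_
        rw [Pi.smul_apply, smul_eq_mul]
        ring
      rw [h6]
      exact hw a) j
    rwa [Pi.smul_apply, smul_eq_mul, ← div_eq_inv_mul] at h5
  · have hle : I ≤ RingHom.ker (eval x : MvPolynomial σ K →+* K) := by
      rw [hI, Ideal.span_le]
      intro P hP
      exact hx P hP
    have hpr : (RingHom.ker (eval x : MvPolynomial σ K →+* K)).IsPrime := RingHom.ker_isPrime _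
    obtain ⟨p, hp, hpx⟩ := Ideal.exists_minimalPrimes_le hle
    refine ⟨φ ⟨p, hp⟩, fun c => ?_⟩
    have hxz : x ∈ zeros ((φ.symm (φ ⟨p, hp⟩) : Ideal (MvPolynomial σ K)) :
        Set (MvPolynomial σ K)) := by
      rw [Equiv.symm_apply_apply]
      exact fun P hP => hpx hP
    obtain ⟨X, hX, m, hm⟩ := h3 (φ ⟨p, hp⟩) (c • x) (Cone.smul_mem (hhom _) hxz c)
    exact ⟨X, htup _ _ X hX, m, hm⟩

end Pool.Agent.KRFW

end

section

/-!
# Tuples of points from a Galois covering
-/

open MvPolynomial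

namespace Pool.Agent.KRFW

universe u v

/-- a point of the base of an integral extension extends -/
theorem exists_extend {K : Type*} [Field K] [IsAlgClosed K] {A B : Type*} [CommRing A] [CommRing B]
    [Algebra A B] [Algebra.IsIntegral A B] (hinj : Function.Injective (algebraMap A B))
    (φ : A →+* K) (hφ : Function.Surjective φ) :
    ∃ π : B →+* K, ∀ a, π (algebraMap A B a) = φ a := by
  have hm : (RingHom.ker φ).IsMaximal := RingHom.ker_isMaximal_of_surjective φ hφ
  obtain ⟨Q, hQm, hQ⟩ := Ideal.exists_ideal_over_maximal_of_isIntegral (S := B) (RingHom.ker φ) (by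
    rw [(RingHom.injective_iff_ker_eq_bot _).1 hinj]
    exact bot_le)
  set j : K →+* B ⧸ Q := (Ideal.quotientMap Q (algebraMap A B) hQ.ge).comp
    (RingHom.quotientKerEquivOfSurjective hφ).symm.toRingHom with hj
  have hjφ : ∀ a, j (φ a) = Ideal.Quotient.mk Q (algebraMap A B a) := by
    intro a
    have h1 : (RingHom.quotientKerEquivOfSurjective hφ).symm (φ a) =
        Ideal.Quotient.mk (RingHom.ker φ) a := by
      rw [RingEquiv.symm_apply_eq]
      rfl
    rw [hj]
    simp only [RingHom.comp_apply, RingEquiv.toRingHom_eq_coe, RingHom.coe_coe, h1]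
    exact Ideal.quotientMap_mk
  have hji : j.IsIntegral := by
    intro b
    obtain ⟨b, rfl⟩ := Ideal.Quotient.mk_surjective b
    obtain ⟨p, hp, hp0⟩ := Algebra.IsIntegral.isIntegral (R := A) b
    refine ⟨p.map φ, hp.map _, ?_⟩
    rw [Polynomial.eval₂_map]
    have : j.comp φ = (Ideal.Quotient.mk Q).comp (algebraMap A B) := RingHom.ext hjφ
    rw [this, ← Polynomial.hom_eval₂, hp0, map_zero]
  have hjb : Function.Bijective j := IsAlgClosed.ringHom_bijective_of_isIntegral j hji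
  refine ⟨(RingEquiv.ofBijective j hjb).symm.toRingHom.comp (Ideal.Quotient.mk Q), fun a => ?_⟩
  simp only [RingHom.comp_apply, RingEquiv.toRingHom_eq_coe, RingHom.coe_coe]
  rw [RingEquiv.symm_apply_eq, ← hjφ]
  rfl

/-- The polynomial `∏_g (T - ∑ u_j g (x_j))` has coefficients in the ring of invariants. -/
theorem exists_norm_form {K : Type*} [Field K] {k : ℕ} {σ : Type} [Fintype σ] {B : Type*}
    [CommRing B] [Algebra (MvPolynomial (Fin k) K) B] (x : σ → B) (G : Type*) [Group G] [Fintype G]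
    [MulSemiringAction G B] [Algebra.IsInvariant (MvPolynomial (Fin k) K) B G] :
    ∃ Φ : MvPolynomial (Ix k σ) K, ∀ (π : B →+* K) (w : Fin k → K),
      (∀ s, π (algebraMap (MvPolynomial (Fin k) K) B s) = eval w s) → ∀ u T,
        eval (pt w u T) Φ = ∏ g : G, (T - ∑ j, u j * π (g • x j)) := by
  classical
  set P : MvPolynomial (σ ⊕ Unit) B :=
    ∏ g : G, (X (Sum.inr ()) - ∑ j, C (g • x j) * X (Sum.inl j)) with hP
  have hinv : ∀ h : G, map (MulSemiringAction.toRingHom G B h) P = P := by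
    intro h
    rw [hP, map_prod]
    refine Fintype.prod_equiv (Equiv.mulLeft h) _ _ fun g => ?_
    simp [mul_smul]
  have hcoeff : ∀ m, ∃ s, algebraMap (MvPolynomial (Fin k) K) B s = coeff m P := by
    intro m
    refine Algebra.IsInvariant.isInvariant (G := G) _ fun h => ?_
    conv_rhs => rw [← hinv h]
    rw [coeff_map]
    rfl
  choose s hs using hcoeff
  set P₀ : MvPolynomial (σ ⊕ Unit) (MvPolynomial (Fin k) K) :=
    ∑ m ∈ P.support, monomial m (s m) with hP₀
  have hmap : map (algebraMap (MvPolynomial (Fin k) K) B) P₀ = P := by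
    rw [hP₀, map_sum]
    conv_rhs => rw [P.as_sum]
    refine Finset.sum_congr rfl fun m _ => ?_
    rw [map_monomial, hs]
  refine ⟨P₀.eval₂ (rename Sum.inl : MvPolynomial (Fin k) K →ₐ[K] MvPolynomial (Ix k σ) K).toRingHom
    (fun i => X (Sum.inr i)), fun π w hπ u T => ?_⟩
  have h1 : eval (pt w u T) (P₀.eval₂ (rename Sum.inl : MvPolynomial (Fin k) K →ₐ[K]
      MvPolynomial (Ix k σ) K).toRingHom (fun i => X (Sum.inr i))) =
      P₀.eval₂ (eval w) (Sum.elim u fun _ => T) := by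
    have h2 := MvPolynomial.eval₂_comp_left (eval (pt w u T))
      (rename Sum.inl : MvPolynomial (Fin k) K →ₐ[K] MvPolynomial (Ix k σ) K).toRingHom
      (fun i : σ ⊕ Unit => X (Sum.inr i)) P₀
    rw [h2]
    congr 1
    · refine MvPolynomial.ringHom_ext (fun q => ?_) fun i => ?_
      · simp
      · simp [pt]
    · funext i
      simp [pt]
  rw [h1]
  have h3 : (eval w : MvPolynomial (Fin k) K →+* K) =
      π.comp (algebraMap (MvPolynomial (Fin k) K) B) := RingHom.ext fun s => (hπ s).symm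
  rw [h3, ← MvPolynomial.eval₂_map, hmap, hP, ← MvPolynomial.coe_eval₂Hom, map_prod]
  refine Finset.prod_congr rfl fun g _ => ?_
  simp [mul_comm]

/-- the integral closure of `K[w]` in a finite Galois extension which contains `B` -/
theorem exists_galois {K : Type u} [Field K] [CharZero K] {k : ℕ} {σ : Type} [Fintype σ]
    {B : Type v} [CommRing B] [IsDomain B] [Algebra K B] [Algebra (MvPolynomial (Fin k) K) B]
    [IsScalarTower K (MvPolynomial (Fin k) K) B]
    (x : σ → B) (hgen : Algebra.adjoin K (Set.range x) = ⊤)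
    (hinj : Function.Injective (algebraMap (MvPolynomial (Fin k) K) B))
    (hint : ∀ j, IsIntegral (MvPolynomial (Fin k) K) (x j)) :
    ∃ (B' : Type u) (_ : CommRing B') (_ : Algebra (MvPolynomial (Fin k) K) B')
      (_ : Fintype (B' ≃ₐ[MvPolynomial (Fin k) K] B')) (f : B →ₐ[MvPolynomial (Fin k) K] B'),
      Algebra.IsIntegral (MvPolynomial (Fin k) K) B' ∧
      Function.Injective (algebraMap (MvPolynomial (Fin k) K) B') ∧ Function.Injective f ∧
      Algebra.IsInvariant (MvPolynomial (Fin k) K) B' (B' ≃ₐ[MvPolynomial (Fin k) K] B') := by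
  classical
  set S := MvPolynomial (Fin k) K with hS
  have hBint : Algebra.IsIntegral S B := by
    have h1 : Algebra.adjoin S (Set.range x) = ⊤ := by
      rw [eq_top_iff]
      intro b hb'
      clear hb'
      have hb : b ∈ Algebra.adjoin K (Set.range x) := by rw [hgen]; exact Algebra.mem_top
      induction hb using Algebra.adjoin_induction with
      | mem b hb => exact Algebra.subset_adjoin hb
      | algebraMap c =>
        rw [IsScalarTower.algebraMap_apply K S B]
        exact Subalgebra.algebraMap_mem _ _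
      | add a b _ _ ha hb => exact add_mem ha hb
      | mul a b _ _ ha hb => exact mul_mem ha hb
    have h2 : (⊤ : Subalgebra S B) ≤ integralClosure S B := by
      rw [← h1]
      refine Algebra.adjoin_le ?_
      rintro _ ⟨j, rfl⟩
      exact hint j
    exact ⟨fun b => h2 Algebra.mem_top⟩
  let E := FractionRing S
  let Ω := AlgebraicClosure E
  have hfaith : FaithfulSMul S B := by
    rw [faithfulSMul_iff_algebraMap_injective]; exact hinj
  have htf : Module.IsTorsionFree S B := inferInstance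
  have hfaithΩ : FaithfulSMul S Ω := by
    rw [faithfulSMul_iff_algebraMap_injective, IsScalarTower.algebraMap_eq S E Ω]
    exact (algebraMap E Ω).injective.comp (IsFractionRing.injective S E)
  have htfΩ : Module.IsTorsionFree S Ω := inferInstance
  let f₀ : B →ₐ[S] Ω := IsAlgClosed.lift
  have hf₀ : Function.Injective f₀ := by
    have : RingHom.ker (f₀ : B →+* Ω) = ⊥ := by
      refine Ideal.eq_bot_of_comap_eq_bot (R := S) ?_
      rw [eq_bot_iff]
      intro s hs
      have h1 : f₀ (algebraMap S B s) = 0 := hs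
      rw [f₀.commutes] at h1
      exact (FaithfulSMul.algebraMap_injective S Ω) (by rw [h1, map_zero])
    exact (RingHom.injective_iff_ker_eq_bot _).2 this
  let F := IntermediateField.adjoin E (Set.range fun j => f₀ (x j))
  have hFfin : FiniteDimensional E F := by
    refine IntermediateField.finiteDimensional_adjoin ?_
    rintro _ ⟨j, rfl⟩
    exact ((hint j).map f₀).tower_top
  let N := IntermediateField.normalClosure E F Ω
  have hNfin : FiniteDimensional E N := inferInstance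
  have hNn : Normal E N := inferInstance
  have hE0 : CharZero E := by
    have : CharZero S := charZero_of_injective_algebraMap (C_injective (Fin k) K)
    exact charZero_of_injective_algebraMap (IsFractionRing.injective S E)
  have hNg : IsGalois E N := ⟨⟩
  have hFN : F ≤ N := IntermediateField.le_normalClosure F
  have hf₀N : ∀ b, f₀ b ∈ N := by
    intro b
    have hb : b ∈ Algebra.adjoin K (Set.range x) := by rw [hgen]; exact Algebra.mem_top
    induction hb using Algebra.adjoin_induction with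
    | mem b hb =>
      obtain ⟨j, rfl⟩ := hb
      exact hFN (IntermediateField.subset_adjoin _ _ ⟨j, rfl⟩)
    | algebraMap c =>
      rw [IsScalarTower.algebraMap_apply K S B, f₀.commutes, IsScalarTower.algebraMap_apply S E Ω]
      exact N.algebraMap_mem _
    | add a b _ _ ha hb => rw [map_add]; exact N.add_mem ha hb
    | mul a b _ _ ha hb => rw [map_mul]; exact N.mul_mem ha hb
  let f₁ : B →ₐ[S] N := f₀.codRestrict ((N.toSubalgebra).restrictScalars S) hf₀N
  have hf₁ : Function.Injective f₁ := by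
    intro a b hab
    exact hf₀ (congrArg Subtype.val hab)
  let B' := integralClosure S N
  let f : B →ₐ[S] B' := f₁.codRestrict B' fun b => (Algebra.IsIntegral.isIntegral b).map f₁
  have hf : Function.Injective f := by
    intro a b hab
    exact hf₁ (congrArg Subtype.val hab)
  have hfr : IsFractionRing B' N := integralClosure.isFractionRing_of_finite_extension E N
  have hinvt : Algebra.IsInvariant S B' (B' ≃ₐ[S] B') := Algebra.isInvariant_of_isGalois' S E N B'
  have hfin : Finite (B' ≃ₐ[S] B') :=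
    Finite.of_equiv Gal(N/E) (galRestrict S E N B').toEquiv
  refine ⟨B', inferInstance, inferInstance, Fintype.ofFinite _, f, inferInstance, ?_, hf, hinvt⟩
  intro a b hab
  have := congrArg (fun c : B' => ((c : N) : Ω)) hab
  exact FaithfulSMul.algebraMap_injective S Ω this

/-- **Tuples of points over the base.** -/
theorem exists_tup {K : Type*} [Field K] [IsAlgClosed K] [CharZero K] {k : ℕ} {σ : Type}
    [Fintype σ] {B : Type*} [CommRing B] [IsDomain B] [Algebra K B] (x : σ → B) (y : Fin k → B)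
    (hgen : Algebra.adjoin K (Set.range x) = ⊤)
    (hinj : Function.Injective (aeval y : MvPolynomial (Fin k) K →ₐ[K] B))
    (hint : ∀ j, (aeval y : MvPolynomial (Fin k) K →ₐ[K] B).toRingHom.IsIntegralElem (x j)) :
    ∃ (D : ℕ) (Φ : MvPolynomial (Ix k σ) K),
      (∀ w : Fin k → K, ∃ ψ : Fin D → B →ₐ[K] K, (∀ m i, ψ m (y i) = w i) ∧
        ∀ u T, eval (pt w u T) Φ = ∏ m, (T - ∑ j, u j * ψ m (x j))) ∧
      ∀ ψ₀ : B →ₐ[K] K, ∃ ψ : Fin D → B →ₐ[K] K, (∀ m i, ψ m (y i) = ψ₀ (y i)) ∧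
        (∃ m, ψ m = ψ₀) ∧
        ∀ u T, eval (pt (fun i => ψ₀ (y i)) u T) Φ = ∏ m, (T - ∑ j, u j * ψ m (x j)) := by
  classical
  let _ : Algebra (MvPolynomial (Fin k) K) B :=
    (aeval y : MvPolynomial (Fin k) K →ₐ[K] B).toRingHom.toAlgebra
  have halg : ∀ s, algebraMap (MvPolynomial (Fin k) K) B s = aeval y s := fun _ => rfl
  have htow : IsScalarTower K (MvPolynomial (Fin k) K) B :=
    IsScalarTower.of_algebraMap_eq fun c => by
      rw [halg]
      simp
  obtain ⟨B', _, _, _, f, hB'int, hB'inj, hf, hinv⟩ := exists_galois x hgen hinj hint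
  obtain ⟨Φ, hΦ⟩ := exists_norm_form (K := K) (k := k) (fun j => f (x j)) (B' ≃ₐ[MvPolynomial (Fin k) K] B')
  let en : Fin (Fintype.card (B' ≃ₐ[MvPolynomial (Fin k) K] B')) ≃
    (B' ≃ₐ[MvPolynomial (Fin k) K] B') := (Fintype.equivFin _).symm
  -- the points of `B` from a point of `B'`
  have key : ∀ (π : B' →+* K) (w : Fin k → K),
      (∀ s, π (algebraMap (MvPolynomial (Fin k) K) B' s) = eval w s) →
      ∃ ψ : (B' ≃ₐ[MvPolynomial (Fin k) K] B') → B →ₐ[K] K, (∀ g b, ψ g b = π (g (f b))) ∧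
        (∀ g i, ψ g (y i) = w i) ∧
        ∀ u T, eval (pt w u T) Φ = ∏ m, (T - ∑ j, u j * ψ (en m) (x j)) := by
    intro π w hπ
    refine ⟨fun g => { (π.comp (g : B' →+* B')).comp (f : B →+* B') with
      commutes' := fun c => ?_ }, fun g b => rfl, fun g i => ?_, fun u T => ?_⟩
    · change π (g (f (algebraMap K B c))) = _
      rw [IsScalarTower.algebraMap_apply K (MvPolynomial (Fin k) K) B, f.commutes, g.commutes, hπ]
      simp
    · change π (g (f (y i))) = _
      have : y i = algebraMap (MvPolynomial (Fin k) K) B (X i) := by rw [halg, aeval_X]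
      rw [this, f.commutes, g.commutes, hπ, eval_X]
    · rw [hΦ π w hπ u T]
      exact (Fintype.prod_equiv en _ _ fun m => rfl).symm
  refine ⟨Fintype.card (B' ≃ₐ[MvPolynomial (Fin k) K] B'), Φ, fun w => ?_, fun ψ₀ => ?_⟩
  · obtain ⟨π, hπ⟩ := exists_extend hB'inj (eval w) fun c => ⟨C c, by simp⟩
    obtain ⟨ψ, -, hψ2, hψ3⟩ := key π w hπ
    exact ⟨fun m => ψ (en m), fun m i => hψ2 _ i, hψ3⟩
  · let _ : Algebra B B' := f.toRingHom.toAlgebra
    have hint' : Algebra.IsIntegral B B' := by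
      have : IsScalarTower (MvPolynomial (Fin k) K) B B' :=
        IsScalarTower.of_algebraMap_eq fun s => (f.commutes s).symm
      exact Algebra.IsIntegral.tower_top (MvPolynomial (Fin k) K)
    obtain ⟨π, hπ⟩ := exists_extend (A := B) (B := B') hf (ψ₀ : B →+* K)
      fun c => ⟨algebraMap K B c, by simp⟩
    have hπ' : ∀ b, π (f b) = ψ₀ b := hπ
    have hev : ∀ s, π (algebraMap (MvPolynomial (Fin k) K) B' s) = eval (fun i => ψ₀ (y i)) s := by
      intro s
      rw [← f.commutes, hπ', halg]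
      induction s using MvPolynomial.induction_on with
      | C a => simp
      | add p q hp hq => rw [map_add, map_add, map_add, hp, hq]
      | mul_X p i hp => rw [map_mul, map_mul, map_mul, hp, aeval_X, eval_X]
    obtain ⟨ψ, hψ1, hψ2, hψ3⟩ := key π _ hev
    refine ⟨fun m => ψ (en m), fun m i => hψ2 _ i, ⟨en.symm 1, ?_⟩, hψ3⟩
    apply AlgHom.ext
    intro b
    rw [hψ1, Equiv.apply_symm_apply]
    exact hπ' b

end Pool.Agent.KRFW

end

section

/-!
# Linear forms with integral coefficients over which a homogeneous ideal is integral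

`O` is a valuation ring of `K` with infinite residue field.  Among the families of linear forms with
coefficients in `O` over which all variables are integral (modulo `𝔭`) take one with the smallest number of
forms.  A relation modulo `𝔭` between the forms can be taken homogeneous with coefficients in `O`, one
of them `1`; it has an invertible value at some vector `v`, one coordinate of `v` is invertible, and
one of the forms can be eliminated.
-/

open MvPolynomial

namespace Pool.Agent.KRFW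

namespace LiftP

/-! ### The leading coefficient of `P (a + c Y)` -/

theorem coeff_prod_pow {R ι : Type*} [CommRing R] (s : Finset ι) (a c : ι → R) (e : ι → ℕ) :
    (∏ i ∈ s, (Polynomial.C (a i) + Polynomial.C (c i) * Polynomial.X) ^ e i).natDegree ≤
        ∑ i ∈ s, e i ∧
      (∏ i ∈ s, (Polynomial.C (a i) + Polynomial.C (c i) * Polynomial.X) ^ e i).coeff
        (∑ i ∈ s, e i) = ∏ i ∈ s, c i ^ e i := by
  classical
  induction s using Finset.induction_on with
  | empty => simp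
  | insert i s hi ih =>
    have h1 : (Polynomial.C (a i) + Polynomial.C (c i) * Polynomial.X).natDegree ≤ 1 := by
      refine (Polynomial.natDegree_add_le _ _).trans (max_le ?_ ?_)
      · rw [Polynomial.natDegree_C]
        exact Nat.zero_le _
      · exact (Polynomial.natDegree_C_mul_le _ _).trans Polynomial.natDegree_X_le
    have h2 : ((Polynomial.C (a i) + Polynomial.C (c i) * Polynomial.X) ^ e i).natDegree ≤ e i := by
      have := Polynomial.natDegree_pow_le_of_le (e i) h1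
      simpa using this
    have h3 : ((Polynomial.C (a i) + Polynomial.C (c i) * Polynomial.X) ^ e i).coeff (e i) =
        c i ^ e i := by
      have := Polynomial.coeff_pow_of_natDegree_le (m := e i) h1
      rw [mul_one] at this
      rw [this]
      simp
    rw [Finset.prod_insert hi, Finset.sum_insert hi, Finset.prod_insert hi]
    refine ⟨(Polynomial.natDegree_mul_le).trans (add_le_add h2 ih.1), ?_⟩
    rw [Polynomial.coeff_mul_add_eq_of_natDegree_le h2 ih.1, h3, ih.2]

theorem coeff_line {R σ : Type*} [CommRing R] [Fintype σ] (P : MvPolynomial σ R) {d : ℕ}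
    (hP : P.IsHomogeneous d) (a c : σ → R) :
    (aeval (fun i => Polynomial.C (a i) + Polynomial.C (c i) * Polynomial.X) P :
      Polynomial R).natDegree ≤ d ∧
    (aeval (fun i => Polynomial.C (a i) + Polynomial.C (c i) * Polynomial.X) P :
      Polynomial R).coeff d = eval c P := by
  have h1 : (aeval (fun i => Polynomial.C (a i) + Polynomial.C (c i) * Polynomial.X) P :
      Polynomial R) = ∑ s ∈ P.support, Polynomial.C (coeff s P) *
        ∏ i, (Polynomial.C (a i) + Polynomial.C (c i) * Polynomial.X) ^ s i := by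
    rw [aeval_def, eval₂_eq']
    rfl
  have h2 : ∀ s ∈ P.support, ∑ i, s i = d := by
    intro s hs
    have := hP (mem_support_iff.1 hs)
    rw [Finsupp.weight_apply, Finsupp.sum_fintype] at this
    · simpa using this
    · simp
  rw [h1]
  constructor
  · refine Polynomial.natDegree_sum_le_of_forall_le _ _ fun s hs => ?_
    refine (Polynomial.natDegree_C_mul_le _ _).trans ?_
    rw [← h2 s hs]
    exact (coeff_prod_pow _ _ _ _).1
  · rw [Polynomial.finsetSum_coeff, eval_eq']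
    refine Finset.sum_congr rfl fun s hs => ?_
    rw [Polynomial.coeff_C_mul]
    congr 1
    have := (coeff_prod_pow Finset.univ a c s).2
    rw [h2 s hs] at this
    exact this

theorem eval_smul_of_homogeneous {R σ : Type*} [CommRing R] [Fintype σ] {Q : MvPolynomial σ R}
    {d : ℕ} (hQ : Q.IsHomogeneous d) (t : R) (x : σ → R) :
    eval (fun i => t * x i) Q = t ^ d * eval x Q := by
  rw [eval_eq', eval_eq', Finset.mul_sum]
  refine Finset.sum_congr rfl fun s hs => ?_
  have h2 : ∑ i, s i = d := by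
    have := hQ (mem_support_iff.1 hs)
    rw [Finsupp.weight_apply, Finsupp.sum_fintype] at this
    · simpa using this
    · simp
  simp only [mul_pow, Finset.prod_mul_distrib, Finset.prod_pow_eq_pow_sum]
  rw [h2]
  ring

/-! ### Integrality is transitive -/

theorem int_trans {R A : Type*} [CommRing R] [CommRing A] [Algebra R A] {s t : Set A} {x : A}
    (h1 : ∀ a ∈ s, IsIntegral (Algebra.adjoin R t) a) (h2 : IsIntegral (Algebra.adjoin R s) x) :
    IsIntegral (Algebra.adjoin R t) x := by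
  set S' := Algebra.adjoin R t with hS'
  set T : Subalgebra S' A := integralClosure S' A with hT
  have hle : Algebra.adjoin R s ≤ T.restrictScalars R := Algebra.adjoin_le fun a ha => h1 a ha
  obtain ⟨p, hp, hpx⟩ := h2
  set f : Algebra.adjoin R s →+* T :=
    ((Algebra.adjoin R s).val.toRingHom).codRestrict T.toSubsemiring (fun a => hle a.2) with hf
  have h3 : IsIntegral T x := by
    refine ⟨p.map f, hp.map f, ?_⟩
    rw [Polynomial.eval₂_map]
    exact hpx
  have : Algebra.IsIntegral S' T := ⟨fun a => by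
    have h4 : IsIntegral S' (a : A) := a.2
    exact (isIntegral_algHom_iff T.val Subtype.val_injective).1 h4⟩
  exact isIntegral_trans (R := S') (A := T) x h3

/-! ### Content and values -/

section Val

variable {K : Type*} [Field K] {O : ValuationSubring K}

theorem exists_content {σ : Type*} (P : MvPolynomial σ K) (hP : P ≠ 0) :
    ∃ (a : K) (Q : MvPolynomial σ O), a ≠ 0 ∧ map (algebraMap O K) Q = C a * P ∧
      ∃ s, coeff s Q = 1 := by
  have hne : P.support.Nonempty := by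
    rw [Finset.nonempty_iff_ne_empty, Ne, support_eq_empty]
    exact hP
  obtain ⟨s₀, hs₀, hmax⟩ := P.support.exists_max_image (fun s => O.valuation (coeff s P)) hne
  have hc : coeff s₀ P ≠ 0 := mem_support_iff.1 hs₀
  have hmem : ∀ s, coeff s (C (coeff s₀ P)⁻¹ * P) ∈ O := by
    intro s
    rw [coeff_C_mul, ← O.valuation_le_one_iff, map_mul, map_inv₀]
    by_cases hs : s ∈ P.support
    · have h1 := hmax s hs
      have h2 : O.valuation (coeff s₀ P) ≠ 0 := (Valuation.ne_zero_iff _).2 hc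
      rw [inv_mul_le_iff₀ (zero_lt_iff.2 h2), mul_one]
      exact h1
    · rw [notMem_support_iff.1 hs, map_zero, mul_zero]
      exact zero_le_one
  obtain ⟨Q, hQ⟩ : C (coeff s₀ P)⁻¹ * P ∈ Set.range (map (algebraMap O K)) := by
    rw [mem_range_map_iff_coeffs_subset]
    intro x hx
    obtain ⟨s, -, rfl⟩ := mem_coeffs_iff.1 (Finset.mem_coe.1 hx)
    exact ⟨⟨_, hmem s⟩, rfl⟩
  refine ⟨(coeff s₀ P)⁻¹, Q, inv_ne_zero hc, hQ, s₀, ?_⟩
  have h3 : algebraMap O K (coeff s₀ Q) = 1 := by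
    rw [← coeff_map, hQ, coeff_C_mul, inv_mul_cancel₀ hc]
  exact Subtype.ext (by simpa using h3)

theorem exists_unit [Infinite (IsLocalRing.ResidueField O)] {σ : Type*} (Q : MvPolynomial σ O)
    {s : σ →₀ ℕ} (hs : coeff s Q = 1) : ∃ v : σ → O, IsUnit (eval v Q) := by
  by_contra hcon
  push Not at hcon
  have h1 : map (IsLocalRing.residue O) Q = 0 := by
    refine MvPolynomial.funext fun x => ?_
    have h2 : ∀ i, ∃ c, IsLocalRing.residue O c = x i := fun i => IsLocalRing.residue_surjective _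
    choose v hv using h2
    have h3 : x = fun i => IsLocalRing.residue O (v i) := by
      funext i
      exact (hv i).symm
    have h5 := eval₂_comp_left (IsLocalRing.residue O) (RingHom.id O) v Q
    rw [RingHom.comp_id] at h5
    rw [h3, map_zero, eval_map]
    refine h5.symm.trans ?_
    rw [IsLocalRing.residue_eq_zero_iff, IsLocalRing.mem_maximalIdeal, mem_nonunits_iff]
    exact hcon v
  have h4 : coeff s (map (IsLocalRing.residue O) Q) = 1 := by
    rw [coeff_map, hs, map_one]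
  rw [h1, coeff_zero] at h4
  exact zero_ne_one h4

/-- **The induction step**: a homogeneous relation between the `u i` makes one of them, `u i₀`,
integral over the algebra generated by the `u i - c i u i₀`. -/
theorem step [Infinite (IsLocalRing.ResidueField O)] {σ A : Type*} [Fintype σ] [CommRing A]
    [Algebra K A] (u : σ → A) {P : MvPolynomial σ K} {d : ℕ} (hd : d ≠ 0)
    (hP : P.IsHomogeneous d) (hP0 : P ≠ 0) (h : aeval u P = 0) :
    ∃ (i₀ : σ) (c : σ → O), c i₀ = 1 ∧
      IsIntegral (Algebra.adjoin O (Set.range fun i => u i - c i • u i₀)) (u i₀) := by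
  obtain ⟨a, Q, ha, hQ, s₀, hs₀⟩ := exists_content (O := O) P hP0
  obtain ⟨v, hv⟩ := exists_unit Q hs₀
  have hQd : Q.IsHomogeneous d := by
    intro s hs
    refine hP (d := s) ?_
    intro h0
    apply hs
    have h1 : algebraMap O K (coeff s Q) = 0 := by
      rw [← coeff_map, hQ, coeff_C_mul, h0, mul_zero]
    exact Subtype.ext (by simpa using h1)
  obtain ⟨i₀, hi₀⟩ : ∃ i, IsUnit (v i) := by
    by_contra hcon
    push Not at hcon
    have h0 : ∀ i, IsLocalRing.residue O (v i) = 0 := fun i => by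
      rw [IsLocalRing.residue_eq_zero_iff, IsLocalRing.mem_maximalIdeal, mem_nonunits_iff]
      exact hcon i
    have h1 : IsLocalRing.residue O (eval v Q) = 0 := by
      have h5 := eval₂_comp_left (IsLocalRing.residue O) (RingHom.id O) v Q
      have h6 := eval_smul_of_homogeneous (hQd.map (IsLocalRing.residue O)) 0 0
      rw [zero_pow hd, zero_mul] at h6
      rw [RingHom.comp_id] at h5
      refine h5.trans ?_
      rw [← eval_map, ← h6]
      congr 2
      funext i
      rw [Function.comp_apply, h0 i, zero_mul]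
    exact (IsUnit.map (IsLocalRing.residue O) hv).ne_zero h1
  obtain ⟨e, he⟩ := hi₀
  set c : σ → O := fun i => ↑e⁻¹ * v i with hc
  have hcu : IsUnit (eval c Q) := by
    rw [hc, eval_smul_of_homogeneous hQd]
    exact (IsUnit.pow d (Units.isUnit _)).mul hv
  refine ⟨i₀, c, ?_, ?_⟩
  · rw [hc]
    simp only []
    rw [← he, Units.inv_mul]
  set S := Algebra.adjoin O (Set.range fun i => u i - c i • u i₀) with hS
  have hmem : ∀ i, u i - c i • u i₀ ∈ S := fun i => Algebra.subset_adjoin ⟨i, rfl⟩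
  set w : σ → S := fun i => ⟨_, hmem i⟩ with hw
  obtain ⟨ε, hε⟩ := hcu
  -- the polynomial
  have hline := coeff_line (map (algebraMap O S) Q) (hQd.map _) w
    (fun i => algebraMap O S (c i))
  set F : Polynomial S := aeval (fun i => Polynomial.C (w i) +
    Polynomial.C (algebraMap O S (c i)) * Polynomial.X) (map (algebraMap O S) Q) with hF
  have hlead : F.coeff d = algebraMap O S ε := by
    rw [hline.2, hε, eval_map]
    exact (eval₂_comp_left (algebraMap O S) (RingHom.id O) c Q).symm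
  have hroot : Polynomial.aeval (u i₀) F = 0 := by
    have h1 : Polynomial.aeval (u i₀) F = aeval u (map (algebraMap O S) Q) := by
      rw [hF]
      have h2 : (Polynomial.aeval (R := S) (u i₀)).comp (aeval (fun i => Polynomial.C (w i) +
          Polynomial.C (algebraMap O S (c i)) * Polynomial.X)) = (aeval u : MvPolynomial σ S →ₐ[S] A) := by
        refine MvPolynomial.algHom_ext fun i => ?_
        rw [AlgHom.comp_apply, aeval_X, aeval_X, map_add, map_mul, Polynomial.aeval_C,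
          Polynomial.aeval_C, Polynomial.aeval_X]
        have h3 : algebraMap S A (w i) = u i - c i • u i₀ := rfl
        have h4 : algebraMap S A (algebraMap O S (c i)) * u i₀ = c i • u i₀ := by
          rw [← IsScalarTower.algebraMap_apply, Algebra.smul_def]
        rw [h3, h4, sub_add_cancel]
      exact DFunLike.congr_fun h2 _
    rw [h1, aeval_def, eval₂_map, ← IsScalarTower.algebraMap_eq]
    have h5 : eval₂ (algebraMap O A) u Q = aeval u (map (algebraMap O K) Q) := by
      rw [aeval_def, eval₂_map]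
      rfl
    rw [h5, hQ, map_mul, h, mul_zero]
  refine ⟨Polynomial.C (algebraMap O S ↑ε⁻¹) * F, ?_, ?_⟩
  · refine Polynomial.monic_of_natDegree_le_of_coeff_eq_one d ?_ ?_
    · exact (Polynomial.natDegree_C_mul_le _ _).trans hline.1
    · rw [Polynomial.coeff_C_mul, hlead, ← map_mul, Units.inv_mul, map_one]
  · rw [← Polynomial.aeval_def, map_mul, hroot, mul_zero]

end Val

/-! ### Homogeneous relations -/

theorem isHomogeneous_lin {R : Type*} [CommRing R] {σ : Type} [Fintype σ] (a : σ → R) :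
    (lin a).IsHomogeneous 1 := by
  rw [lin]
  refine IsHomogeneous.sum _ _ _ fun j _ => ?_
  have := (isHomogeneous_C σ (a j)).mul (isHomogeneous_X R j)
  rwa [zero_add] at this

theorem aeval_component {R ι : Type*} [CommRing R] {σ : Type} (g : ι → MvPolynomial σ R)
    (hg : ∀ i, (g i).IsHomogeneous 1) (G : MvPolynomial ι R) (n : ℕ) :
    aeval g (homogeneousComponent n G) = homogeneousComponent n (aeval g G) := by
  have hh : ∀ m, (aeval g (homogeneousComponent m G)).IsHomogeneous m := by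
    intro m
    have := (homogeneousComponent_isHomogeneous m G).aeval g hg
    rwa [one_mul] at this
  have h1 : aeval g G = ∑ m ∈ Finset.range (G.totalDegree + 1),
      aeval g (homogeneousComponent m G) := by
    rw [← map_sum, sum_homogeneousComponent]
  rw [h1, map_sum]
  by_cases hn : n < G.totalDegree + 1
  · rw [Finset.sum_eq_single n]
    · rw [homogeneousComponent_of_mem (hh n), if_pos rfl]
    · intro m _ hm
      rw [homogeneousComponent_of_mem (hh m), if_neg (Ne.symm hm)]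
    · intro hcon
      exact absurd (Finset.mem_range.2 hn) hcon
  · rw [homogeneousComponent_eq_zero n G (by omega), map_zero]
    symm
    refine Finset.sum_eq_zero fun m hm => ?_
    rw [homogeneousComponent_of_mem (hh m), if_neg]
    have := Finset.mem_range.1 hm
    omega

/-! ### The classes of the linear forms -/

section Cls

variable {K : Type*} [Field K] {O : ValuationSubring K} {σ : Type} [Fintype σ]

/-- the classes of the linear forms -/
noncomputable def cls (𝔭 : Ideal (MvPolynomial σ K)) {k : ℕ} (ℓ : Fin k → σ → O) (i : Fin k) :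
    MvPolynomial σ K ⧸ 𝔭 := Ideal.Quotient.mk 𝔭 (lin fun j => (ℓ i j : K))

theorem lin_single [DecidableEq σ] (a : σ) :
    lin (fun j => (((if a = j then 1 else 0 : O)) : K)) = X a := by
  rw [lin, Finset.sum_eq_single a]
  · simp
  · intro b _ hb
    simp [Ne.symm hb]
  · intro h
    exact absurd (Finset.mem_univ a) h

theorem lin_sub (a b : σ → O) (c : O) :
    lin (fun j => ((a j - c * b j : O) : K)) =
      lin (fun j => (a j : K)) - (c : K) • lin (fun j => (b j : K)) := by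
  rw [lin, lin, lin, Finset.smul_sum, ← Finset.sum_sub_distrib]
  refine Finset.sum_congr rfl fun j _ => ?_
  have h1 : ((a j - c * b j : O) : K) = (a j : K) - (c : K) * (b j : K) := rfl
  rw [h1, C_sub, C_mul, smul_eq_C_mul]
  ring

theorem exists_poly (𝔭 : Ideal (MvPolynomial σ K)) {k : ℕ} (ℓ : Fin k → σ → O) {j : σ}
    (h : IsIntegral (Algebra.adjoin O (Set.range (cls 𝔭 ℓ))) (Ideal.Quotient.mk 𝔭 (X j))) :
    ∃ q : Polynomial (MvPolynomial (Fin k) O), q.Monic ∧
        q.eval₂ (eval₂Hom (C.comp O.subtype) fun i => lin fun j => (ℓ i j : K)) (X j) ∈ 𝔭 := by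
  obtain ⟨p, hp, hpx⟩ := h
  set f : MvPolynomial (Fin k) O →ₐ[O] Algebra.adjoin O (Set.range (cls 𝔭 ℓ)) :=
    (aeval (cls 𝔭 ℓ)).codRestrict _ fun x => by
      rw [Algebra.adjoin_range_eq_range_aeval]
      exact ⟨x, rfl⟩ with hf
  have hfs : Function.Surjective f.toRingHom := by
    rintro ⟨x, hx⟩
    have hx' := hx
    rw [Algebra.adjoin_range_eq_range_aeval] at hx'
    obtain ⟨y, hy⟩ := hx'
    exact ⟨y, Subtype.ext hy⟩
  have hl : p ∈ Polynomial.lifts f.toRingHom := by
    rw [Polynomial.lifts_iff_coeff_lifts]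
    exact fun n => hfs _
  obtain ⟨q, hq, -, hqm⟩ := Polynomial.lifts_and_natDegree_eq_and_monic hl hp
  refine ⟨q, hqm, ?_⟩
  rw [← Ideal.Quotient.eq_zero_iff_mem, Polynomial.hom_eval₂]
  rw [← hq, Polynomial.eval₂_map] at hpx
  rw [← hpx]
  congr 1
  refine MvPolynomial.ringHom_ext (fun a => ?_) fun i => ?_
  · rw [RingHom.comp_apply, coe_eval₂Hom, eval₂_C, RingHom.comp_apply]
    have h1 : (algebraMap (Algebra.adjoin O (Set.range (cls 𝔭 ℓ))) (MvPolynomial σ K ⧸ 𝔭)).comp
        f.toRingHom (C a) = aeval (cls 𝔭 ℓ) (C a) := rfl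
    rw [h1, aeval_C]
    rfl
  · rw [RingHom.comp_apply, coe_eval₂Hom, eval₂_X]
    have h1 : (algebraMap (Algebra.adjoin O (Set.range (cls 𝔭 ℓ))) (MvPolynomial σ K ⧸ 𝔭)).comp
        f.toRingHom (X i) = aeval (cls 𝔭 ℓ) (X i) := rfl
    rw [h1, aeval_X]
    rfl

end Cls

end LiftP

open LiftP

theorem exists_forms_val {K : Type*} [Field K] (O : ValuationSubring K)
    [Infinite (IsLocalRing.ResidueField O)] {σ : Type} [Fintype σ]
    (𝔭 : Ideal (MvPolynomial σ K)) (hhom : IsHom 𝔭) (hne : 𝔭 ≠ ⊤) : ∃ (k : ℕ) (ℓ : Fin k → σ → O),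
      (∀ G : MvPolynomial (Fin k) K, aeval (fun i => lin fun j => (ℓ i j : K)) G ∈ 𝔭 → G = 0) ∧
      ∀ j, ∃ q : Polynomial (MvPolynomial (Fin k) O), q.Monic ∧
        q.eval₂ (eval₂Hom (C.comp O.subtype) fun i => lin fun j => (ℓ i j : K)) (X j) ∈ 𝔭 := by
  classical
  have hex : ∃ k : ℕ, ∃ ℓ : Fin k → σ → O, ∀ j,
      IsIntegral (Algebra.adjoin O (Set.range (cls 𝔭 ℓ))) (Ideal.Quotient.mk 𝔭 (X j)) := by
    refine ⟨Fintype.card σ, fun i j => if (Fintype.equivFin σ).symm i = j then 1 else 0,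
      fun j => ?_⟩
    have h1 : Ideal.Quotient.mk 𝔭 (X j) ∈ Algebra.adjoin O (Set.range
        (cls 𝔭 fun i j => if (Fintype.equivFin σ).symm i = j then (1 : O) else 0)) := by
      refine Algebra.subset_adjoin ⟨Fintype.equivFin σ j, ?_⟩
      rw [cls]
      simp only [Equiv.symm_apply_apply]
      rw [lin_single]
    exact isIntegral_algebraMap (x := (⟨_, h1⟩ : Algebra.adjoin O (Set.range
        (cls 𝔭 fun i j => if (Fintype.equivFin σ).symm i = j then (1 : O) else 0))))
  obtain ⟨k, ⟨ℓ, hℓ⟩, hmin⟩ : ∃ k : ℕ, (∃ ℓ : Fin k → σ → O, ∀ j,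
      IsIntegral (Algebra.adjoin O (Set.range (cls 𝔭 ℓ))) (Ideal.Quotient.mk 𝔭 (X j))) ∧
      ∀ k' < k, ¬ ∃ ℓ : Fin k' → σ → O, ∀ j,
      IsIntegral (Algebra.adjoin O (Set.range (cls 𝔭 ℓ))) (Ideal.Quotient.mk 𝔭 (X j)) :=
    ⟨Nat.find hex, Nat.find_spec hex, fun k' hk' => Nat.find_min hex hk'⟩
  refine ⟨k, ℓ, fun G hG => ?_, fun j => exists_poly 𝔭 ℓ (hℓ j)⟩
  by_contra hG0
  obtain ⟨d, hd⟩ : ∃ d, homogeneousComponent d G ≠ 0 := by
    by_contra hcon
    push Not at hcon
    apply hG0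
    rw [← sum_homogeneousComponent G]
    exact Finset.sum_eq_zero fun d _ => hcon d
  have hmem : aeval (fun i => lin fun j => (ℓ i j : K)) (homogeneousComponent d G) ∈ 𝔭 := by
    rw [aeval_component _ (fun i => isHomogeneous_lin _)]
    exact hhom _ hG d
  have hd0 : d ≠ 0 := by
    rintro rfl
    rw [homogeneousComponent_zero] at hd hmem
    rw [aeval_C] at hmem
    have hc : coeff 0 G ≠ 0 := fun h => hd (by rw [h, C_0])
    refine hne (Ideal.eq_top_of_isUnit_mem _ hmem ?_)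
    exact (IsUnit.mk0 _ hc).map _
  have hrel : aeval (cls 𝔭 ℓ) (homogeneousComponent d G) = 0 := by
    rw [← Ideal.Quotient.eq_zero_iff_mem] at hmem
    rw [← hmem]
    have := DFunLike.congr_fun (comp_aeval (fun i => lin fun j => (ℓ i j : K))
      (Ideal.Quotient.mkₐ K 𝔭)) (homogeneousComponent d G)
    exact this.symm
  obtain ⟨i₀, c, hc, hint⟩ := step (O := O) (cls 𝔭 ℓ) hd0
    (homogeneousComponent_isHomogeneous d G) hd hrel
  cases k with
  | zero => exact i₀.elim0
  | succ k =>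
    refine hmin k (Nat.lt_succ_self k) ⟨fun i t => ℓ (i₀.succAbove i) t -
      c (i₀.succAbove i) * ℓ i₀ t, fun j => ?_⟩
    set ℓ' : Fin k → σ → O := fun i t => ℓ (i₀.succAbove i) t - c (i₀.succAbove i) * ℓ i₀ t
      with hℓ'
    have hcls : ∀ i, cls 𝔭 ℓ' i = cls 𝔭 ℓ (i₀.succAbove i) -
        c (i₀.succAbove i) • cls 𝔭 ℓ i₀ := by
      intro i
      rw [cls, hℓ', lin_sub, map_sub]
      rfl
    have hdiff : ∀ i, IsIntegral (Algebra.adjoin O (Set.range (cls 𝔭 ℓ')))
        (cls 𝔭 ℓ i - c i • cls 𝔭 ℓ i₀) := by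
      intro i
      rcases eq_or_ne i i₀ with rfl | hi
      · rw [hc, one_smul, sub_self]
        exact isIntegral_zero
      · obtain ⟨t, rfl⟩ := Fin.exists_succAbove_eq hi
        rw [← hcls]
        have h1 : cls 𝔭 ℓ' t ∈ Algebra.adjoin O (Set.range (cls 𝔭 ℓ')) :=
          Algebra.subset_adjoin ⟨t, rfl⟩
        exact isIntegral_algebraMap
          (x := (⟨_, h1⟩ : Algebra.adjoin O (Set.range (cls 𝔭 ℓ'))))
    have h0 : IsIntegral (Algebra.adjoin O (Set.range (cls 𝔭 ℓ'))) (cls 𝔭 ℓ i₀) := by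
      refine int_trans ?_ hint
      rintro _ ⟨i, rfl⟩
      exact hdiff i
    refine int_trans ?_ (hℓ j)
    rintro _ ⟨i, rfl⟩
    have h1 : cls 𝔭 ℓ i = (cls 𝔭 ℓ i - c i • cls 𝔭 ℓ i₀) + c i • cls 𝔭 ℓ i₀ := by
      rw [sub_add_cancel]
    rw [h1]
    exact (hdiff i).add (h0.smul (c i))

end Pool.Agent.KRFW

end

section

/-!
# The coverings of cones over a valuation ring (helper70, helper51)
-/

open MvPolynomial Filter Topology

namespace Pool.Agent.KRFW

theorem prime_sheets {K : Type*} [Field K] [IsAlgClosed K] [CharZero K] (O : ValuationSubring K)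
    [Infinite (IsLocalRing.ResidueField O)] {σ : Type} [Fintype σ]
    (𝔭 : Ideal (MvPolynomial σ K)) (hhom : IsHom 𝔭) (hp : 𝔭.IsPrime) : ∃ (k D : ℕ) (ℓ : Fin k → σ → K) (Φ : MvPolynomial (Ix k σ) K),
      (∀ i j, ℓ i j ∈ O) ∧
      (∀ w, ∃ X : Fin D → σ → K, IsTup (zeros (𝔭 : Set (MvPolynomial σ K))) ℓ Φ w X) ∧
      (∀ x ∈ zeros (𝔭 : Set (MvPolynomial σ K)), ∃ X : Fin D → σ → K,
        IsTup (zeros (𝔭 : Set (MvPolynomial σ K))) ℓ Φ (fun i => ∑ j, ℓ i j * x j) X ∧
          ∃ m, X m = x) ∧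
      ∀ x ∈ zeros (𝔭 : Set (MvPolynomial σ K)), (∀ i, ∑ j, ℓ i j * x j ∈ O) → ∀ j, x j ∈ O := by
  have := hp
  exact PrimeD.sheets_of O (exists_forms_val O 𝔭 hhom hp.ne_top) fun k y hinj hint =>
    exists_tup (PrimeD.xq 𝔭) y PrimeD.adjoin_xq hinj hint

theorem cone_sheets {K : Type*} [Field K] [IsAlgClosed K] [CharZero K] (O : ValuationSubring K)
    [Infinite (IsLocalRing.ResidueField O)] {σ : Type} [Fintype σ]
    (S : Set (MvPolynomial σ K)) (hS : ∀ P ∈ S, ∃ d, P.IsHomogeneous d) :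
    ∃ (r : ℕ) (k D : Fin r → ℕ) (ℓ : ∀ i, Fin (k i) → σ → K)
      (Φ : ∀ i, MvPolynomial (Ix (k i) σ) K), (∀ i a j, ℓ i a j ∈ O) ∧
      (∀ i w, ∃ X : Fin (D i) → σ → K, IsTup (zeros S) (ℓ i) (Φ i) w X ∧
        ∀ c : K, c ≠ 0 → (∀ a, w a / c ∈ O) → ∀ m j, X m j / c ∈ O) ∧
      ∀ x ∈ zeros S, ∃ i, ∀ c : K, ∃ X : Fin (D i) → σ → K,
        IsTup (zeros S) (ℓ i) (Φ i) (fun a => ∑ j, ℓ i a j * (c * x j)) X ∧ ∃ m, X m = c • x :=
  cone_sheets_of O S hS fun 𝔭 h hp => prime_sheets O 𝔭 h hp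

end Pool.Agent.KRFW

end

section

/-!
# Uniform coverings of cones by tuples (transfer from the ultrapower)
-/

set_option autoImplicit false

open MvPolynomial Filter Topology
open Pool.Agent.KRFN Pool.Agent.KRFN.Ultra Pool.Agent.KRFN.Loj

namespace Pool.Agent.KRFW

theorem exists_const {ι : Type*} [Finite ι] {p : ι → ℕ → Prop}
    (h : ∀ᶠ n in (hyperfilter ℕ : Filter ℕ), ∃ i, p i n) :
    ∃ i, ∀ᶠ n in (hyperfilter ℕ : Filter ℕ), p i n := by
  by_contra! hc
  have h1 : ∀ᶠ n in (hyperfilter ℕ : Filter ℕ), ∀ i, ¬ p i n :=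
    eventually_all.2 fun i => hc i
  obtain ⟨n, ⟨i, h2⟩, h3⟩ := (h.and h1).exists
  exact h3 i h2

theorem eventually_ge (C : ℕ) : ∀ᶠ n in (hyperfilter ℕ : Filter ℕ), C ≤ n :=
  eventually_of_atTop (eventually_ge_atTop C)

/-- representatives of a family of elements of the ultrapower -/
theorem exists_rep {ι : Type*} (f : ι → KK) : ∃ F : ℕ → ι → ℂ, f = fun i => cr fun n => F n i := by
  choose G hG using fun i => cr_surj (f i)
  exact ⟨fun n i => G i n, funext fun i => (hG i).symm⟩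

theorem exists_rep₂ {ι κ : Type*} (f : ι → κ → KK) :
    ∃ F : ℕ → ι → κ → ℂ, f = fun i j => cr fun n => F n i j := by
  choose G hG using fun i => exists_rep (f i)
  exact ⟨fun n i => G i n, funext fun i => hG i⟩

theorem mem_zeros_of {σ τ : Type} [Fintype σ] [Fintype τ] {S : Finset (MvPolynomial (σ ⊕ τ) ℂ)}
    {y : ℕ → τ → ℂ} {x : ℕ → σ → ℂ}
    (h : ∀ᶠ n in (hyperfilter ℕ : Filter ℕ), Gam S (x n) (y n)) :
    (fun j => cr fun n => x n j) ∈ zeros (spec cc (fun t => cr fun n => y n t) ''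
      (S : Set (MvPolynomial (σ ⊕ τ) ℂ))) := by
  rintro _ ⟨P, hP, rfl⟩
  rw [eval_spec]
  have h1 : (Sum.elim (fun j => cr fun n => x n j) fun t => cr fun n => y n t : σ ⊕ τ → KK) =
      fun i => cr ((fun i n => (Sum.elim (x n) (y n) : σ ⊕ τ → ℂ) i) i) := by
    funext i
    rcases i with i | i <;> rfl
  rw [h1, cr_eval, cr_eq_zero]
  filter_upwards [h] with n hn
  exact hn P hP

/-- The statement of `cone_sheets` over the ultrapower. -/
def ConeSheets (σ : Type) [Fintype σ] : Prop :=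
  ∀ S : Set (MvPolynomial σ KK), (∀ P ∈ S, ∃ d, P.IsHomogeneous d) →
    ∃ (r : ℕ) (k D : Fin r → ℕ) (ℓ : ∀ i, Fin (k i) → σ → KK)
      (Φ : ∀ i, MvPolynomial (Ix (k i) σ) KK), (∀ i a j, ℓ i a j ∈ FO) ∧
      (∀ i w, ∃ X : Fin (D i) → σ → KK, IsTup (zeros S) (ℓ i) (Φ i) w X ∧
        ∀ c : KK, c ≠ 0 → (∀ a, w a / c ∈ FO) → ∀ m j, X m j / c ∈ FO) ∧
      ∀ x ∈ zeros S, ∃ i, ∀ c : KK, ∃ X : Fin (D i) → σ → KK,
        IsTup (zeros S) (ℓ i) (Φ i) (fun a => ∑ j, ℓ i a j * (c * x j)) X ∧ ∃ m, X m = c • x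

theorem sheets_unif_of {σ τ : Type} [Fintype σ] [Fintype τ] (hcone : ConeSheets σ)
    (S : Finset (MvPolynomial (σ ⊕ τ) ℂ))
    (hS : ∀ P ∈ S, ∃ d : ℕ, ∀ (c : ℂ) (x : σ → ℂ) (y : τ → ℂ),
      eval (Sum.elim (c • x) y) P = c ^ d * eval (Sum.elim x y) P) :
    ∃ D₀ : ℕ, ∀ y : τ → ℂ, ‖y‖ ≤ 1 → ∃ r ≤ D₀, ∃ (k D : Fin r → ℕ)
      (ℓ : ∀ i, Fin (k i) → σ → ℂ) (Φ : ∀ i, MvPolynomial (Ix (k i) σ) ℂ),
      (∀ i, k i ≤ D₀ ∧ D i ≤ D₀) ∧ (∀ i a j, ‖ℓ i a j‖ ≤ D₀) ∧
      (∀ i w, ∃ X : Fin (D i) → σ → ℂ, IsTup {x | Gam S x y} (ℓ i) (Φ i) w X ∧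
        ∀ m, ‖X m‖ ≤ D₀ * ‖w‖) ∧
      ∀ x, Gam S x y → ∃ i, ∀ c : ℂ, ∃ X : Fin (D i) → σ → ℂ,
        IsTup {x | Gam S x y} (ℓ i) (Φ i) (fun a => ∑ j, ℓ i a j * (c * x j)) X ∧
          ∃ m, X m = c • x := by
  by_contra hcon
  push Not at hcon
  choose y hy hbad using hcon
  -- the cone over the ultrapower
  have hS' : ∀ P ∈ spec cc (fun t => cr fun n => y n t) '' (S : Set (MvPolynomial (σ ⊕ τ) ℂ)),
      ∃ d, P.IsHomogeneous d := by
    rintro _ ⟨P, hP, rfl⟩
    obtain ⟨d, hd⟩ := hS P hP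
    exact ⟨d, isHomogeneous_spec cc _ hd⟩
  obtain ⟨r, k, D, ℓ', Φ, hℓ, hb, hc⟩ := hcone _ hS'
  choose ℓ hℓr using fun i => exists_rep₂ (ℓ' i)
  choose F hF using fun i => lift_poly (Φ i)
  -- the bounds
  obtain ⟨C₀, hC₀⟩ : ∃ C : ℕ, ∀ᶠ n in (hyperfilter ℕ : Filter ℕ),
      ∀ p : (i : Fin r) × (Fin (k i) × σ), ‖ℓ p.1 n p.2.1 p.2.2‖ ≤ C :=
    exists_bound_FO (F := fun (p : (i : Fin r) × (Fin (k i) × σ)) n => ℓ p.1 n p.2.1 p.2.2)
      fun p => by
        have h1 := hℓ p.1 p.2.1 p.2.2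
        rw [hℓr] at h1
        exact h1
  obtain ⟨C₁, hC₁⟩ : ∃ C : ℕ, ∀ i, k i ≤ C ∧ D i ≤ C := by
    refine ⟨∑ i, (k i + D i), fun i => ?_⟩
    have h1 := Finset.single_le_sum (f := fun i => k i + D i) (fun i _ => Nat.zero_le _)
      (Finset.mem_univ i)
    omega
  -- failure
  have hfail : ∀ᶠ n in (hyperfilter ℕ : Filter ℕ),
      (∃ i, ∃ w : Fin (k i) → ℂ, ∀ X : Fin (D i) → σ → ℂ,
        IsTup {x | Gam S x (y n)} (ℓ i n) (F i n) w X → ∃ m, n * ‖w‖ < ‖X m‖) ∨
      ∃ x, Gam S x (y n) ∧ ∀ i, ∃ c : ℂ, ∀ X : Fin (D i) → σ → ℂ,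
        IsTup {x | Gam S x (y n)} (ℓ i n) (F i n) (fun a => ∑ j, ℓ i n a j * (c * x j)) X →
          ∀ m, X m ≠ c • x := by
    filter_upwards [hC₀, eventually_ge C₀, eventually_ge C₁, eventually_ge r] with n h1 h2 h3 h4
    by_contra! hcon
    obtain ⟨hA, hB⟩ := hcon
    obtain ⟨x, hx, hx2⟩ := hbad n r h4 k D (fun i => ℓ i n) (fun i => F i n)
      (fun i => ⟨(hC₁ i).1.trans h3, (hC₁ i).2.trans h3⟩)
      (fun i a j => (h1 ⟨i, (a, j)⟩).trans (by exact_mod_cast h2)) hA
    obtain ⟨i, hi⟩ := hB x hx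
    obtain ⟨c, hc2⟩ := hx2 i
    obtain ⟨X, hX, m, hm⟩ := hi c
    exact hc2 X hX m hm
  rcases Ultrafilter.eventually_or.1 hfail with hf | hf
  · -- the covering of `w`
    obtain ⟨i, hi⟩ := exists_const hf
    have hw : ∃ w : ℕ → Fin (k i) → ℂ, ∀ᶠ n in (hyperfilter ℕ : Filter ℕ),
        ∀ X : Fin (D i) → σ → ℂ,
          IsTup {x | Gam S x (y n)} (ℓ i n) (F i n) (w n) X → ∃ m, n * ‖w n‖ < ‖X m‖ := by
      classical
      refine ⟨fun n => if h : ∃ w : Fin (k i) → ℂ, ∀ X : Fin (D i) → σ → ℂ,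
        IsTup {x | Gam S x (y n)} (ℓ i n) (F i n) w X → ∃ m, n * ‖w‖ < ‖X m‖
        then h.choose else 0, ?_⟩
      filter_upwards [hi] with n hn
      rw [dif_pos hn]
      exact hn.choose_spec
    obtain ⟨w, hw⟩ := hw
    obtain ⟨X', hX', hXc⟩ := hb i fun a => cr fun n => w n a
    obtain ⟨X, rfl⟩ := exists_rep₂ X'
    rw [hℓr i] at hX'
    obtain ⟨C, hC⟩ := bound_transfer w X hXc
    obtain ⟨n, ⟨⟨h1, h2⟩, h3⟩, h4⟩ :=
      (((hw.and (tup_transfer S y (ℓ i) (hF i) w X hX')).and hC).and (eventually_ge C)).exists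
    obtain ⟨m, hm⟩ := h1 _ h2
    have h5 := h3 m
    have h6 : (C : ℝ) * ‖w n‖ ≤ n * ‖w n‖ :=
      mul_le_mul_of_nonneg_right (by exact_mod_cast h4) (norm_nonneg _)
    linarith
  · -- the covering of the points
    have hx : ∃ x : ℕ → σ → ℂ, ∀ᶠ n in (hyperfilter ℕ : Filter ℕ),
        Gam S (x n) (y n) ∧ ∀ i, ∃ c : ℂ, ∀ X : Fin (D i) → σ → ℂ,
          IsTup {x | Gam S x (y n)} (ℓ i n) (F i n) (fun a => ∑ j, ℓ i n a j * (c * x n j)) X →
            ∀ m, X m ≠ c • x n := by
      classical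
      refine ⟨fun n => if h : ∃ x, Gam S x (y n) ∧ ∀ i, ∃ c : ℂ, ∀ X : Fin (D i) → σ → ℂ,
        IsTup {x | Gam S x (y n)} (ℓ i n) (F i n) (fun a => ∑ j, ℓ i n a j * (c * x j)) X →
          ∀ m, X m ≠ c • x then h.choose else 0, ?_⟩
      filter_upwards [hf] with n hn
      rw [dif_pos hn]
      exact hn.choose_spec
    obtain ⟨x, hx⟩ := hx
    obtain ⟨i, hi⟩ := hc _ (mem_zeros_of (hx.mono fun n hn => hn.1))
    have hcn : ∃ c : ℕ → ℂ, ∀ᶠ n in (hyperfilter ℕ : Filter ℕ), ∀ X : Fin (D i) → σ → ℂ,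
        IsTup {x | Gam S x (y n)} (ℓ i n) (F i n) (fun a => ∑ j, ℓ i n a j * (c n * x n j)) X →
          ∀ m, X m ≠ c n • x n := by
      classical
      refine ⟨fun n => if h : ∃ c : ℂ, ∀ X : Fin (D i) → σ → ℂ,
        IsTup {x | Gam S x (y n)} (ℓ i n) (F i n) (fun a => ∑ j, ℓ i n a j * (c * x n j)) X →
          ∀ m, X m ≠ c • x n then h.choose else 0, ?_⟩
      filter_upwards [hx] with n hn
      have h1 := hn.2 i
      rw [dif_pos h1]
      exact h1.choose_spec
    obtain ⟨c, hcn⟩ := hcn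
    obtain ⟨X', hX', m, hm⟩ := hi (cr c)
    obtain ⟨X, rfl⟩ := exists_rep₂ X'
    have hw : (fun a => ∑ j, ℓ' i a j * (cr c * cr fun n => x n j)) =
        fun a => cr fun n => ∑ j, ℓ i n a j * (c n * x n j) := by
      funext a
      rw [hℓr i]
      simp only
      have h1 : (fun n => ∑ j, ℓ i n a j * (c n * x n j)) =
          ∑ j, (fun n => ℓ i n a j) * (c * fun n => x n j) := by
        funext n
        simp
      rw [h1, map_sum]
      simp only [map_mul]
    rw [hw, hℓr i] at hX'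
    have h2 : ∀ᶠ n in (hyperfilter ℕ : Filter ℕ), X n m = c n • x n := by
      have h3 : ∀ᶠ n in (hyperfilter ℕ : Filter ℕ), ∀ j, X n m j = c n * x n j := by
        refine eventually_all.2 fun j => cr_eq.1 ?_
        have h4 := congrFun hm j
        simp only [Pi.smul_apply, smul_eq_mul] at h4
        rw [← map_mul] at h4
        exact h4
      filter_upwards [h3] with n hn
      exact funext hn
    obtain ⟨n, ⟨h3, h4⟩, h5⟩ := ((hcn.and
      (tup_transfer S y (ℓ i) (hF i) (fun n a => ∑ j, ℓ i n a j * (c n * x n j)) X hX')).and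
      h2).exists
    exact h3 _ h4 m h5

theorem sheets_unif {σ τ : Type} [Fintype σ] [Fintype τ] (S : Finset (MvPolynomial (σ ⊕ τ) ℂ))
    (hS : ∀ P ∈ S, ∃ d : ℕ, ∀ (c : ℂ) (x : σ → ℂ) (y : τ → ℂ),
      eval (Sum.elim (c • x) y) P = c ^ d * eval (Sum.elim x y) P) :
    ∃ D₀ : ℕ, ∀ y : τ → ℂ, ‖y‖ ≤ 1 → ∃ r ≤ D₀, ∃ (k D : Fin r → ℕ)
      (ℓ : ∀ i, Fin (k i) → σ → ℂ) (Φ : ∀ i, MvPolynomial (Ix (k i) σ) ℂ),
      (∀ i, k i ≤ D₀ ∧ D i ≤ D₀) ∧ (∀ i a j, ‖ℓ i a j‖ ≤ D₀) ∧
      (∀ i w, ∃ X : Fin (D i) → σ → ℂ, IsTup {x | Gam S x y} (ℓ i) (Φ i) w X ∧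
        ∀ m, ‖X m‖ ≤ D₀ * ‖w‖) ∧
      ∀ x, Gam S x y → ∃ i, ∀ c : ℂ, ∃ X : Fin (D i) → σ → ℂ,
        IsTup {x | Gam S x y} (ℓ i) (Φ i) (fun a => ∑ j, ℓ i a j * (c * x j)) X ∧
          ∃ m, X m = c • x :=
  sheets_unif_of (fun T hT => cone_sheets FO T hT) S hS

end Pool.Agent.KRFW

end

section

/-!
# The universal family of the zero sets of forms of degree `d` (KRF VII, helper22)
-/

open MvPolynomial
open Pool.Agent.KRFN.Loj

namespace Pool.Agent.KRFW

/-- the exponents of degree `d` -/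
noncomputable def mons (σ : Type) [Fintype σ] (d : ℕ) : Finset (σ →₀ ℕ) := by
  classical
  exact Finset.univ.finsuppAntidiag d

theorem mem_mons {σ : Type} [Fintype σ] {d : ℕ} {m : σ →₀ ℕ} :
    m ∈ mons σ d ↔ ∑ i, m i = d := by
  classical
  unfold mons
  simp [Finset.mem_finsuppAntidiag]

/-- the universal family of `|mons σ d|` forms of degree `d` -/
noncomputable def univForm (σ : Type) [Fintype σ] (d : ℕ) (i : mons σ d) :
    MvPolynomial (σ ⊕ (mons σ d × mons σ d)) ℂ :=
  ∑ m : mons σ d, X (Sum.inr (i, m)) * ∏ j, X (Sum.inl j) ^ (m.1 j)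

theorem eval_univForm {σ : Type} [Fintype σ] {d : ℕ} (i : mons σ d) (x : σ → ℂ)
    (y : mons σ d × mons σ d → ℂ) :
    eval (Sum.elim x y) (univForm σ d i) = ∑ m : mons σ d, y (i, m) * ∏ j, x j ^ (m.1 j) := by
  simp [univForm]

theorem eval_univForm_smul {σ : Type} [Fintype σ] {d : ℕ} (i : mons σ d) (c : ℂ) (x : σ → ℂ)
    (y : mons σ d × mons σ d → ℂ) :
    eval (Sum.elim (c • x) y) (univForm σ d i) =
      c ^ d * eval (Sum.elim x y) (univForm σ d i) := by
  rw [eval_univForm, eval_univForm, Finset.mul_sum]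
  refine Finset.sum_congr rfl fun m _ => ?_
  have h1 : ∏ j, (c • x) j ^ (m.1 j) = c ^ d * ∏ j, x j ^ (m.1 j) := by
    simp only [Pi.smul_apply, smul_eq_mul, mul_pow]
    rw [Finset.prod_mul_distrib, Finset.prod_pow_eq_pow_sum, mem_mons.1 m.2]
  rw [h1]
  ring

theorem eval_form {σ : Type} [Fintype σ] {d : ℕ} {Q : MvPolynomial σ ℂ} (hQ : Q.IsHomogeneous d)
    (x : σ → ℂ) : eval x Q = ∑ m : mons σ d, Q.coeff m.1 * ∏ j, x j ^ (m.1 j) := by
  classical
  rw [eval_eq' x Q]
  rw [Finset.sum_coe_sort (mons σ d) (fun m => Q.coeff m * ∏ j, x j ^ (m j))]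
  refine Finset.sum_subset ?_ ?_
  · intro m hm
    rw [mem_mons]
    have h := hQ (mem_support_iff.1 hm)
    rw [Finsupp.weight_apply, Finsupp.sum_fintype _ _ (by simp)] at h
    simpa using h
  · intro m _ hm
    rw [notMem_support_iff.1 hm, zero_mul]

/-- the zero set of any set of forms of degree `d` is a member of the universal family -/
theorem exists_coeffs {σ : Type} [Fintype σ] {d : ℕ} (T : Set (MvPolynomial σ ℂ))
    (hT : ∀ Q ∈ T, Q.IsHomogeneous d) : ∃ y : mons σ d × mons σ d → ℂ, ‖y‖ ≤ 1 ∧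
      ∀ x : σ → ℂ, (∀ i, eval (Sum.elim x y) (univForm σ d i) = 0) ↔ x ∈ zeros T := by
  classical
  set W : Submodule ℂ (mons σ d → ℂ) :=
    Submodule.span ℂ ((fun (Q : MvPolynomial σ ℂ) (m : mons σ d) => Q.coeff m.1) '' T) with hW
  obtain ⟨W', hW'⟩ := Submodule.exists_isCompl W
  set π : (mons σ d → ℂ) →ₗ[ℂ] W := Submodule.projectionOnto W W' hW' with hπ
  set y₀ : mons σ d × mons σ d → ℂ := fun p => (π (Pi.single p.1 1) : mons σ d → ℂ) p.2 with hy₀
  have hpos : 0 < 1 + ‖y₀‖ := by positivity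
  have hne : ((1 + ‖y₀‖ : ℝ) : ℂ) ≠ 0 := by exact_mod_cast hpos.ne'
  refine ⟨(((1 + ‖y₀‖ : ℝ) : ℂ)⁻¹) • y₀, ?_, ?_⟩
  · rw [norm_smul, norm_inv, Complex.norm_real, Real.norm_of_nonneg hpos.le,
      inv_mul_le_iff₀ hpos]
    linarith
  · intro x
    set φ : (mons σ d → ℂ) →ₗ[ℂ] ℂ :=
      ∑ m : mons σ d, (∏ j, x j ^ (m.1 j)) • LinearMap.proj m with hφ
    have hφa : ∀ w, φ w = ∑ m : mons σ d, w m * ∏ j, x j ^ (m.1 j) := by
      intro w
      simp [hφ, LinearMap.sum_apply, mul_comm]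
    have h1 : ∀ i, eval (Sum.elim x ((((1 + ‖y₀‖ : ℝ) : ℂ)⁻¹) • y₀)) (univForm σ d i) =
        (((1 + ‖y₀‖ : ℝ) : ℂ)⁻¹) * φ (π (Pi.single i 1) : mons σ d → ℂ) := by
      intro i
      rw [eval_univForm, hφa, Finset.mul_sum]
      refine Finset.sum_congr rfl fun m _ => ?_
      simp only [Pi.smul_apply, smul_eq_mul, hy₀]
      ring
    have h2 : (∀ i, eval (Sum.elim x ((((1 + ‖y₀‖ : ℝ) : ℂ)⁻¹) • y₀)) (univForm σ d i) = 0) ↔
        ∀ w : mons σ d → ℂ, φ (π w : mons σ d → ℂ) = 0 := by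
      constructor
      · intro h w
        have h3 : w = ∑ i, w i • (Pi.single i 1 : mons σ d → ℂ) := by
          funext m
          simp [Finset.sum_apply, Pi.single_apply]
        rw [h3, map_sum]
        simp only [map_smul, Submodule.coe_sum, Submodule.coe_smul, map_sum, smul_eq_mul]
        refine Finset.sum_eq_zero fun i _ => ?_
        have h4 := h i
        rw [h1, mul_eq_zero] at h4
        rcases h4 with h4 | h4
        · exact absurd h4 (inv_ne_zero hne)
        · rw [h4, mul_zero]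
      · intro h i
        rw [h1, h, mul_zero]
    rw [h2]
    have h5 : (∀ w : mons σ d → ℂ, φ (π w : mons σ d → ℂ) = 0) ↔ W ≤ LinearMap.ker φ := by
      constructor
      · intro h w hw
        have h6 : π w = ⟨w, hw⟩ := Submodule.projectionOnto_apply_left hW' ⟨w, hw⟩
        have h7 := h w
        rw [h6] at h7
        exact h7
      · intro h w
        exact h (π w).2
    rw [h5, hW, Submodule.span_le]
    constructor
    · intro h Q hQ
      have h6 := h ⟨Q, hQ, rfl⟩
      rw [SetLike.mem_coe, LinearMap.mem_ker, hφa] at h6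
      rw [eval_form (hT Q hQ)]
      exact h6
    · rintro h _ ⟨Q, hQ, rfl⟩
      rw [SetLike.mem_coe, LinearMap.mem_ker, hφa]
      have h6 := h Q hQ
      rw [eval_form (hT Q hQ)] at h6
      exact h6

/-- the equations of the universal family -/
noncomputable def univEqs (σ : Type) [Fintype σ] (d : ℕ) :
    Finset (MvPolynomial (σ ⊕ (mons σ d × mons σ d)) ℂ) := by
  classical
  exact Finset.univ.image (univForm σ d)

theorem mem_univEqs {σ : Type} [Fintype σ] {d : ℕ}
    {P : MvPolynomial (σ ⊕ (mons σ d × mons σ d)) ℂ} :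
    P ∈ univEqs σ d ↔ ∃ i, univForm σ d i = P := by
  classical
  simp [univEqs]

theorem univEqs_hom (σ : Type) [Fintype σ] (d : ℕ) : ∀ P ∈ univEqs σ d, ∃ d' : ℕ,
    ∀ (c : ℂ) (x : σ → ℂ) (y : mons σ d × mons σ d → ℂ),
      eval (Sum.elim (c • x) y) P = c ^ d' * eval (Sum.elim x y) P := by
  intro P hP
  obtain ⟨i, rfl⟩ := mem_univEqs.1 hP
  exact ⟨d, fun c x y => eval_univForm_smul i c x y⟩

/-- the zero set of any set of forms of degree `d` is a fibre of `Gam (univEqs σ d)` over a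
point of the unit ball -/
theorem exists_gam {σ : Type} [Fintype σ] {d : ℕ} (T : Set (MvPolynomial σ ℂ))
    (hT : ∀ Q ∈ T, Q.IsHomogeneous d) : ∃ y : mons σ d × mons σ d → ℂ, ‖y‖ ≤ 1 ∧
      ∀ x : σ → ℂ, Gam (univEqs σ d) x y ↔ x ∈ zeros T := by
  obtain ⟨y, hy, h⟩ := exists_coeffs T hT
  refine ⟨y, hy, fun x => ?_⟩
  rw [← h x]
  constructor
  · intro h1 i
    exact h1 _ (mem_univEqs.2 ⟨i, rfl⟩)
  · intro h1 P hP
    obtain ⟨i, rfl⟩ := mem_univEqs.1 hP
    exact h1 i

end Pool.Agent.KRFW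

end

section

/-!
# Uniform sheets of the cones defined by forms of degree `d` (KRF VII, helper22)
-/

open MvPolynomial
open Pool.Agent.KRFN.Loj

namespace Pool.Agent.KRFW

theorem sheets_deg (σ : Type) [Fintype σ] (d : ℕ) : ∃ D₀ : ℕ,
    ∀ T : Set (MvPolynomial σ ℂ), (∀ Q ∈ T, Q.IsHomogeneous d) → ∃ r ≤ D₀, ∃ (k D : Fin r → ℕ)
      (ℓ : ∀ i, Fin (k i) → σ → ℂ) (Φ : ∀ i, MvPolynomial (Ix (k i) σ) ℂ),
      (∀ i, k i ≤ D₀ ∧ D i ≤ D₀) ∧ (∀ i a j, ‖ℓ i a j‖ ≤ D₀) ∧
      (∀ i w, ∃ X : Fin (D i) → σ → ℂ, IsTup (zeros T) (ℓ i) (Φ i) w X ∧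
        ∀ m, ‖X m‖ ≤ D₀ * ‖w‖) ∧
      ∀ x ∈ zeros T, ∃ i, ∀ c : ℂ, ∃ X : Fin (D i) → σ → ℂ,
        IsTup (zeros T) (ℓ i) (Φ i) (fun a => ∑ j, ℓ i a j * (c * x j)) X ∧
          ∃ m, X m = c • x := by
  obtain ⟨D₀, hD₀⟩ := sheets_unif (univEqs σ d) (univEqs_hom σ d)
  refine ⟨D₀, fun T hT => ?_⟩
  obtain ⟨y, hy, hgam⟩ := exists_gam T hT
  have hset : {x | Gam (univEqs σ d) x y} = zeros T := Set.ext hgam
  obtain ⟨r, hr, k, D, ℓ, Φ, h1, h2, h3, h4⟩ := hD₀ y hy
  rw [hset] at h3 h4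
  exact ⟨r, hr, k, D, ℓ, Φ, h1, h2, h3, fun x hx => h4 x ((hgam x).2 hx)⟩

end Pool.Agent.KRFW

end
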