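import Pool.Agent.Work.MP_a2bf38_gt.Fu.W.GeoDefs
import Pool.Agent.Work.MP_a2bf38_gt.Fu.Y.Match
import Pool.Agent.Work.MP_a2bf38_gt.Fu.Z.NatC
import Pool.Agent.Work.MP_a2bf38_gt.Fu.Hk.Top
import Pool.Agent.Work.MP_a2bf38_gt.Fu.W.DiscB
import Pool.Agent.Work.MP_a2bf38_gt.Fu.Al.MetricA
import Pool.Agent.Work.MP_a2bf38_gt.Fu.W.EmbDefs
import Pool.Agent.Work.MP_a2bf38_gt.Fu.I.GapB

section

/-!
# Curves in the fibres over a small open set: the assembly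
-/

open scoped ContDiff ENNReal ComplexOrder LinearAlgebra.Projectivization Topology
open Set Filter Pool.Agent.ToricKRF Pool.Agent.ToricKRF.G Pool.Agent.KRFS Pool.Agent.KRFF
  Pool.Agent.KRFG Pool.Agent.KRFZ

namespace Pool.Agent.KRFW

namespace CL

theorem nn_le_norm {L : ℕ} (v : Fin L → ℂ) : nn v ≤ L * ‖v‖ ^ 2 := by
  have h : ∀ i ∈ (Finset.univ : Finset (Fin L)), ‖v i‖ ^ 2 ≤ ‖v‖ ^ 2 := fun i _ =>
    pow_le_pow_left₀ (norm_nonneg _) (norm_le_pi_norm v i) 2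
  refine (Finset.sum_le_card_nsmul _ _ _ h).trans ?_
  rw [nsmul_eq_mul, Finset.card_univ, Fintype.card_fin]

theorem norm_le_nn {L : ℕ} (v : Fin L → ℂ) : ‖v‖ ^ 2 ≤ nn v := by
  have h0 : 0 ≤ nn v := Finset.sum_nonneg fun _ _ => by positivity
  have h1 : ‖v‖ ≤ √(nn v) := by
    refine (pi_norm_le_iff_of_nonneg (Real.sqrt_nonneg _)).2 fun i => ?_
    refine Real.le_sqrt_of_sq_le ?_
    exact Finset.single_le_sum (f := fun i => ‖v i‖ ^ 2) (fun _ _ => by positivity)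
      (Finset.mem_univ i)
  calc ‖v‖ ^ 2 ≤ √(nn v) ^ 2 := pow_le_pow_left₀ (norm_nonneg _) h1 2
    _ = nn v := Real.sq_sqrt h0

theorem nn_zero {L : ℕ} : nn (0 : Fin L → ℂ) = 0 := by simp [nn]

/-- normalized vectors -/
theorem norm_normalize {V : Type*} [NormedAddCommGroup V] [NormedSpace ℝ V] {x x' : V}
    (hx : x ≠ 0) (hx' : x' ≠ 0) : ‖‖x‖⁻¹ • x - ‖x'‖⁻¹ • x'‖ ≤ 2 * ‖x - x'‖ / ‖x'‖ := by
  have h1 : 0 < ‖x‖ := norm_pos_iff.2 hx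
  have h2 : 0 < ‖x'‖ := norm_pos_iff.2 hx'
  have h3 : ‖x‖⁻¹ • x - ‖x'‖⁻¹ • x' = (‖x‖⁻¹ - ‖x'‖⁻¹) • x + ‖x'‖⁻¹ • (x - x') := by
    rw [sub_smul, smul_sub]
    abel
  have h4 : ‖(‖x‖⁻¹ - ‖x'‖⁻¹) • x‖ ≤ ‖x - x'‖ / ‖x'‖ := by
    rw [norm_smul, Real.norm_eq_abs]
    have h5 : ‖x‖⁻¹ - ‖x'‖⁻¹ = (‖x'‖ - ‖x‖) / (‖x‖ * ‖x'‖) := by
      field_simp
    rw [h5, abs_div, abs_of_pos (mul_pos h1 h2)]
    have h6 : |‖x'‖ - ‖x‖| ≤ ‖x - x'‖ := by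
      rw [norm_sub_rev]
      exact abs_norm_sub_norm_le _ _
    calc |‖x'‖ - ‖x‖| / (‖x‖ * ‖x'‖) * ‖x‖ = |‖x'‖ - ‖x‖| / ‖x'‖ := by field_simp
      _ ≤ _ := div_le_div_of_nonneg_right h6 h2.le
  rw [h3]
  refine (norm_add_le _ _).trans ?_
  have h7 : ‖‖x'‖⁻¹ • (x - x')‖ = ‖x - x'‖ / ‖x'‖ := by
    rw [norm_smul, norm_inv, norm_norm]
    ring
  rw [h7]
  calc _ ≤ ‖x - x'‖ / ‖x'‖ + ‖x - x'‖ / ‖x'‖ := add_le_add_left h4 _
    _ = _ := by ring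

theorem mk_smul_eq {L : ℕ} {x : Fin L → ℂ} (h : x ≠ 0) {c : ℂ} (hc : c ≠ 0) (h' : c • x ≠ 0) :
    Projectivization.mk ℂ (c • x) h' = Projectivization.mk ℂ x h :=
  (Projectivization.mk_eq_mk_iff' ℂ _ _ h' h).2 ⟨c, rfl⟩

theorem exists_radius {D : ℕ} {r : ℝ} (hr : 0 < r) {r' : Fin D → ℝ} (hr' : ∀ i, 0 < r' i) :
    ∃ ρ > 0, ρ ≤ r ∧ ∀ i, ρ ≤ r' i := by
  have h1 : ∀ᶠ x in 𝓝[>] (0 : ℝ), ∀ i, x ≤ r' i :=
    eventually_all.2 fun i => by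
      filter_upwards [Ioo_mem_nhdsGT (hr' i)] with x hx
      exact hx.2.le
  have h2 : ∀ᶠ x in 𝓝[>] (0 : ℝ), 0 < x ∧ x ≤ r := by
    filter_upwards [Ioo_mem_nhdsGT hr] with x hx
    exact ⟨hx.1, hx.2.le⟩
  obtain ⟨x, hx1, hx2, hx3⟩ := (h1.and h2).exists
  exact ⟨x, hx2, hx3, hx1⟩

theorem lev_zero_dir {n : ℕ} (g : ℝ × Cn n → ℝ) (q : ℝ × Cn n) : lev g 0 q = 0 := by
  have h1 : J (0 : Cn n) = 0 := Prod.ext (by simp [J]) (by simp [J])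
  have h2 : ((0 : ℝ), (0 : Cn n)) = 0 := rfl
  have h3 : ∀ g : ℝ × Cn n → ℝ, ∀ q, D (0 : ℝ × Cn n) g q = 0 := fun g q => by
    rw [D, map_zero]
  rw [lev, h1, h2, h3, add_zero, zero_div]

section

variable {M Z : Type} [MetricSpace M] [MetricSpace Z] {n N : ℕ} {κ P : Type}
  {e : κ → OpenPartialHomeomorph M (Cn n)} {U : P → Set Z} {q : P → Z → Cn N} {f : M → Z}
  {ψ : κ → ℝ × Cn n → ℝ}

/-- the constant curve -/
theorem isCurve_const (he : IsAtlas e) {A : Set M} {C l α : ℝ} (hC : 0 ≤ C) (hl : 0 ≤ l) {p : M}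
    (hp : p ∈ A) : KRFZ.IsCurve e ψ A C l α (fun _ (_ : Fin 1) => p) (fun _ => 0) 0 0 := by
  obtain ⟨c, hc⟩ := he.cover p
  refine ⟨fun _ _ => hp, fun s ε hε => Eventually.of_forall fun _ => ⟨1, fun _ => by
      rw [dist_self]
      exact hε.le⟩, fun s₂ _ s _ => ⟨1, fun _ => by
      rw [dist_self]
      exact mul_nonneg (Real.exp_pos _).le (Real.rpow_nonneg (norm_nonneg _) _)⟩,
    continuousOn_const, fun _ _ => by
      rw [abs_zero]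
      exact mul_nonneg hC hl, ∅, fun s => ⟨1, one_pos, fun _ h => h.elim⟩, fun s _ => ?_⟩
  refine ⟨1, fun _ => c, fun _ _ => e c p, one_pos, fun _ => ⟨contDiffOn_const, fun s _ => ?_⟩,
    fun _ _ _ => (e c).map_source hc, fun _ _ => ⟨1, fun _ => ((e c).left_inv hc).symm⟩,
    fun _ => contDiffOn_const, fun _ s' _ => ?_⟩
  · rw [fderiv_fun_const]
    change (0 : Cn n) = J 0
    exact Prod.ext (by simp [J]) (by simp [J])
  · rw [fderiv_fun_const]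
    have h1 : lev (ψ c) ((0 : ℂ →L[ℝ] Cn n) 1) (0, e c p) = 0 := lev_zero_dir _ _
    have h2 : (fun s' : ℂ => C * Real.log (1 + ‖s'‖ ^ 2) + 0) =
        fun s' => C * Real.log (1 + Complex.normSq s') := by
      funext s'
      rw [Complex.normSq_eq_norm_sq, add_zero]
    have h3 : ContDiffAt ℝ 2 (fun ζ : ℂ => Real.log (1 + Complex.normSq ζ)) s' := by
      refine (contDiffAt_const.add (Curve.contDiff_nsq.contDiffAt.of_le (by norm_cast))).log ?_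
      have := Complex.normSq_nonneg s'
      positivity
    rw [h2, HB.lapC_const_mul _ h3, Curve.lapC_log]
    have h4 : 0 ≤ C * (4 / (1 + Complex.normSq s') ^ 2) := by
      refine mul_nonneg hC ?_
      positivity
    change 4 * lev (ψ c) ((0 : ℂ →L[ℝ] Cn n) 1) (0, e c p) ≤ _
    rw [h1]
    linarith

/-- the conclusion of `W/Metric` on one fibre -/
def DistLe (f : M → Z) {L : ℕ} (ι : M → ℙ ℂ (Fin (L + 1) → ℂ)) (C : ℝ) (z : Z) : Prop :=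
  ∀ p p', f p = z → f p' = z → ∀ (x x' : Fin (L + 1) → ℂ) (h : x ≠ 0) (h' : x' ≠ 0),
    ι p = Projectivization.mk ℂ x h → ι p' = Projectivization.mk ℂ x' h' →
    ‖x‖ = 1 → ‖x'‖ = 1 → dist p p' ≤ C * ‖x - x'‖

/-- the conclusion of `W/Disc` on one fibre -/
def Discs (e : κ → OpenPartialHomeomorph M (Cn n)) (ψ : κ → ℝ × Cn n → ℝ) (f : M → Z) {L : ℕ}
    (ι : M → ℙ ℂ (Fin (L + 1) → ℂ)) (C : ℝ) (z : Z) : Prop :=
  ∀ (h : ℂ → M) (F : ℂ → Fin (L + 1) → ℂ) (s : ℂ) (r : ℝ), 0 < r →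
    DifferentiableOn ℂ F (Metric.ball s r) →
    (∀ s' ∈ Metric.ball s r, f (h s') = z ∧
      ∃ h0 : F s' ≠ 0, ι (h s') = Projectivization.mk ℂ (F s') h0) →
    ∃ (r' : ℝ) (c : κ) (g : ℂ → Cn n), 0 < r' ∧ r' ≤ r ∧ HolD g (Metric.ball s r') ∧
      (∀ s' ∈ Metric.ball s r', g s' ∈ (e c).target ∧ h s' = (e c).symm (g s')) ∧
      ∀ s' ∈ Metric.ball s r', 4 * lev (ψ c) (fderiv ℝ g s' 1) (0, g s') ≤
        C * lapC (fun s' => Real.log (nn (F s'))) s'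

/-- one curve -/
theorem isCurve_of {L : ℕ} {ι : M → ℙ ℂ (Fin (L + 1) → ℂ)} {z : Z} {V : Set (Fin (L + 1) → ℂ)}
    {C₁ C₂ C K α l : ℝ} (hC₁ : 0 < C₁) (hC : 1 ≤ C) (hl : 1 ≤ l)
    (hK : C₁ * (2 * (C * (L + 1))) * C ≤ K)
    (hdist : DistLe f ι C₁ z) (hdisc : Discs e ψ f ι C₂ z) {D k : ℕ}
    {X : ℂ → Fin D → Fin (L + 1) → ℂ} {ℓ : Fin k → Fin (L + 1) → ℂ} {μ : ℝ}
    (hX : IsLine V C α X ℓ μ) {γ : ℂ → Fin D → M}
    (hγ : ∀ s i (x : Fin (L + 1) → ℂ) (hx : x ≠ 0), x = X s i →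
      f (γ s i) = z ∧ ι (γ s i) = Projectivization.mk ℂ x hx)
    (hinj : ∀ p p', f p = z → f p' = z → ι p = ι p' → p = p')
    {s₀ s₁ : ℂ} (hs₀ : ‖s₀‖ ≤ 1) (hs₁ : ‖s₁‖ ≤ 1) {ρ : M → ℝ} (hρc : ContinuousOn ρ (f ⁻¹' {z}))
    (hρb : ∀ p, |ρ p| ≤ K * l)
    (hρ : ∀ (h : ℂ → M) (F : ℂ → Fin (L + 1) → ℂ) (s : ℂ) (r : ℝ),
      DifferentiableOn ℂ F (Metric.ball s r) →
      (∀ s' ∈ Metric.ball s r, ∃ h0 : F s' ≠ 0, ι (h s') = Projectivization.mk ℂ (F s') h0) →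
      (∀ s' ∈ Metric.ball s r, nl ℓ (F s') = μ * (1 + ‖s'‖ ^ 2)) →
      (∀ s' ∈ Metric.ball s r, nn (F s') < (2 * C + 1) * nl ℓ (F s')) →
      ContDiffOn ℝ ∞ (fun s' => ρ (h s')) (Metric.ball s r) ∧
      ∀ s' ∈ Metric.ball s r, C₂ * lapC (fun s' => Real.log (nn (F s'))) s' ≤
          lapC (fun s' => K * Real.log (1 + ‖s'‖ ^ 2) + ρ (h s')) s') :
    KRFZ.IsCurve e ψ (f ⁻¹' {z}) K l α γ ρ s₀ s₁ := by
  have hC0 : 0 < C := by linarith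
  have hL : (0 : ℝ) < L + 1 := by positivity
  have hX0 : ∀ s i, X s i ≠ 0 := by
    intro s i h0
    have h1 := hX.lower s i
    rw [h0, nn_zero, mul_zero] at h1
    have h2 : 0 ≤ ‖s‖ ^ 2 := by positivity
    linarith
  have hnorm : ∀ s i, 1 ≤ C * (L + 1) * ‖X s i‖ := by
    intro s i
    have h1 := hX.lower s i
    have h2 := nn_le_norm (X s i)
    push_cast at h2
    have h3 : 0 ≤ ‖s‖ ^ 2 := by positivity
    have h4 : C * nn (X s i) ≤ C * ((L + 1) * ‖X s i‖ ^ 2) := mul_le_mul_of_nonneg_left h2 hC0.le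
    have h5 : 1 ≤ C * (L + 1) * ‖X s i‖ ^ 2 := by linarith
    have h6 : 1 ≤ C * (L + 1) := by
      have : (0 : ℝ) ≤ L := Nat.cast_nonneg L
      nlinarith
    by_contra hlt
    push Not at hlt
    have h7 : (C * (L + 1) * ‖X s i‖) ^ 2 < 1 := by
      have : 0 ≤ C * (L + 1) * ‖X s i‖ := by positivity
      nlinarith
    have h8 : (C * (L + 1) * ‖X s i‖) ^ 2 = C * (L + 1) * (C * (L + 1) * ‖X s i‖ ^ 2) := by ring
    nlinarith
  have hd : ∀ s s' i j, dist (γ s' j) (γ s i) ≤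
      C₁ * (2 * (C * (L + 1))) * ‖X s' j - X s i‖ := by
    intro s s' i j
    have hx := hX0 s' j
    have hx' := hX0 s i
    have hn : 0 < ‖X s' j‖ := norm_pos_iff.2 hx
    have hn' : 0 < ‖X s i‖ := norm_pos_iff.2 hx'
    have e1 : ∀ y : Fin (L + 1) → ℂ, ‖y‖⁻¹ • y = ((‖y‖⁻¹ : ℝ) : ℂ) • y := fun y => by
      ext i
      simp
    have h1 : ((‖X s' j‖⁻¹ : ℝ) : ℂ) ≠ 0 := by
      exact_mod_cast (inv_pos.2 hn).ne'
    have h1' : ((‖X s i‖⁻¹ : ℝ) : ℂ) ≠ 0 := by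
      exact_mod_cast (inv_pos.2 hn').ne'
    have h2 : ‖X s' j‖⁻¹ • X s' j ≠ 0 := by
      rw [e1]
      exact smul_ne_zero h1 hx
    have h2' : ‖X s i‖⁻¹ • X s i ≠ 0 := by
      rw [e1]
      exact smul_ne_zero h1' hx'
    obtain ⟨h3, h4⟩ := hγ s' j _ hx rfl
    obtain ⟨h3', h4'⟩ := hγ s i _ hx' rfl
    have h5 := hdist (γ s' j) (γ s i) h3 h3' _ _ h2 h2'
      (by
        rw [h4, Projectivization.mk_eq_mk_iff']
        refine ⟨((‖X s' j‖ : ℝ) : ℂ), ?_⟩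
        rw [e1, smul_smul, ← Complex.ofReal_mul, mul_inv_cancel₀ hn.ne', Complex.ofReal_one,
          one_smul])
      (by
        rw [h4', Projectivization.mk_eq_mk_iff']
        refine ⟨((‖X s i‖ : ℝ) : ℂ), ?_⟩
        rw [e1, smul_smul, ← Complex.ofReal_mul, mul_inv_cancel₀ hn'.ne', Complex.ofReal_one,
          one_smul])
      (by rw [norm_smul, norm_inv, norm_norm, inv_mul_cancel₀ hn.ne'])
      (by rw [norm_smul, norm_inv, norm_norm, inv_mul_cancel₀ hn'.ne'])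
    refine h5.trans ?_
    have h6 := norm_normalize hx hx'
    have h7 : 2 * ‖X s' j - X s i‖ / ‖X s i‖ ≤ 2 * (C * (L + 1)) * ‖X s' j - X s i‖ := by
      rw [div_le_iff₀ hn']
      have h8 := hnorm s i
      have h9 : 0 ≤ 2 * ‖X s' j - X s i‖ := by positivity
      calc 2 * ‖X s' j - X s i‖ = 2 * ‖X s' j - X s i‖ * 1 := by ring
        _ ≤ 2 * ‖X s' j - X s i‖ * (C * (L + 1) * ‖X s i‖) := mul_le_mul_of_nonneg_left h8 h9
        _ = _ := by ring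
    calc C₁ * _ ≤ C₁ * (2 * (C * (L + 1)) * ‖X s' j - X s i‖) :=
          mul_le_mul_of_nonneg_left (h6.trans h7) hC₁.le
      _ = _ := by ring
  have hb : ∀ R : ℝ, ∃ B : ℝ, ∀ s, ‖s‖ ≤ R → ∀ m, ‖X s m‖ ≤ B := by
    intro R
    refine ⟨C * (1 + R ^ 2) + 1, fun s hs m => ?_⟩
    have h1 := norm_le_nn (X s m)
    have h2 := hX.upper s m
    have h3 : ‖s‖ ^ 2 ≤ R ^ 2 := pow_le_pow_left₀ (norm_nonneg _) hs 2
    have h4 : C * (1 + ‖s‖ ^ 2) ≤ C * (1 + R ^ 2) := mul_le_mul_of_nonneg_left (by linarith) hC0.le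
    nlinarith [norm_nonneg (X s m)]
  refine ⟨fun s i => (hγ s i _ (hX0 s i) rfl).1, ?_, ?_, hρc, fun p _ => hρb p, ?_⟩
  · intro s ε hε
    have hH : 0 < C₁ * (2 * (C * (L + 1))) := by positivity
    filter_upwards [cont_tup hX.hol hb s (div_pos hε hH)] with s' hs'
    obtain ⟨σ, hσ⟩ := hs'
    refine ⟨σ, fun i => (hd s s' i (σ i)).trans ?_⟩
    calc C₁ * (2 * (C * (L + 1))) * ‖X s' (σ i) - X s i‖ ≤
          C₁ * (2 * (C * (L + 1))) * (ε / (C₁ * (2 * (C * (L + 1))))) :=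
          mul_le_mul_of_nonneg_left (hσ i) hH.le
      _ = ε := by field_simp
  · intro s₂ hs₂ s hs
    have h1 : ‖s₂‖ ≤ 1 := by
      rcases hs₂ with rfl | rfl
      · exact hs₀
      · exact hs₁
    obtain ⟨σ, hσ⟩ := hX.holder s s₂ h1 hs
    refine ⟨σ, fun i => (hd s₂ s i (σ i)).trans ?_⟩
    have h8 : 0 ≤ ‖s - s₂‖ ^ α := Real.rpow_nonneg (norm_nonneg _) _
    have h9 : C₁ * (2 * (C * (L + 1))) * C ≤ Real.exp (K * l) := by
      have h10 := Real.add_one_le_exp (K * l)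
      have h11 : 0 ≤ K := by
        have : 0 ≤ C₁ * (2 * (C * (L + 1))) * C := by positivity
        linarith
      nlinarith
    calc C₁ * (2 * (C * (L + 1))) * ‖X s (σ i) - X s₂ i‖ ≤
          C₁ * (2 * (C * (L + 1))) * (C * ‖s - s₂‖ ^ α) :=
          mul_le_mul_of_nonneg_left (hσ i) (by positivity)
      _ = C₁ * (2 * (C * (L + 1))) * C * ‖s - s₂‖ ^ α := by ring
      _ ≤ _ := mul_le_mul_of_nonneg_right h9 h8
  · obtain ⟨E, hE, hsec⟩ := exists_sections hX.hol hb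
    refine ⟨E, hE, fun s hs => ?_⟩
    obtain ⟨r, hr, g, hg, hgX⟩ := hsec s hs
    have hgX' : ∀ i, ∀ s' ∈ Metric.ball s r, ∃ j, g i s' = X s' j := by
      intro i s' hs'
      obtain ⟨σ, hσ⟩ := hgX s' hs'
      exact ⟨σ i, (hσ i).symm⟩
    choose! jj hjj using hgX'
    -- the point of `M`
    set h : Fin D → ℂ → M := fun i s' => γ s' (jj i s') with hh
    have hh1 : ∀ i, ∀ s' ∈ Metric.ball s r, f (h i s') = z ∧
        ∃ h0 : g i s' ≠ 0, ι (h i s') = Projectivization.mk ℂ (g i s') h0 := by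
      intro i s' hs'
      have h0 : g i s' ≠ 0 := by
        rw [hjj i s' hs']
        exact hX0 _ _
      obtain ⟨h1, h2⟩ := hγ s' (jj i s') _ h0 (hjj i s' hs')
      exact ⟨h1, h0, h2⟩
    choose r' c g' hr' hr'r hg' hm hlev using fun i =>
      hdisc (h i) (g i) s r hr (hg i) (hh1 i)
    obtain ⟨r₀, hr₀, hr₀r, hr₀'⟩ := exists_radius hr hr'
    have hb1 : Metric.ball s r₀ ⊆ Metric.ball s r := Metric.ball_subset_ball hr₀r
    have hb' : ∀ i, Metric.ball s r₀ ⊆ Metric.ball s (r' i) := fun i =>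
      Metric.ball_subset_ball (hr₀' i)
    have hR : ∀ i, ContDiffOn ℝ ∞ (fun s' => ρ (h i s')) (Metric.ball s r₀) ∧
        ∀ s' ∈ Metric.ball s r₀, C₂ * lapC (fun s' => Real.log (nn (g i s'))) s' ≤
          lapC (fun s' => K * Real.log (1 + ‖s'‖ ^ 2) + ρ (h i s')) s' := by
      intro i
      refine hρ (h i) (g i) s r₀ ((hg i).mono hb1) (fun s' hs' => (hh1 i s' (hb1 hs')).2) ?_ ?_
      · intro s' hs'
        rw [hjj i s' (hb1 hs')]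
        exact hX.form _ _
      · intro s' hs'
        rw [hjj i s' (hb1 hs'), hX.form]
        have h1 := hX.upper s' (jj i s')
        have h2 := hX.mu.1
        have h3 : 0 < 1 + ‖s'‖ ^ 2 := by positivity
        have h4 : (2 * C + 1) * (1 / 2) ≤ (2 * C + 1) * μ :=
          mul_le_mul_of_nonneg_left h2 (by linarith)
        calc nn (X s' (jj i s')) ≤ C * (1 + ‖s'‖ ^ 2) := h1
          _ < (2 * C + 1) * μ * (1 + ‖s'‖ ^ 2) := mul_lt_mul_of_pos_right (by linarith) h3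
          _ = _ := by ring
    refine ⟨r₀, c, g', hr₀, fun i => (hg' i).mono (hb' i), fun i s' hs' => (hm i s' (hb' i hs')).1,
      ?_, ?_, ?_⟩
    · intro s' hs'
      obtain ⟨σ, hσ⟩ := hgX s' (hb1 hs')
      refine ⟨σ, fun i => ?_⟩
      rw [← (hm i s' (hb' i hs')).2]
      obtain ⟨h1, h2, h3⟩ := hh1 i s' (hb1 hs')
      obtain ⟨h4, h5⟩ := hγ s' (σ i) _ h2 (hσ i).symm
      exact hinj _ _ h4 h1 (h5.trans h3.symm)
    · intro i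
      exact (hR i).1.congr fun s' hs' => by rw [← (hm i s' (hb' i hs')).2]
    · intro i s' hs'
      refine (hlev i s' (hb' i hs')).trans (((hR i).2 s' hs').trans (le_of_eq ?_))
      refine lapC_congr ?_
      filter_upwards [Metric.isOpen_ball.mem_nhds hs'] with ζ hζ
      rw [← (hm i ζ (hb' i hζ)).2]

/-- the curves of one fibre -/
theorem fibre_curves (he : IsAtlas e) {S : Set Z} {L d : ℕ} {ι : M → ℙ ℂ (Fin (L + 1) → ℂ)}
    (hι : IsProjOver e U q f S ι d) {z : Z} (hz : z ∈ S) {D₀ : ℕ} {C α C₁ C₂ K l : ℝ}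
    (hC : 1 ≤ C) (hC₁ : 0 < C₁) (hC₂ : 0 < C₂) (hl : 1 ≤ l)
    (hK : C₁ * (2 * (C * (L + 1))) * C + C₂ * Real.log (2 * C + 1) + C₂ ≤ K)
    (hlines : ∀ T : Set (MvPolynomial (Fin (L + 1)) ℂ), (∀ Q ∈ T, Q.IsHomogeneous d) →
      ∃ A : Finset (Fin (L + 1) → ℂ), A.card ≤ D₀ ∧ (∀ a ∈ A, a ∈ zeros T ∧ a ≠ 0) ∧
        ∀ x ∈ zeros T, x ≠ 0 → (∃ a ∈ A, ∃ c : ℂ, c ≠ 0 ∧ a = c • x) ∨
          ∃ (D k : ℕ) (X : ℂ → Fin D → Fin (L + 1) → ℂ) (ℓ : Fin k → Fin (L + 1) → ℂ) (μ : ℝ)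
            (s₀ s₁ : ℂ), D ≤ D₀ ∧ IsLine (zeros T) C α X ℓ μ ∧ ‖s₀‖ ≤ 1 ∧ ‖s₁‖ ≤ 1 ∧
              (∀ m, X s₀ m ∈ A) ∧ ∃ m, ∃ c : ℂ, c ≠ 0 ∧ X s₁ m = c • x)
    (hdist : DistLe f ι C₁ z) (hdisc : Discs e ψ f ι C₂ z)
    (ρ : ∀ {k : ℕ}, (Fin k → Fin (L + 1) → ℂ) → M → ℝ)
    (hρc : ∀ {k : ℕ} (ℓ : Fin k → Fin (L + 1) → ℂ), ContinuousOn (ρ ℓ) (f ⁻¹' S))
    (hρb : ∀ {k : ℕ} (ℓ : Fin k → Fin (L + 1) → ℂ), (∀ v, nl ℓ v ≤ (2 * C + 1) * nn v) → ∀ p,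
      |ρ ℓ p| ≤ C₂ * Real.log (2 * C + 1))
    (hρ : ∀ {k : ℕ} (ℓ : Fin k → Fin (L + 1) → ℂ) (μ : ℝ), 0 < μ →
      ∀ (h : ℂ → M) (F : ℂ → Fin (L + 1) → ℂ) (s : ℂ) (r : ℝ),
      DifferentiableOn ℂ F (Metric.ball s r) →
      (∀ s' ∈ Metric.ball s r, ∃ h0 : F s' ≠ 0, ι (h s') = Projectivization.mk ℂ (F s') h0) →
      (∀ s' ∈ Metric.ball s r, nl ℓ (F s') = μ * (1 + ‖s'‖ ^ 2)) →
      (∀ s' ∈ Metric.ball s r, nn (F s') < (2 * C + 1) * nl ℓ (F s')) →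
      ContDiffOn ℝ ∞ (fun s' => ρ ℓ (h s')) (Metric.ball s r) ∧
      ∀ s' ∈ Metric.ball s r, C₂ * lapC (fun s' => Real.log (nn (F s'))) s' ≤
          lapC (fun s' => K * Real.log (1 + ‖s'‖ ^ 2) + ρ ℓ (h s')) s') :
    ∃ A : Finset M, A.card ≤ D₀ + 1 ∧ (∀ p ∈ A, f p = z) ∧ ∀ p, f p = z →
      ∃ (D : ℕ) (γ : ℂ → Fin D → M) (ρ : M → ℝ) (s₀ s₁ : ℂ), D ≤ D₀ + 1 ∧ ‖s₀‖ ≤ 1 ∧ ‖s₁‖ ≤ 1 ∧
        (∀ i, γ s₀ i ∈ A) ∧ (∃ i, γ s₁ i = p) ∧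
          KRFZ.IsCurve e ψ (f ⁻¹' {z}) K l α γ ρ s₀ s₁ := by
  classical
  have hlog : 0 ≤ Real.log (2 * C + 1) := Real.log_nonneg (by linarith)
  have hH : 0 ≤ C₁ * (2 * (C * (L + 1))) * C := by positivity
  have hK0 : 0 ≤ K := by
    have : 0 ≤ C₂ * Real.log (2 * C + 1) := by positivity
    linarith
  obtain ⟨T, hT, hTz⟩ := hι.alg z hz
  obtain ⟨A, hA, hAmem, hx⟩ := hlines T hT
  by_cases hne : ∃ p, f p = z
  swap
  · refine ⟨∅, by simp, by simp, fun p hp => absurd ⟨p, hp⟩ hne⟩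
  obtain ⟨p₀, hp₀⟩ := hne
  have hinj : ∀ p p', f p = z → f p' = z → ι p = ι p' → p = p' := fun p p' h1 h2 h3 =>
    hι.inj p p' (by rwa [h1]) (h1.trans h2.symm) h3
  have hpt : ∀ x : Fin (L + 1) → ℂ, ∃ p : M, ∀ h0 : x ≠ 0, x ∈ zeros T →
      f p = z ∧ ι p = Projectivization.mk ℂ x h0 := by
    intro x
    by_cases h0 : x ≠ 0
    · by_cases h1 : x ∈ zeros T
      · obtain ⟨p, hp⟩ := (hTz x h0).1 h1
        exact ⟨p, fun _ _ => hp⟩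
      · exact ⟨p₀, fun _ h => absurd h h1⟩
    · exact ⟨p₀, fun h => absurd h h0⟩
  choose pt hpt using hpt
  refine ⟨A.image pt, Finset.card_image_le.trans (hA.trans (Nat.le_succ _)), ?_, ?_⟩
  · intro p hp
    obtain ⟨a, ha, rfl⟩ := Finset.mem_image.1 hp
    exact (hpt a (hAmem a ha).2 (hAmem a ha).1).1
  intro p hp
  set x : Fin (L + 1) → ℂ := (ι p).rep with hxdef
  have hx0 : x ≠ 0 := (ι p).rep_nonzero
  have hxp : ι p = Projectivization.mk ℂ x hx0 := (ι p).mk_rep.symm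
  have hxT : x ∈ zeros T := (hTz x hx0).2 ⟨p, hp, hxp⟩
  rcases hx x hxT hx0 with ⟨a, ha, c, hc, hac⟩ |
    ⟨D, k, X, ℓ, μ, s₀, s₁, hD, hX, hs₀, hs₁, hXA, m, c, hc, hm⟩
  · have hpA : p ∈ A.image pt := by
      obtain ⟨h1, h2⟩ := hAmem a ha
      obtain ⟨h3, h4⟩ := hpt a h2 h1
      have h5 : pt a = p := by
        refine hinj _ _ h3 hp (h4.trans ?_)
        rw [hxp, Projectivization.mk_eq_mk_iff']
        exact ⟨c, hac.symm⟩
      rw [← h5]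
      exact Finset.mem_image_of_mem _ ha
    exact ⟨1, fun _ _ => p, fun _ => 0, 0, 0, by omega, by simp, by simp, fun _ => hpA, ⟨0, rfl⟩,
      isCurve_const he hK0 (by linarith) hp⟩
  · have hγ : ∀ s i (x : Fin (L + 1) → ℂ) (hx : x ≠ 0), x = X s i →
        f (pt (X s i)) = z ∧ ι (pt (X s i)) = Projectivization.mk ℂ x hx := by
      rintro s i x hx rfl
      exact hpt _ hx (hX.mem s i)
    have hX0 : X s₁ m ≠ 0 := by
      rw [hm]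
      exact smul_ne_zero hc hx0
    refine ⟨D, fun s i => pt (X s i), ρ ℓ, s₀, s₁, by omega, hs₀, hs₁,
      fun i => Finset.mem_image_of_mem _ (hXA i), ⟨m, ?_⟩, ?_⟩
    · obtain ⟨h1, h2⟩ := hγ s₁ m _ hX0 rfl
      refine hinj _ _ h1 hp (h2.trans ?_)
      rw [hxp, Projectivization.mk_eq_mk_iff']
      exact ⟨c, hm.symm⟩
    · refine isCurve_of hC₁ hC hl ?_ hdist hdisc hX hγ hinj hs₀ hs₁
        ((hρc ℓ).mono fun p hp => ?_) (fun p => ?_) (hρ ℓ μ (by linarith [hX.mu.1]))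
      · have : 0 ≤ C₂ * Real.log (2 * C + 1) := by positivity
        linarith
      · have h1 : f p = z := hp
        change f p ∈ S
        rwa [h1]
      · refine (hρb ℓ (fun v => (hX.form_le v).trans ?_) p).trans ?_
        · have h1 : 0 ≤ nn v := Finset.sum_nonneg fun _ _ => by positivity
          exact mul_le_mul_of_nonneg_right (by linarith) h1
        · have h1 : C₂ * Real.log (2 * C + 1) ≤ K := by linarith
          calc C₂ * Real.log (2 * C + 1) ≤ K := h1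
            _ = K * 1 := (mul_one _).symm
            _ ≤ K * l := mul_le_mul_of_nonneg_left hl hK0

end

end CL

end Pool.Agent.KRFW

end

section

/-!
# Curves in the fibres over a small open set
-/

open scoped ContDiff ENNReal ComplexOrder LinearAlgebra.Projectivization Topology
open Set Filter Pool.Agent.ToricKRF Pool.Agent.ToricKRF.G Pool.Agent.KRFS Pool.Agent.KRFF
  Pool.Agent.KRFZ

namespace Pool.Agent.KRFW

variable {M Z : Type} [MetricSpace M] [CompactSpace M] [MetricSpace Z] {n N : ℕ} {κ P : Type}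
  {e : κ → OpenPartialHomeomorph M (Cn n)} {U : P → Set Z} {q : P → Z → Cn N} {f : M → Z}
  {ψ : κ → ℝ × Cn n → ℝ}

theorem hasCurves_near (G : GeoData e U q f ψ) {S : Set Z} {L d : ℕ}
    {ι : M → ℙ ℂ (Fin (L + 1) → ℂ)} (hι : IsProjOver e U q f S ι d) (hS : IsOpen S) {z₀ : Z}
    (hz₀ : z₀ ∈ S) : ∃ (S' : Set Z) (D₀ : ℕ) (C α : ℝ), IsOpen S' ∧ z₀ ∈ S' ∧ 0 ≤ C ∧ 0 < α ∧
      ∀ z ∈ S', ∀ l, 1 ≤ l → ∃ A : Finset M, A.card ≤ D₀ ∧ (∀ p ∈ A, f p = z) ∧ ∀ p, f p = z →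
        ∃ (D : ℕ) (γ : ℂ → Fin D → M) (ρ : M → ℝ) (s₀ s₁ : ℂ), D ≤ D₀ ∧ ‖s₀‖ ≤ 1 ∧ ‖s₁‖ ≤ 1 ∧
          (∀ i, γ s₀ i ∈ A) ∧ (∃ i, γ s₁ i = p) ∧
            KRFZ.IsCurve e ψ (f ⁻¹' {z}) C l α γ ρ s₀ s₁ := by
  obtain ⟨S₁, C₁, hS₁, hz₁, hS₁S, hC₁, hdist⟩ := dist_le G hι hS hz₀
  obtain ⟨S₂, C₂, hS₂, hz₂, hS₂S, hC₂, hdisc⟩ := exists_disc G hι hS hz₀
  obtain ⟨D₀, C, α, hC, hα, hlines⟩ := exists_lines (L + 1) d
  have hlog : 0 ≤ Real.log (2 * C + 1) := Real.log_nonneg (by linarith)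
  set K : ℝ := C₁ * (2 * (C * (L + 1))) * C + C₂ * Real.log (2 * C + 1) + C₂ with hK
  have hK2 : C₂ ≤ K := by
    have h1 : 0 ≤ C₁ * (2 * (C * (L + 1))) * C := by positivity
    have h2 : 0 ≤ C₂ * Real.log (2 * C + 1) := by positivity
    linarith
  refine ⟨S₁ ∩ S₂, D₀ + 1, K, α, hS₁.inter hS₂, ⟨hz₁, hz₂⟩, by linarith, hα, fun z hz l hl => ?_⟩
  refine CL.fibre_curves G.atlas hι (hS₁S hz.1) hC hC₁ hC₂ hl le_rfl hlines ?_ ?_
    (fun ℓ => rho ι ℓ (2 * C + 1) C₂) (fun ℓ => rho_cont G hι hS ℓ (by linarith) C₂)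
    (fun ℓ hℓ p => rho_bound (by linarith) hC₂.le hℓ p) ?_
  · intro p p' hp hp' x x' h h' h1 h2 h3 h4
    exact hdist p p' (by rw [hp]; exact hz.1) (hp.trans hp'.symm) x x' h h' h1 h2 h3 h4
  · intro h F s r hr hF hh
    exact hdisc z hz.2 h F s r hr hF hh
  · intro k ℓ μ hμ h F s r hF hh h1 h2
    obtain ⟨h3, h4⟩ := rho_curve (C₂ := K) (by linarith) hC₂.le hK2 hμ hF hh h1 h2
    exact ⟨h3, fun s' hs' => (h4 s' hs').2⟩

end Pool.Agent.KRFW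

end

section

/-!
# Curves in the fibres of locally projective maps, from the local statement
-/

open scoped ContDiff ENNReal ComplexOrder LinearAlgebra.Projectivization Topology
open Set Filter Pool.Agent.ToricKRF Pool.Agent.ToricKRF.G Pool.Agent.KRFS Pool.Agent.KRFF
  Pool.Agent.KRFG Pool.Agent.KRFZ

namespace Pool.Agent.KRFW

namespace CurvesNat

theorem contDiff_logsq : ContDiff ℝ ∞ fun s : ℂ => Real.log (1 + ‖s‖ ^ 2) := by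
  have h : ContDiff ℝ ∞ fun s : ℂ => 1 + ‖s‖ ^ 2 := contDiff_const.add (contDiff_norm_sq ℝ)
  exact h.log fun s => by positivity

theorem lapC_logsq (s : ℂ) : 0 ≤ lapC (fun s : ℂ => Real.log (1 + ‖s‖ ^ 2)) s := by
  have h1 : (fun s : ℂ => Real.log (1 + ‖s‖ ^ 2)) =
      fun s => Real.log (1 + Complex.normSq s) := by
    funext s
    rw [Complex.normSq_eq_norm_sq]
  rw [h1, Curve.lapC_log]
  positivity

/-- larger constants -/
theorem isCurve_mono {M : Type} [MetricSpace M] {n : ℕ} {κ : Type}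
    {e : κ → OpenPartialHomeomorph M (Cn n)} {ψ : κ → ℝ × Cn n → ℝ} {A : Set M}
    {C C' l α α' : ℝ} {D : ℕ} {γ : ℂ → Fin D → M} {ρ : M → ℝ} {s₀ s₁ : ℂ} (hl : 1 ≤ l)
    (hC : C ≤ C') (hα' : 0 < α') (hα : α' ≤ α)
    (h : KRFZ.IsCurve e ψ A C l α γ ρ s₀ s₁) : KRFZ.IsCurve e ψ A C' l α' γ ρ s₀ s₁ where
  mem := h.mem
  cont := h.cont
  holder := by
    intro s₂ hs₂ s hs
    obtain ⟨σ, hσ⟩ := h.holder s₂ hs₂ s hs
    refine ⟨σ, fun i => (hσ i).trans ?_⟩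
    exact mul_le_mul (Real.exp_le_exp.2 (mul_le_mul_of_nonneg_right hC (by linarith)))
      (Real.rpow_le_rpow_of_exponent_ge' (norm_nonneg _) hs hα'.le hα)
      (Real.rpow_nonneg (norm_nonneg _) _) (Real.exp_pos _).le
  rho_cont := h.rho_cont
  rho_bound := fun p hp => (h.rho_bound p hp).trans
    (mul_le_mul_of_nonneg_right hC (by linarith))
  sect := by
    obtain ⟨E, hE, hs⟩ := h.sect
    refine ⟨E, hE, fun s hsE => ?_⟩
    obtain ⟨r, c, g, hr, h1, h2, h3, h4, h5⟩ := hs s hsE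
    refine ⟨r, c, g, hr, h1, h2, h3, h4, fun i s' hs' => (h5 i s' hs').trans ?_⟩
    have hρ : ContDiffAt ℝ 2 (fun s' => ρ ((e (c i)).symm (g i s'))) s' :=
      ((h4 i).contDiffAt (Metric.isOpen_ball.mem_nhds hs')).of_le (by norm_cast)
    have hlog : ContDiffAt ℝ 2 (fun s : ℂ => Real.log (1 + ‖s‖ ^ 2)) s' :=
      contDiff_logsq.contDiffAt.of_le (by norm_cast)
    have hlog' : ∀ a : ℝ, ContDiffAt ℝ 2 (fun s : ℂ => a * Real.log (1 + ‖s‖ ^ 2)) s' :=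
      fun a => contDiffAt_const.mul hlog
    rw [HB.lapC_add (hlog' C) hρ, HB.lapC_add (hlog' C') hρ]
    have e1 : ∀ a : ℝ, lapC (fun x : ℂ => a * Real.log (1 + ‖x‖ ^ 2)) s' =
        a * lapC (fun s : ℂ => Real.log (1 + ‖s‖ ^ 2)) s' := fun a => HB.lapC_const_mul a hlog
    rw [e1, e1]
    have := mul_le_mul_of_nonneg_right hC (lapC_logsq s')
    linarith

section

variable {M Z : Type} [MetricSpace M] [CompactSpace M] [MetricSpace Z] {n N : ℕ} {κ P : Type}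
  {e : κ → OpenPartialHomeomorph M (Cn n)} {U : P → Set Z} {q : P → Z → Cn N} {f : M → Z}
  {ψ : κ → ℝ × Cn n → ℝ}

theorem hasCurves_of (hf : Continuous f)
    (hloc : ∀ z₀ : Z, ∃ (S' : Set Z) (D₀ : ℕ) (C α : ℝ), IsOpen S' ∧ z₀ ∈ S' ∧ 0 ≤ C ∧ 0 < α ∧
      ∀ z ∈ S', ∀ l, 1 ≤ l → ∃ A : Finset M, A.card ≤ D₀ ∧ (∀ p ∈ A, f p = z) ∧ ∀ p, f p = z →
        ∃ (D : ℕ) (γ : ℂ → Fin D → M) (ρ : M → ℝ) (s₀ s₁ : ℂ), D ≤ D₀ ∧ ‖s₀‖ ≤ 1 ∧ ‖s₁‖ ≤ 1 ∧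
          (∀ i, γ s₀ i ∈ A) ∧ (∃ i, γ s₁ i = p) ∧
            KRFZ.IsCurve e ψ (f ⁻¹' {z}) C l α γ ρ s₀ s₁) : HasCurves e f ψ := by
  choose S D₀ C α hS hz hC hα h using hloc
  have hK : IsCompact (range f) := isCompact_range hf
  obtain ⟨t, ht⟩ := hK.elim_finite_subcover S hS fun z _ => mem_iUnion.2 ⟨z, hz z⟩
  obtain ⟨a, ha0, ha⟩ : ∃ a > 0, ∀ z ∈ t, a ≤ α z := by
    rcases t.eq_empty_or_nonempty with rfl | ht'
    · exact ⟨1, one_pos, by simp⟩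
    · obtain ⟨z₀, -, h0⟩ := t.exists_min_image α ht'
      exact ⟨α z₀, hα z₀, h0⟩
  refine ⟨∑ z ∈ t, D₀ z, ∑ z ∈ t, C z, a, Finset.sum_nonneg fun z _ => hC z, ha0,
    fun z l hl => ?_⟩
  by_cases hzr : z ∈ range f
  · obtain ⟨z₀, hz₀⟩ := mem_iUnion.1 (ht hzr)
    obtain ⟨hz₀t, hz₀S⟩ := mem_iUnion.1 hz₀
    have hD : D₀ z₀ ≤ ∑ z ∈ t, D₀ z :=
      Finset.single_le_sum (f := D₀) (fun _ _ => Nat.zero_le _) hz₀t
    have hCC : C z₀ ≤ ∑ z ∈ t, C z := Finset.single_le_sum (f := C) (fun z _ => hC z) hz₀t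
    obtain ⟨A, hA, hAz, hA2⟩ := h z₀ z hz₀S l hl
    refine ⟨A, hA.trans hD, hAz, fun p hp => ?_⟩
    obtain ⟨D, γ, ρ, s₀, s₁, h1, h2, h3, h4, h5, h6⟩ := hA2 p hp
    exact ⟨D, γ, ρ, s₀, s₁, h1.trans hD, h2, h3, h4, h5, isCurve_mono hl hCC ha0 (ha z₀ hz₀t) h6⟩
  · exact ⟨∅, by simp, by simp, fun p hp => absurd ⟨p, hp⟩ hzr⟩

end

end CurvesNat

end Pool.Agent.KRFW

end

section

/-!
# The fibres of locally projective maps are covered by curves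
-/

open scoped ContDiff ENNReal ComplexOrder LinearAlgebra.Projectivization Topology
open Set Filter Pool.Agent.ToricKRF Pool.Agent.ToricKRF.G Pool.Agent.KRFS Pool.Agent.KRFF
  Pool.Agent.KRFZ

namespace Pool.Agent.KRFW

theorem hasCurves_of_locProj {M Z : Type} [MetricSpace M] [CompactSpace M] [MetricSpace Z]
    {n N : ℕ} {κ P : Type} {e : κ → OpenPartialHomeomorph M (Cn n)} {U : P → Set Z}
    {q : P → Z → Cn N} {f : M → Z} {ψ : κ → ℝ × Cn n → ℝ} (G : GeoData e U q f ψ)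
    (hproj : IsLocProj e U q f) : HasCurves e f ψ := by
  refine CurvesNat.hasCurves_of G.cont fun z₀ => ?_
  obtain ⟨S, L, ι, d, hS, hz₀, hι⟩ := hproj z₀
  exact hasCurves_near G hι hS hz₀

end Pool.Agent.KRFW

end
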